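import Pool.Agent.H501.CM.Struct

/-!
# Polynomials in `j`; the congruence
-/

set_option autoImplicit false

noncomputable section

open UpperHalfPlane hiding I
open ModularForm MatrixGroups Function Complex EisensteinSeries
open PowerSeries (coeff)

namespace Pool.Agent.H501.CM

open Pool.Agent.Q279.SC (fr z4 z6 zD zd q4 q6 qD qd)
open Pool.Agent.Q237.SX
open Polynomial (aeval)

/-- `x = q^(-s) + ⋯` -/
def Mon (s : ℕ) (x : LaurentSeries ℤ) : Prop :=
  ∃ v : PowerSeries ℤ, PowerSeries.constantCoeff v = 1 ∧ x = qp (-(s : ℤ)) * io v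

theorem Mon.mul {s t : ℕ} {x y : LaurentSeries ℤ} (hx : Mon s x) (hy : Mon t y) :
    Mon (s + t) (x * y) := by
  obtain ⟨v, hv, rfl⟩ := hx
  obtain ⟨w, hw, rfl⟩ := hy
  refine ⟨v * w, by rw [map_mul, hv, hw, mul_one], ?_⟩
  have : (-((s + t : ℕ) : ℤ)) = -(s : ℤ) + -(t : ℤ) := by push_cast; ring
  rw [this, qp_add, map_mul]
  ring

theorem Mon.one : Mon 0 1 := ⟨1, map_one _, by simp [qp_zero]⟩

theorem Mon.pow {s : ℕ} {x : LaurentSeries ℤ} (hx : Mon s x) (n : ℕ) : Mon (n * s) (x ^ n) := by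
  induction n with
  | zero =>
    rw [zero_mul, pow_zero]
    exact Mon.one
  | succ n ih =>
    rw [add_mul, one_mul, pow_succ]
    exact ih.mul hx

theorem Mon.coeff_self {s : ℕ} {x : LaurentSeries ℤ} (hx : Mon s x) : x.coeff (-(s : ℤ)) = 1 := by
  obtain ⟨v, hv, rfl⟩ := hx
  rw [qp_coeff, sub_self]
  have h := io_coeff v 0
  rw [Nat.cast_zero] at h
  rw [h, PowerSeries.coeff_zero_eq_constantCoeff_apply, hv]

theorem Mon.coeff_lt {s : ℕ} {x : LaurentSeries ℤ} (hx : Mon s x) {n : ℤ} (hn : n < -(s : ℤ)) :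
    x.coeff n = 0 := by
  obtain ⟨v, hv, rfl⟩ := hx
  rw [qp_coeff, io_coeff_neg]
  omega

theorem Mon.isUnit {s : ℕ} {x : LaurentSeries ℤ} (hx : Mon s x) : ∃ y, x * y = 1 := by
  obtain ⟨v, hv, rfl⟩ := hx
  have h1 : IsUnit v := by
    rw [PowerSeries.isUnit_iff_constantCoeff, hv]
    exact isUnit_one
  obtain ⟨u, hu⟩ := h1.exists_right_inv
  refine ⟨qp (s : ℤ) * io u, ?_⟩
  have h2 : (io v : LaurentSeries ℤ) * io u = 1 := by rw [← map_mul, hu, map_one]
  linear_combination (io v * io u) * qp_neg_mul (R := ℤ) (s : ℤ) + h2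

theorem cc_z4 : PowerSeries.constantCoeff z4 = 1 := by
  rw [← PowerSeries.coeff_zero_eq_constantCoeff_apply]
  exact coeff0_z4

theorem cc_z6 : PowerSeries.constantCoeff z6 = 1 := by
  rw [← PowerSeries.coeff_zero_eq_constantCoeff_apply]
  exact coeff0_z6

theorem cc_zd : PowerSeries.constantCoeff zd = 1 := zd0

theorem cc_zu : PowerSeries.constantCoeff zu = 1 := by
  have h := congrArg PowerSeries.constantCoeff zd_zu
  rwa [map_mul, cc_zd, one_mul, map_one] at h

theorem Mon_z4 : Mon 0 (io z4) := ⟨z4, cc_z4, by simp [qp_zero]⟩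

theorem Mon_z6 : Mon 0 (io z6) := ⟨z6, cc_z6, by simp [qp_zero]⟩

theorem Mon_Di : Mon 1 Di := ⟨zu, cc_zu, rfl⟩

theorem Mon_jl : Mon 1 jl := by
  have h := (Mon_z4.pow 3).mul Mon_Di
  exact h

theorem Mon_phil (a b m : ℕ) : Mon m (phil a b m) := by
  have h := ((Mon_z4.pow a).mul (Mon_z6.pow b)).mul (Mon_Di.pow m)
  have e : a * 0 + b * 0 + m * 1 = m := by ring
  rw [e] at h
  exact h

theorem int_mul_coeff (c : ℤ) (x : LaurentSeries ℤ) (n : ℤ) :
    ((c : LaurentSeries ℤ) * x).coeff n = c * x.coeff n := by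
  rw [← zsmul_eq_mul, HahnSeries.coeff_smul, smul_eq_mul]

theorem aeval_sum (Q : Polynomial ℤ) (d : ℕ) (hd : Q.natDegree ≤ d) :
    aeval jl Q = ∑ i ∈ Finset.range (d + 1), ((Q.coeff i : ℤ) : LaurentSeries ℤ) * jl ^ i := by
  rw [Polynomial.aeval_def, Polynomial.eval₂_eq_sum_range' _ (Nat.lt_succ_of_le hd)]
  exact Finset.sum_congr rfl fun i _ => by rw [eq_intCast]

/-- the coefficients of a polynomial in `j` times a monic series -/
theorem coeff_top {s : ℕ} {y : LaurentSeries ℤ} (hy : Mon s y) (Q : Polynomial ℤ) (d : ℕ)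
    (hd : Q.natDegree ≤ d) : (y * aeval jl Q).coeff (-((s + d : ℕ) : ℤ)) = Q.coeff d := by
  rw [aeval_sum Q d hd, Finset.mul_sum, HahnSeries.coeff_sum, Finset.sum_eq_single d]
  · rw [mul_left_comm, int_mul_coeff]
    have h := (hy.mul (Mon_jl.pow d)).coeff_self
    rw [mul_one] at h
    rw [h, mul_one]
  · intro i hi hid
    rw [Finset.mem_range] at hi
    rw [mul_left_comm, int_mul_coeff]
    have h := (hy.mul (Mon_jl.pow i)).coeff_lt (n := -((s + d : ℕ) : ℤ)) (by
      rw [mul_one]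
      omega)
    rw [h, mul_zero]
  · intro h
    exact absurd (Finset.mem_range.2 (Nat.lt_succ_self d)) h

/-- saturation -/
theorem dvd_coeff {s : ℕ} {y : LaurentSeries ℤ} (hy : Mon s y) (e : ℤ) (n : ℕ) :
    ∀ Q : Polynomial ℤ, Q.natDegree < n → (∃ z, y * aeval jl Q = (e : LaurentSeries ℤ) * z) →
      ∀ i, e ∣ Q.coeff i := by
  induction n with
  | zero => exact fun Q h => absurd h (Nat.not_lt_zero _)
  | succ n ih =>
    intro Q hQ ⟨z, hz⟩
    have h1 : e ∣ Q.coeff n := by
      have h2 := coeff_top hy Q n (Nat.lt_succ_iff.1 hQ)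
      rw [hz, int_mul_coeff] at h2
      exact ⟨_, h2.symm⟩
    obtain ⟨c, hc⟩ := h1
    set Q' := Q - Polynomial.C (Q.coeff n) * Polynomial.X ^ n with hQ'
    have hcoef : ∀ i, Q.coeff i = Q'.coeff i + if i = n then Q.coeff n else 0 := by
      intro i
      rw [hQ', Polynomial.coeff_sub, Polynomial.coeff_C_mul_X_pow]
      split_ifs <;> ring
    have hdvd : ∀ i, e ∣ Q'.coeff i := by
      rcases Nat.eq_zero_or_pos n with hn | hn
      · subst hn
        intro i
        have h3 : Q' = 0 := by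
          rw [hQ', pow_zero, mul_one, sub_eq_zero]
          exact Polynomial.eq_C_of_natDegree_eq_zero (by omega)
        rw [h3, Polynomial.coeff_zero]
        exact dvd_zero e
      · refine ih Q' ?_ ⟨z - y * jl ^ n * (c : LaurentSeries ℤ), ?_⟩
        · have h4 : Q'.natDegree ≤ n - 1 := by
            rw [Polynomial.natDegree_le_iff_coeff_eq_zero]
            intro i hi
            have h5 := hcoef i
            by_cases hin : i = n
            · subst hin
              rw [if_pos rfl] at h5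
              linarith
            · rw [if_neg hin, add_zero] at h5
              rw [← h5]
              exact Polynomial.coeff_eq_zero_of_natDegree_lt (by omega)
          omega
        · rw [hQ', map_sub, map_mul, map_pow, Polynomial.aeval_C, Polynomial.aeval_X, hc,
            eq_intCast]
          push_cast
          linear_combination hz
    intro i
    rw [hcoef i]
    refine dvd_add (hdvd i) ?_
    split_ifs
    · exact ⟨c, hc⟩
    · exact dvd_zero e

theorem dvd_eval {s : ℕ} {y : LaurentSeries ℤ} (hy : Mon s y) (e : ℤ) (Q : Polynomial ℤ)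
    (h : ∃ z, y * aeval jl Q = (e : LaurentSeries ℤ) * z) (c : ℤ) : e ∣ Q.eval c := by
  rw [Polynomial.eval_eq_sum_range]
  exact Finset.dvd_sum fun i _ => dvd_mul_of_dvd_left
    (dvd_coeff hy e (Q.natDegree + 1) Q (Nat.lt_succ_self _) h i) _

/-- a polynomial in `j` times `q^(-s) + ⋯`, `s ≥ 1`, without principal part is zero -/
theorem eq_zero_of_coeff {s : ℕ} (hs : 0 < s) {y : LaurentSeries ℤ} (hy : Mon s y)
    (Q : Polynomial ℤ) (h : ∀ n : ℤ, n < 0 → (y * aeval jl Q).coeff n = 0) : Q = 0 := by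
  by_contra hQ
  have h1 := coeff_top hy Q Q.natDegree le_rfl
  rw [h _ (by omega)] at h1
  exact hQ (Polynomial.leadingCoeff_eq_zero.1 h1.symm)

/-- existence of polynomials with given principal part -/
theorem exists_poly {y : LaurentSeries ℤ} (hy : Mon 1 y) (d : ℕ) :
    ∀ x : LaurentSeries ℤ, (∀ n : ℤ, n < -(d : ℤ) → x.coeff n = 0) →
      ∃ P : Polynomial ℤ, ∀ n : ℤ, n < 0 → (y * aeval jl P).coeff n = x.coeff n := by
  induction d with
  | zero =>
    intro x hx
    refine ⟨0, fun n hn => ?_⟩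
    rw [map_zero, mul_zero, HahnSeries.coeff_zero, hx n (by simpa using hn)]
  | succ d ih =>
    intro x hx
    set c := x.coeff (-((d + 1 : ℕ) : ℤ)) with hc
    have hm : Mon (1 + d) (y * jl ^ d) := by
      have h := hy.mul (Mon_jl.pow d)
      rwa [mul_one] at h
    obtain ⟨P, hP⟩ := ih (x - (c : LaurentSeries ℤ) * (y * jl ^ d)) (by
      intro n hn
      rw [HahnSeries.coeff_sub, int_mul_coeff]
      by_cases h1 : n = -((d + 1 : ℕ) : ℤ)
      · have h2 := hm.coeff_self
        rw [show (-((1 + d : ℕ) : ℤ)) = n by rw [h1]; push_cast; ring] at h2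
        rw [h2, h1, ← hc]
        ring
      · rw [hx n (by push_cast at h1 ⊢; omega), hm.coeff_lt (by push_cast at h1 ⊢; omega)]
        ring)
    refine ⟨P + Polynomial.C c * Polynomial.X ^ d, fun n hn => ?_⟩
    have h1 := hP n hn
    rw [HahnSeries.coeff_sub] at h1
    rw [map_add, map_mul, map_pow, Polynomial.aeval_C, Polynomial.aeval_X, eq_intCast, mul_add,
      HahnSeries.coeff_add, h1, mul_left_comm]
    ring

/-- the polynomial `P_m`: `E_r / Δ * P_m(j) = q^(-m) + O(1)`, `E_r = E_4^a E_6^b` -/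
def Pm (a b m : ℕ) : Polynomial ℤ :=
  Classical.choose (exists_poly (Mon_phil a b 1) m (qp (-(m : ℤ))) (by
    intro n hn
    have h := qp_coeff (R := ℤ) (-(m : ℤ)) n 1
    rw [mul_one] at h
    rw [h, HahnSeries.coeff_one, if_neg]
    omega))

/-- `f_m = q^(-m) + O(1)` -/
def fm (a b m : ℕ) : LaurentSeries ℤ := phil a b 1 * aeval jl (Pm a b m)

theorem fm_coeff (a b m : ℕ) (n : ℤ) (hn : n < 0) :
    (fm a b m).coeff n = if n = -(m : ℤ) then 1 else 0 := by
  have h := Classical.choose_spec (exists_poly (Mon_phil a b 1) m (qp (-(m : ℤ))) (by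
    intro n hn
    have h := qp_coeff (R := ℤ) (-(m : ℤ)) n 1
    rw [mul_one] at h
    rw [h, HahnSeries.coeff_one, if_neg]
    omega)) n hn
  have h2 := qp_coeff (R := ℤ) (-(m : ℤ)) n 1
  rw [mul_one, HahnSeries.coeff_one] at h2
  unfold fm Pm
  rw [h, h2]
  congr 1
  apply propext
  omega

section hecke

variable {p : ℕ} [hp : Fact p.Prime] {a b w : ℕ}

theorem int_dvd_coeff_zero (x : LaurentSeries ℤ) : x = 0 ↔ ∀ n, x.coeff n = 0 := by
  constructor
  · rintro rfl n
    exact HahnSeries.coeff_zero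
  · intro h
    ext n
    rw [h n, HahnSeries.coeff_zero]

/-- the action of the Hecke operator on `f_m` -/
theorem hecke_fm (hab : 4 * a + 6 * b < 12) (hw : 4 * a + 6 * b + w = 12) (m : ℕ) (hm : 0 < m) :
    V p (fm a b m) + (p : LaurentSeries ℤ) ^ (w + 1) * U p (fm a b m) =
      fm a b (p * m) + (p : LaurentSeries ℤ) ^ (w + 1) *
        (if p ∣ m then fm a b (m / p) else 0) := by
  have hF1 : HL (fun τ => phi a b 1 τ * aeval (jf τ) (Pm a b m)) (fm a b m) :=
    (HL_phi a b 1).mul (HL_aeval HL_j _)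
  have hF2 : Mv w (fun τ => phi a b 1 τ * aeval (jf τ) (Pm a b m)) := by
    have h := (Mv_phi (a := a) (b := b) (m := 1) (w := w) (by omega)).mul
      (Mv_aeval Mv_j (Pm a b m))
    rwa [add_zero] at h
  obtain ⟨G, -, hG⟩ := struct_neg (a := a) (b := b) (m := 1) hab (by omega)
    (HL_Tp (p := p) (w := w) hF1) (Mv_Tp (p := p) hF1 hF2)
  set Q : Polynomial ℤ := if p ∣ m then Pm a b (m / p) else 0 with hQ
  have hQ2 : (if p ∣ m then fm a b (m / p) else 0) = phil a b 1 * aeval jl Q := by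
    rw [hQ]
    split_ifs
    · rfl
    · rw [map_zero, mul_zero]
  have key : G - Pm a b (p * m) - Polynomial.C ((p : ℤ) ^ (w + 1)) * Q = 0 := by
    refine eq_zero_of_coeff Nat.one_pos (Mon_phil a b 1) _ fun n hn => ?_
    have e1 : phil a b 1 * aeval jl (G - Pm a b (p * m) - Polynomial.C ((p : ℤ) ^ (w + 1)) * Q) =
        (V p (fm a b m) + (((p : ℤ) ^ (w + 1) : ℤ) : LaurentSeries ℤ) * U p (fm a b m)) -
          fm a b (p * m) - (((p : ℤ) ^ (w + 1) : ℤ) : LaurentSeries ℤ) *
            (if p ∣ m then fm a b (m / p) else 0) := by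
      rw [map_sub, map_sub, map_mul, Polynomial.aeval_C, hQ2, eq_intCast]
      push_cast
      rw [hG]
      unfold fm
      ring
    rw [e1, HahnSeries.coeff_sub, HahnSeries.coeff_sub, HahnSeries.coeff_add, int_mul_coeff,
      int_mul_coeff, V_coeff, U_coeff, fm_coeff a b (p * m) n hn]
    have hpz := pz p
    have h1 : (if (p : ℤ) ∣ n then (fm a b m).coeff (n / p) else 0) =
        if n = -((p * m : ℕ) : ℤ) then 1 else 0 := by
      by_cases hd : (p : ℤ) ∣ n
      · obtain ⟨k, rfl⟩ := hd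
        rw [if_pos (dvd_mul_right _ _), Int.mul_ediv_cancel_left _ hpz.ne',
          fm_coeff a b m k (by
            by_contra h
            exact absurd hn (not_lt.2 (mul_nonneg hpz.le (not_lt.1 h))))]
        by_cases hk : k = -(m : ℤ)
        · rw [if_pos hk, if_pos (by rw [hk]; push_cast; ring)]
        · rw [if_neg hk, if_neg]
          intro h
          apply hk
          apply mul_left_cancel₀ hpz.ne'
          rw [h]
          push_cast
          ring
      · rw [if_neg hd, if_neg]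
        rintro rfl
        apply hd
        push_cast
        exact (dvd_mul_right _ _).neg_right
    have h2 : (fm a b m).coeff (p * n) =
        (if p ∣ m then fm a b (m / p) else 0 : LaurentSeries ℤ).coeff n := by
      rw [fm_coeff a b m _ (mul_neg_of_pos_of_neg hpz hn)]
      by_cases hd : p ∣ m
      · obtain ⟨k, rfl⟩ := hd
        rw [if_pos (dvd_mul_right _ _), Nat.mul_div_cancel_left _ hp.out.pos,
          fm_coeff a b k n hn]
        by_cases hk : n = -(k : ℤ)
        · rw [if_pos hk, if_pos (by rw [hk]; push_cast; ring)]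
        · rw [if_neg hk, if_neg]
          intro h
          apply hk
          apply mul_left_cancel₀ hpz.ne'
          rw [h]
          push_cast
          ring
      · rw [if_neg hd, HahnSeries.coeff_zero, if_neg]
        intro h
        apply hd
        have h3 : (p : ℤ) ∣ (m : ℤ) := ⟨-n, by linarith⟩
        exact_mod_cast h3
    rw [h1, h2]
    ring
  have h3 : G = Pm a b (p * m) + Polynomial.C ((p : ℤ) ^ (w + 1)) * Q := by
    linear_combination key
  rw [hG, h3, map_add, map_mul, Polynomial.aeval_C, hQ2, eq_intCast]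
  unfold fm
  push_cast
  ring

/-- `f_(pm) ≡ V f_m` modulo a high power of `p` -/
theorem fm_congr (hab : 4 * a + 6 * b < 12) (hw : 4 * a + 6 * b + w = 12) (t : ℕ) :
    ∀ m : ℕ, 0 < m → p ^ t ∣ m → ∃ z : LaurentSeries ℤ,
      fm a b (p * m) = V p (fm a b m) + (p : LaurentSeries ℤ) ^ ((w + 1) * (t + 1)) * z := by
  induction t with
  | zero =>
    intro m hm _
    have h := hecke_fm (p := p) hab hw m hm
    refine ⟨U p (fm a b m) - (if p ∣ m then fm a b (m / p) else 0), ?_⟩
    rw [zero_add, mul_one]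
    linear_combination -h
  | succ t ih =>
    intro m hm ht
    have h := hecke_fm (p := p) hab hw m hm
    have hpm : p ∣ m := (dvd_pow_self p (Nat.succ_ne_zero t)).trans ht
    obtain ⟨m', rfl⟩ := hpm
    have hm' : 0 < m' := Nat.pos_of_mul_pos_left hm
    have ht' : p ^ t ∣ m' := by
      rw [pow_succ'] at ht
      exact Nat.dvd_of_mul_dvd_mul_left hp.out.pos ht
    obtain ⟨z, hz⟩ := ih m' hm' ht'
    rw [if_pos (dvd_mul_right _ _), Nat.mul_div_cancel_left _ hp.out.pos] at h
    have h2 : U p (fm a b (p * m')) = fm a b m' +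
        (p : LaurentSeries ℤ) ^ ((w + 1) * (t + 1)) * U p z := by
      rw [hz, map_add, U_V]
      congr 1
      have h3 := U_int_mul (R := ℤ) p ((p : ℤ) ^ ((w + 1) * (t + 1))) z
      push_cast at h3
      exact h3
    refine ⟨U p z, ?_⟩
    have e : (p : LaurentSeries ℤ) ^ ((w + 1) * (t + 1 + 1)) =
        (p : LaurentSeries ℤ) ^ (w + 1) * (p : LaurentSeries ℤ) ^ ((w + 1) * (t + 1)) := by
      rw [← pow_add]
      congr 1
      ring
    rw [e]
    linear_combination -h + (p : LaurentSeries ℤ) ^ (w + 1) * h2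

/-- the data of the Hecke operator on `f_m Δ^(-M)` and `Δ^(-M)`, and the congruence for `P_(pm)` -/
theorem poly_congr (hab : 4 * a + 6 * b < 12) (hw : 4 * a + 6 * b + w = 12) (t m M : ℕ)
    (hm : 0 < m) (ht : p ^ t ∣ m) (hM : (w + 1) * (t + 1) ≤ 12 * M + 1) :
    ∃ G H : Polynomial ℤ,
      (∀ τ, Tp p (w + 12 * M) (fun τ => phi a b (M + 1) τ * aeval (jf τ) (Pm a b m)) τ =
        phi a b (M + 1) τ * aeval (jf τ) G) ∧
      (∀ τ, Tp p (12 * M) (phi 0 0 M) τ = phi 0 0 M τ * aeval (jf τ) H) ∧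
      ∀ c : ℤ, (p : ℤ) ^ ((w + 1) * (t + 1)) ∣ (Pm a b (p * m)).eval c * H.eval c - G.eval c := by
  have hF1 : HL (fun τ => phi a b (M + 1) τ * aeval (jf τ) (Pm a b m))
      (phil a b (M + 1) * aeval jl (Pm a b m)) :=
    (HL_phi a b (M + 1)).mul (HL_aeval HL_j _)
  have hF2 : Mv (w + 12 * M) (fun τ => phi a b (M + 1) τ * aeval (jf τ) (Pm a b m)) := by
    have h := (Mv_phi (a := a) (b := b) (m := M + 1) (w := w + 12 * M) (by omega)).mul
      (Mv_aeval Mv_j (Pm a b m))
    rwa [add_zero] at h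
  obtain ⟨G, hG1, hG2⟩ := struct_neg (a := a) (b := b) (m := M + 1) hab (by omega)
    (HL_Tp (p := p) (w := w + 12 * M) hF1) (Mv_Tp (p := p) hF1 hF2)
  have hE2 : Mv (12 * M) (phi 0 0 M) := Mv_phi (by omega)
  obtain ⟨H, hH1, hH2⟩ := struct_neg (a := 0) (b := 0) (m := M) (by omega) (by omega)
    (HL_Tp (p := p) (w := 12 * M) (HL_phi 0 0 M)) (Mv_Tp (p := p) (HL_phi 0 0 M) hE2)
  refine ⟨G, H, hG1, hH1, fun c => ?_⟩
  obtain ⟨z, hz⟩ := fm_congr (p := p) hab hw t m hm ht
  have e0 : phil a b (M + 1) = phil a b 1 * Di ^ M := by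
    unfold phil
    rw [pow_succ, pow_one]
    ring
  have e1 : phil 0 0 M = Di ^ M := by
    unfold phil
    rw [pow_zero, pow_zero, one_mul, one_mul]
  have e2 : phil a b (M + 1) * aeval jl (Pm a b m) = fm a b m * Di ^ M := by
    rw [e0]
    unfold fm
    ring
  rw [e2, map_mul] at hG2
  rw [e1] at hH2
  have hD : Dl ^ M * Di ^ M = 1 := by rw [← mul_pow, Dl_Di, one_pow]
  obtain ⟨r, hr⟩ : ∃ r, 12 * M + 1 = (w + 1) * (t + 1) + r := Nat.exists_eq_add_of_le hM
  have e3 : (p : LaurentSeries ℤ) ^ (12 * M + 1) =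
      (p : LaurentSeries ℤ) ^ ((w + 1) * (t + 1)) * (p : LaurentSeries ℤ) ^ r := by
    rw [hr, pow_add]
  have e4 : (p : LaurentSeries ℤ) ^ (w + 12 * M + 1) =
      (p : LaurentSeries ℤ) ^ ((w + 1) * (t + 1)) * (p : LaurentSeries ℤ) ^ r *
        (p : LaurentSeries ℤ) ^ w := by
    rw [← e3, ← pow_add]
    congr 1
    ring
  rw [e4] at hG2
  rw [e3] at hH2
  have h := dvd_eval (Mon_phil a b 1) ((p : ℤ) ^ ((w + 1) * (t + 1)))
    (Pm a b (p * m) * H - G) ⟨z * aeval jl H + Dl ^ M * (V p (fm a b m) *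
      (p : LaurentSeries ℤ) ^ r * U p (Di ^ M) - (p : LaurentSeries ℤ) ^ r *
        (p : LaurentSeries ℤ) ^ w * U p (fm a b m * Di ^ M)), ?_⟩ c
  · rwa [Polynomial.eval_sub, Polynomial.eval_mul] at h
  · rw [map_sub, map_mul]
    push_cast
    have h1 : phil a b 1 * aeval jl (Pm a b (p * m)) = fm a b (p * m) := rfl
    have h2 : phil a b 1 * aeval jl G = Dl ^ M * (phil a b (M + 1) * aeval jl G) := by
      rw [e0]
      linear_combination (-(phil a b 1 * aeval jl G)) * hD
    have h3 : aeval jl H = Dl ^ M * (Di ^ M * aeval jl H) := by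
      linear_combination (-(aeval jl H)) * hD
    calc phil a b 1 * (aeval jl (Pm a b (p * m)) * aeval jl H - aeval jl G)
        = fm a b (p * m) * aeval jl H - phil a b 1 * aeval jl G := by rw [← h1]; ring
      _ = (p : LaurentSeries ℤ) ^ ((w + 1) * (t + 1)) * z * aeval jl H +
          (V p (fm a b m) * (Dl ^ M * (Di ^ M * aeval jl H)) -
            Dl ^ M * (phil a b (M + 1) * aeval jl G)) := by
          rw [hz, h2, ← h3]
          ring
      _ = _ := by
          rw [← hG2, ← hH2]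
          ring

end hecke

end Pool.Agent.H501.CM
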