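import Pool.Agent.H501.CM.Alg

/-!
# Duality: the coefficients of `E_k / (j - c)` are the values `P_m(c)`
-/

set_option autoImplicit false

noncomputable section

open UpperHalfPlane hiding I
open ModularForm MatrixGroups Function Complex EisensteinSeries
open PowerSeries (coeff)

namespace Pool.Agent.H501.CM

open Pool.Agent.Q279.SC (fr z2 z4 z6 zD zd q4 q6 qD qd th)
open Pool.Agent.Q237.SX
open Polynomial (aeval)

/-- `q d/dq` on Laurent series -/
def lth (x : LaurentSeries ℤ) : LaurentSeries ℤ where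
  coeff n := n * x.coeff n
  isPWO_support' := x.isPWO_support.mono (by
    intro n hn h
    apply hn
    simp only
    rw [h, mul_zero])

theorem lth_coeff (x : LaurentSeries ℤ) (n : ℤ) : (lth x).coeff n = n * x.coeff n := rfl

theorem lth_support (x : LaurentSeries ℤ) : (lth x).support ⊆ x.support := by
  intro n hn h
  apply hn
  rw [lth_coeff, h, mul_zero]

theorem lth_mul (x y : LaurentSeries ℤ) : lth (x * y) = lth x * y + x * lth y := by
  ext n
  rw [lth_coeff, HahnSeries.coeff_add, HahnSeries.coeff_mul,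
    HahnSeries.coeff_mul_left' x.isPWO_support (lth_support x),
    HahnSeries.coeff_mul_right' y.isPWO_support (lth_support y), Finset.mul_sum,
    ← Finset.sum_add_distrib]
  refine Finset.sum_congr rfl fun ij hij => ?_
  rw [lth_coeff, lth_coeff]
  have h := (Finset.mem_antidiagonal.1 hij).2.2
  rw [← h]
  push_cast
  ring

theorem lth_add (x y : LaurentSeries ℤ) : lth (x + y) = lth x + lth y := by
  ext n
  rw [lth_coeff, HahnSeries.coeff_add, HahnSeries.coeff_add, lth_coeff, lth_coeff]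
  ring

theorem lth_one : lth 1 = 0 := by
  ext n
  rw [lth_coeff, HahnSeries.coeff_one, HahnSeries.coeff_zero]
  split_ifs with h
  · rw [h]
    simp
  · rw [mul_zero]

theorem lth_pow_succ (x : LaurentSeries ℤ) (n : ℕ) :
    lth (x ^ (n + 1)) = ((n + 1 : ℕ) : LaurentSeries ℤ) * (lth x * x ^ n) := by
  induction n with
  | zero => simp
  | succ n ih =>
    rw [pow_succ, lth_mul, ih, pow_succ]
    push_cast
    ring

theorem lth_io (f : PowerSeries ℤ) : lth (io f) = io (th f) := by
  ext n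
  rw [lth_coeff]
  rcases lt_or_ge n 0 with h | h
  · rw [io_coeff_neg _ _ h, io_coeff_neg _ _ h, mul_zero]
  · obtain ⟨m, rfl⟩ := Int.eq_ofNat_of_zero_le h
    rw [io_coeff, io_coeff]
    unfold th
    rw [PowerSeries.coeff_mk]

theorem lth_Dl : lth Dl = io z2 * Dl := by
  unfold Dl
  rw [lth_io, z_thD, map_mul]

/-- `θ j = - E₄² E₆ / Δ` -/
theorem lth_jl : lth jl = -(io z4 ^ 2 * io z6 * Di) := by
  have h1 := congrArg lth jl_Dl
  rw [lth_mul, lth_Dl, lth_pow_succ, lth_io] at h1
  have h2 := congrArg (io : PowerSeries ℤ → LaurentSeries ℤ) z_th4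
  rw [map_mul, map_sub, map_mul, map_ofNat] at h2
  have h3 := Dl_Di
  have h4 := jl_Dl
  push_cast at h1
  linear_combination Di * h1 + io z4 ^ 2 * Di * h2 - lth jl * h3 - io z2 * Di * h4

theorem coeff0_lth (x : LaurentSeries ℤ) : (lth x).coeff 0 = 0 := by
  rw [lth_coeff]
  simp

theorem coeff0_lth_jl (Q : Polynomial ℤ) : (lth jl * aeval jl Q).coeff 0 = 0 := by
  rw [aeval_sum Q Q.natDegree le_rfl, Finset.mul_sum, HahnSeries.coeff_sum]
  refine Finset.sum_eq_zero fun i _ => ?_
  rw [mul_left_comm, int_mul_coeff]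
  have h := coeff0_lth (jl ^ (i + 1))
  rw [lth_pow_succ] at h
  have h2 : (((i + 1 : ℕ) : ℤ) : LaurentSeries ℤ) = ((i + 1 : ℕ) : LaurentSeries ℤ) := by
    push_cast
    rfl
  rw [← h2, int_mul_coeff] at h
  have h3 : ((i + 1 : ℕ) : ℤ) ≠ 0 := by positivity
  rw [(mul_eq_zero.1 h).resolve_left h3, mul_zero]

/-- `x` has no terms of negative degree, `y` only terms of positive degree -/
theorem coeff0_mul_pos {x y : LaurentSeries ℤ} (hx : ∀ n : ℤ, n < 0 → x.coeff n = 0)
    (hy : ∀ n : ℤ, n ≤ 0 → y.coeff n = 0) : (x * y).coeff 0 = 0 := by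
  rw [HahnSeries.coeff_mul]
  refine Finset.sum_eq_zero fun ij hij => ?_
  have h := (Finset.mem_antidiagonal.1 hij).2.2
  rcases lt_or_ge ij.1 0 with h1 | h1
  · rw [hx _ h1, zero_mul]
  · rw [hy ij.2 (by omega), mul_zero]

/-- `j - c = q^(-1) + ⋯` -/
theorem Mon_jc (c : ℤ) : Mon 1 (jl - (c : LaurentSeries ℤ)) := by
  obtain ⟨v, hv, hj⟩ := Mon_jl
  refine ⟨v - PowerSeries.X * (c : PowerSeries ℤ), ?_, ?_⟩
  · rw [map_sub, hv, map_mul, PowerSeries.constantCoeff_X, zero_mul, sub_zero]
  · rw [hj, map_sub, map_mul, map_intCast, ← qp_one]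
    have h := qp_neg_mul (R := ℤ) 1
    push_cast
    linear_combination (c : LaurentSeries ℤ) * h

/-- duality -/
theorem duality {a b a' b' : ℕ} (ha : a + a' = 2) (hb : b + b' = 1) (c : ℤ) (F : LaurentSeries ℤ)
    (hF : F * (jl - (c : LaurentSeries ℤ)) = io z4 ^ a' * io z6 ^ b') (m : ℕ) (hm : 0 < m) :
    F.coeff m = (Pm a b m).eval c := by
  obtain ⟨v, hv, hj⟩ := Mon_jc c
  obtain ⟨u, hu⟩ : ∃ u, v * u = 1 := by
    have h1 : IsUnit v := by
      rw [PowerSeries.isUnit_iff_constantCoeff, hv]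
      exact isUnit_one
    exact h1.exists_right_inv
  have hu0 : PowerSeries.constantCoeff u = 1 := by
    have h := congrArg PowerSeries.constantCoeff hu
    rwa [map_mul, hv, one_mul, map_one] at h
  have hu' : (io v : LaurentSeries ℤ) * io u = 1 := by rw [← map_mul, hu, map_one]
  set R : LaurentSeries ℤ := qp 1 * io u with hR
  have hjR : (jl - (c : LaurentSeries ℤ)) * R = 1 := by
    rw [hj, hR]
    have h := qp_neg_mul (R := ℤ) 1
    push_cast
    linear_combination (io v * io u) * h + hu'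
  have hFR : F = io z4 ^ a' * io z6 ^ b' * R := by
    linear_combination R * hF - F * hjR
  -- the coefficients of `F` of index `≤ 0` vanish
  have hF0 : ∀ n : ℤ, n ≤ 0 → F.coeff n = 0 := by
    intro n hn
    have h1 : F = qp 1 * io (z4 ^ a' * z6 ^ b' * u) := by
      rw [hFR, hR, map_mul, map_mul, map_pow, map_pow]
      ring
    rw [h1, qp_coeff, io_coeff_neg]
    omega
  -- first computation
  have h1 : (fm a b m * F).coeff 0 = F.coeff m := by
    have h2 : fm a b m * F = qp (-(m : ℤ)) * F + (fm a b m - qp (-(m : ℤ))) * F := by ring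
    rw [h2, HahnSeries.coeff_add, qp_coeff, coeff0_mul_pos _ hF0, add_zero]
    · congr 1
      omega
    · intro n hn
      have h3 := qp_coeff (R := ℤ) (-(m : ℤ)) n 1
      rw [mul_one] at h3
      rw [HahnSeries.coeff_sub, fm_coeff a b m n hn, h3, HahnSeries.coeff_one]
      have h4 : (n = -(m : ℤ)) ↔ (n - -(m : ℤ) = 0) := by omega
      simp only [h4]
      split_ifs <;> norm_num
  -- second computation
  obtain ⟨Q, hQ⟩ : (Polynomial.X - Polynomial.C c) ∣
      (Pm a b m - Polynomial.C ((Pm a b m).eval c)) := by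
    rw [Polynomial.dvd_iff_isRoot]
    simp
  have hQ2 : aeval jl (Pm a b m) =
      (jl - (c : LaurentSeries ℤ)) * aeval jl Q + (((Pm a b m).eval c : ℤ) : LaurentSeries ℤ) := by
    have h2 := congrArg (aeval jl) hQ
    rw [map_sub, map_mul, map_sub, Polynomial.aeval_X, Polynomial.aeval_C, Polynomial.aeval_C,
      eq_intCast, eq_intCast] at h2
    linear_combination h2
  have h5 : fm a b m * F = -(lth jl * aeval jl Q) +
      (((Pm a b m).eval c : ℤ) : LaurentSeries ℤ) * (-(lth jl) * R) := by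
    have e1 : (io z4 : LaurentSeries ℤ) ^ a * io z6 ^ b * (io z4 ^ a' * io z6 ^ b') =
        io z4 ^ 2 * io z6 := by
      calc (io z4 : LaurentSeries ℤ) ^ a * io z6 ^ b * (io z4 ^ a' * io z6 ^ b')
          = io z4 ^ (a + a') * io z6 ^ (b + b') := by rw [pow_add, pow_add]; ring
        _ = _ := by rw [ha, hb, pow_one]
    have e2 : fm a b m = io z4 ^ a * io z6 ^ b * Di * aeval jl (Pm a b m) := by
      unfold fm phil
      rw [pow_one]
    rw [e2, hQ2, hFR, lth_jl]
    linear_combination (Di * R * ((jl - (c : LaurentSeries ℤ)) * aeval jl Q +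
      (((Pm a b m).eval c : ℤ) : LaurentSeries ℤ))) * e1 +
      (io z4 ^ 2 * io z6 * Di * aeval jl Q) * hjR
  have h6 : (-(lth jl) * R).coeff 0 = 1 := by
    have h7 : -(lth jl) * R = io (z4 ^ 2 * z6 * zu * u) := by
      rw [lth_jl, hR, map_mul, map_mul, map_mul, map_pow]
      unfold Di
      have h := qp_neg_mul (R := ℤ) 1
      linear_combination (io z4 ^ 2 * io z6 * io zu * io u) * h
    have h8 := io_coeff (R := ℤ) (z4 ^ 2 * z6 * zu * u) 0
    rw [Nat.cast_zero] at h8
    rw [h7, h8, PowerSeries.coeff_zero_eq_constantCoeff_apply, map_mul, map_mul, map_mul, map_pow,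
      cc_z4, cc_z6, cc_zu, hu0]
    norm_num
  rw [← h1, h5, HahnSeries.coeff_add, HahnSeries.coeff_neg, coeff0_lth_jl, neg_zero, zero_add,
    int_mul_coeff, h6, mul_one]

end Pool.Agent.H501.CM
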