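import Pool.Agent.H501.CM.Dual

/-!
# The analytic form of the duality
-/

set_option autoImplicit false

noncomputable section

open UpperHalfPlane hiding I
open ModularForm MatrixGroups Function Complex EisensteinSeries
open PowerSeries (coeff)

namespace Pool.Agent.H501.CM

open Pool.Agent.Q279.SC (fr z2 z4 z6 zD zd q4 q6 qD qd th)
open Pool.Agent.Q237.SX
open Polynomial (aeval)

/-- the function `F` is the sum of the `q`-series `a` on `im τ > Y` -/
def HY (Y : ℝ) (F : ℍ → ℂ) (a : PowerSeries ℂ) : Prop :=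
  ∀ τ : ℍ, Y < τ.im → HasSum (fun m => a.coeff m • Function.Periodic.qParam 1 τ ^ m) (F τ)

theorem HY.of_HQ {F : ℍ → ℂ} {a : PowerSeries ℂ} (h : HQ F a) (Y : ℝ) : HY Y F a :=
  fun τ _ => h τ

theorem HY.mul {Y : ℝ} {F G : ℍ → ℂ} {a b : PowerSeries ℂ} (ha : HY Y F a) (hb : HY Y G b) :
    HY Y (fun τ => F τ * G τ) (a * b) := by
  intro τ hτ
  have h1 := (ha τ hτ).summable.norm
  have h2 := (hb τ hτ).summable.norm
  have h3 := summable_norm_sum_mul_antidiagonal_of_summable_norm h1 h2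
  have h4 := tsum_mul_tsum_eq_tsum_sum_antidiagonal_of_summable_norm h1 h2
  rw [(ha τ hτ).tsum_eq, (hb τ hτ).tsum_eq] at h4
  change HasSum _ (F τ * G τ)
  rw [h4]
  have h5 : (fun m => (a * b).coeff m • Function.Periodic.qParam 1 τ ^ m) = fun n =>
      ∑ kl ∈ Finset.HasAntidiagonal.antidiagonal n,
        a.coeff kl.1 • Function.Periodic.qParam 1 τ ^ kl.1 *
        b.coeff kl.2 • Function.Periodic.qParam 1 τ ^ kl.2 := by
    funext n
    rw [PowerSeries.coeff_mul, smul_eq_mul, Finset.sum_mul]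
    refine Finset.sum_congr rfl fun kl hkl => ?_
    rw [Finset.HasAntidiagonal.mem_antidiagonal] at hkl
    rw [← hkl, pow_add, smul_eq_mul, smul_eq_mul]
    ring
  rw [h5]
  exact h3.of_norm.hasSum

/-- translation by `i t` -/
def shift (t : ℝ) (ht : 0 ≤ t) (τ : ℍ) : ℍ := ⟨(τ : ℂ) + t * I, by
  have := τ.im_pos
  simp
  change 0 < τ.im + t
  linarith⟩

theorem coe_shift (t : ℝ) (ht : 0 ≤ t) (τ : ℍ) : ((shift t ht τ : ℍ) : ℂ) = τ + t * I := rfl

theorem im_shift (t : ℝ) (ht : 0 ≤ t) (τ : ℍ) : (shift t ht τ).im = τ.im + t := by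
  change ((shift t ht τ : ℍ) : ℂ).im = _
  rw [coe_shift]
  simp

theorem qParam_shift (t : ℝ) (ht : 0 ≤ t) (τ : ℍ) :
    Function.Periodic.qParam 1 (shift t ht τ) =
      Complex.exp (-2 * Real.pi * t) * Function.Periodic.qParam 1 τ := by
  unfold Function.Periodic.qParam
  rw [coe_shift, ← Complex.exp_add]
  congr 1
  push_cast
  have := Complex.I_sq
  linear_combination (2 * Real.pi * t) * this

theorem HY.unique {Y : ℝ} {F : ℍ → ℂ} {a b : PowerSeries ℂ} (ha : HY Y F a) (hb : HY Y F b) :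
    a = b := by
  set t := max Y 0 with ht
  have ht0 : 0 ≤ t := le_max_right _ _
  set e := Complex.exp (-2 * Real.pi * t) with he
  have key : ∀ c : PowerSeries ℂ, HY Y F c →
      HQ (fun τ => F (shift t ht0 τ)) (PowerSeries.mk fun m => c.coeff m * e ^ m) := by
    intro c hc τ
    have h := hc (shift t ht0 τ) (by
      rw [im_shift]
      have := τ.im_pos
      have := le_max_left Y 0
      linarith)
    have h2 : (fun m => (PowerSeries.mk fun m => c.coeff m * e ^ m).coeff m •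
        Function.Periodic.qParam 1 (τ : ℂ) ^ m) =
        fun m => c.coeff m • Function.Periodic.qParam 1 (shift t ht0 τ) ^ m := by
      funext m
      rw [PowerSeries.coeff_mk, qParam_shift, mul_pow, smul_eq_mul, smul_eq_mul, mul_assoc]
    rw [h2]
    exact h
  have h := (key a ha).unique (key b hb)
  ext m
  have h1 := congrArg (coeff m) h
  rw [PowerSeries.coeff_mk, PowerSeries.coeff_mk] at h1
  exact mul_right_cancel₀ (pow_ne_zero m (Complex.exp_ne_zero _)) h1

theorem E_eq (k a b : ℕ) (hk : 3 ≤ k) (hk2 : Even k) (hab : 4 * a + 6 * b = k)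
    (hr : (if k ≡ 2 [MOD 12] then k / 12 else k / 12 + 1) = 1) :
    HQ (E hk) (mC (z4 ^ a * z6 ^ b)) := by
  have h1 : Module.rank ℂ (ModularForm 𝒮ℒ (k : ℤ)) = ((1 : ℕ) : Cardinal) := by
    rw [ModularForm.dimension_level_one k hk2]
    split_ifs at hr ⊢ with h
    · rw [hr]
    · rw [hr]
  have h2 : Module.finrank ℂ (ModularForm 𝒮ℒ (k : ℤ)) = 1 := Module.finrank_eq_of_rank_eq h1
  obtain ⟨c, hc⟩ := exists_smul_eq_of_finrank_eq_one h2 (EisensteinSeries.E_ne_zero hk hk2)
    (mf a b k hab)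
  have h3 : HQ (mf a b k hab) (mC (z4 ^ a * z6 ^ b)) := by
    rw [map_mul, map_pow, map_pow]
    exact ((hq4.pow a).mul (hq6.pow b)).congr fun τ => (mf_apply a b k _ τ).symm
  have h4 : HQ (mf a b k hab) (PowerSeries.C c * qExpansion 1 (E hk)) := by
    rw [← hc]
    exact ((HQ.of_mf (E hk)).smul c).congr fun τ => rfl
  have h5 := h3.unique h4
  have h6 := congrArg (coeff 0) h5
  rw [PowerSeries.coeff_C_mul, EisensteinSeries.E_qExpansion_coeff_zero hk hk2, mul_one,
    PowerSeries.coeff_map, PowerSeries.coeff_zero_eq_constantCoeff_apply, map_mul, map_pow,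
    map_pow, cc_z4, cc_z6, one_pow, one_pow, mul_one, map_one] at h6
  rw [h5, ← h6, map_one, one_mul]
  exact HQ.of_mf (E hk)

theorem jf_D' (τ : ℍ) : jf τ * ModularForm.discriminant τ = E₄ τ ^ 3 := jf_D τ

/-- from the analytic expansion of `E_k / (j - c)` to the formal one -/
theorem formal_of_analytic {k a' b' : ℕ} (hk : 3 ≤ k) (hE : HQ (E hk) (mC (z4 ^ a' * z6 ^ b')))
    (c : ℤ) (A : ℕ → ℤ) (Y : ℝ)
    (hne : ∀ τ : ℍ, Y < τ.im → jf τ - c ≠ 0)
    (hA : ∀ τ : ℍ, Y < τ.im → HasSum (fun n : ℕ => (A n : ℂ) * Complex.exp (2 * Real.pi * I * τ) ^ n)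
      (E hk τ / (jf τ - c))) :
    io (PowerSeries.mk A) * (jl - (c : LaurentSeries ℤ)) = io z4 ^ a' * io z6 ^ b' := by
  have h1 : HY Y (fun τ => E hk τ / (jf τ - c)) (mC (PowerSeries.mk A)) := by
    intro τ hτ
    have h := hA τ hτ
    have h2 : (fun m => (mC (PowerSeries.mk A)).coeff m •
        Function.Periodic.qParam 1 (τ : ℂ) ^ m) =
        fun n : ℕ => (A n : ℂ) * Complex.exp (2 * Real.pi * I * τ) ^ n := by
      funext m
      rw [PowerSeries.coeff_map, PowerSeries.coeff_mk, smul_eq_mul]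
      unfold Function.Periodic.qParam
      rw [Complex.ofReal_one, div_one]
      rfl
    rw [h2]
    exact h
  have h2 : HQ (fun τ => (jf τ - c) * ModularForm.discriminant τ)
      (mC (z4 ^ 3 - (c : PowerSeries ℤ) * zD)) := by
    have h3 := (hq4.pow 3).sub (hqD.smul (c : ℂ))
    have e : q4 ℂ ^ 3 - PowerSeries.C (c : ℂ) * qD ℂ = mC (z4 ^ 3 - (c : PowerSeries ℤ) * zD) := by
      have h4 : (PowerSeries.C (c : ℂ) : PowerSeries ℂ) = (c : PowerSeries ℂ) :=
        map_intCast PowerSeries.C c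
      have h5 : mC (c : PowerSeries ℤ) = (c : PowerSeries ℂ) := map_intCast mC c
      rw [map_sub, map_mul, map_pow, h4, h5]
      rfl
    rw [e] at h3
    refine h3.congr fun τ => ?_
    rw [sub_mul, jf_D]
  have h3 : HY Y (fun τ => E hk τ * ModularForm.discriminant τ)
      (mC (PowerSeries.mk A * (z4 ^ 3 - (c : PowerSeries ℤ) * zD))) := by
    rw [map_mul]
    intro τ hτ
    have h := (h1.mul (HY.of_HQ h2 Y)) τ hτ
    have e : E hk τ / (jf τ - c) * ((jf τ - c) * ModularForm.discriminant τ) =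
        E hk τ * ModularForm.discriminant τ := by
      have := hne τ hτ
      field_simp
    simp only at h
    rw [e] at h
    exact h
  have h4 : HY Y (fun τ => E hk τ * ModularForm.discriminant τ)
      (mC (z4 ^ a' * z6 ^ b' * zD)) := by
    rw [map_mul]
    exact HY.of_HQ (hE.mul hqD) Y
  have h5 : PowerSeries.mk A * (z4 ^ 3 - (c : PowerSeries ℤ) * zD) = z4 ^ a' * z6 ^ b' * zD :=
    Pool.Agent.Q237.SX.map_inj (h3.unique h4)
  have h6 := congrArg (io : PowerSeries ℤ → LaurentSeries ℤ) h5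
  rw [map_mul, map_sub, map_mul, map_mul, map_mul, map_pow, map_pow, map_pow, map_intCast] at h6
  have h7 : (io zD : LaurentSeries ℤ) = Dl := rfl
  rw [h7] at h6
  have h8 := jl_Dl
  have h9 := Dl_Di
  linear_combination Di * h6 + (io z4 ^ a' * io z6 ^ b') * h9 +
    io (PowerSeries.mk A) * Di * h8 - io (PowerSeries.mk A) * (jl - (c : LaurentSeries ℤ)) * h9

/-- the five weights -/
theorem five (k : ℕ) (hk : k = 4 ∨ k = 6 ∨ k = 8 ∨ k = 10 ∨ k = 14) :
    ∃ a b a' b' : ℕ, a + a' = 2 ∧ b + b' = 1 ∧ 4 * a + 6 * b < 12 ∧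
      4 * a + 6 * b + (k - 2) = 12 ∧ 4 * a' + 6 * b' = k ∧
      ∀ hk' : 3 ≤ k, HQ (E hk') (mC (z4 ^ a' * z6 ^ b')) := by
  rcases hk with rfl | rfl | rfl | rfl | rfl
  · exact ⟨1, 1, 1, 0, by norm_num, by norm_num, by norm_num, by norm_num, by norm_num,
      fun hk' => E_eq 4 1 0 hk' (by decide) (by norm_num) (by decide)⟩
  · exact ⟨2, 0, 0, 1, by norm_num, by norm_num, by norm_num, by norm_num, by norm_num,
      fun hk' => E_eq 6 0 1 hk' (by decide) (by norm_num) (by decide)⟩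
  · exact ⟨0, 1, 2, 0, by norm_num, by norm_num, by norm_num, by norm_num, by norm_num,
      fun hk' => E_eq 8 2 0 hk' (by decide) (by norm_num) (by decide)⟩
  · exact ⟨1, 0, 1, 1, by norm_num, by norm_num, by norm_num, by norm_num, by norm_num,
      fun hk' => E_eq 10 1 1 hk' (by decide) (by norm_num) (by decide)⟩
  · exact ⟨0, 0, 2, 1, by norm_num, by norm_num, by norm_num, by norm_num, by norm_num,
      fun hk' => E_eq 14 2 1 hk' (by decide) (by norm_num) (by decide)⟩

end Pool.Agent.H501.CM
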