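import Pool.Agent.H501.CM.Pt

/-!
# Evaluation at a point with integral `j`-invariant
-/

set_option autoImplicit false

noncomputable section

open UpperHalfPlane hiding I
open ModularForm MatrixGroups Function Complex EisensteinSeries

namespace Pool.Agent.H501.CM

open Pool.Agent.Q237.SX
open Pool.Agent.Q279.SC (z4 z6 zD)
open Polynomial (aeval)

variable {p : ℕ} [hp : Fact p.Prime]

/-- the Hecke operator on `Δ^(-M)` -/
theorem hecke_D (p : ℕ) [Fact p.Prime] (M : ℕ) : ∃ H : Polynomial ℤ,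
    (∀ τ, Tp p (12 * M) (phi 0 0 M) τ = phi 0 0 M τ * aeval (jf τ) H) ∧
      V p (Di ^ M) + (p : LaurentSeries ℤ) ^ (12 * M + 1) * U p (Di ^ M) =
        Di ^ M * aeval jl H := by
  have hE2 : Mv (12 * M) (phi 0 0 M) := Mv_phi (by omega)
  obtain ⟨H, hH1, hH2⟩ := struct_neg (a := 0) (b := 0) (m := M) (by omega) (by omega)
    (HL_Tp (p := p) (w := 12 * M) (HL_phi 0 0 M)) (Mv_Tp (p := p) (HL_phi 0 0 M) hE2)
  have e1 : phil 0 0 M = Di ^ M := by
    unfold phil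
    rw [pow_zero, pow_zero, one_mul, one_mul]
  rw [e1] at hH2
  exact ⟨H, hH1, hH2⟩

theorem aeval_int (x : ℂ) (c : ℤ) (hx : x = c) (G : Polynomial ℤ) :
    aeval x G = ((G.eval c : ℤ) : ℂ) := by
  have h := Polynomial.aeval_algebraMap_apply ℂ c G
  have h2 : (algebraMap ℤ ℂ) c = x := by rw [hx]; rfl
  rw [h2] at h
  rw [h, Polynomial.coe_aeval_eq_eval]
  rfl

/-- `p`-adic near-multiplicativity of the power sums -/
theorem hecke_DD (M : ℕ) : ∃ H H₂ : Polynomial ℤ,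
    (∀ τ, Tp p (12 * M) (phi 0 0 M) τ = phi 0 0 M τ * aeval (jf τ) H) ∧
    (∀ τ, Tp p (12 * (2 * M)) (phi 0 0 (2 * M)) τ = phi 0 0 (2 * M) τ * aeval (jf τ) H₂) ∧
    ∀ c : ℤ, (p : ℤ) ^ (12 * M + 1) ∣ H.eval c ^ 2 - H₂.eval c := by
  obtain ⟨H, h1, h2⟩ := hecke_D p M
  obtain ⟨H₂, h3, h4⟩ := hecke_D p (2 * M)
  refine ⟨H, H₂, h1, h3, fun c => ?_⟩
  have hD : Dl ^ M * Di ^ M = 1 := by rw [← mul_pow, Dl_Di, one_pow]
  have e1 : Di ^ (2 * M) = (Di ^ M) ^ 2 := by rw [← pow_mul, mul_comm]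
  have e2 : (p : LaurentSeries ℤ) ^ (12 * (2 * M) + 1) =
      (p : LaurentSeries ℤ) ^ (12 * M + 1) * (p : LaurentSeries ℤ) ^ (12 * M) := by
    rw [← pow_add]
    congr 1
    ring
  rw [e1, map_pow, e2] at h4
  have h := dvd_eval Mon.one ((p : ℤ) ^ (12 * M + 1)) (H ^ 2 - H₂)
    ⟨(Dl ^ M) ^ 2 * (2 * V p (Di ^ M) * U p (Di ^ M) + (p : LaurentSeries ℤ) ^ (12 * M + 1) *
      U p (Di ^ M) ^ 2 - (p : LaurentSeries ℤ) ^ (12 * M) * U p ((Di ^ M) ^ 2)), ?_⟩ c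
  · rwa [Polynomial.eval_sub, Polynomial.eval_pow] at h
  · rw [map_sub, map_pow, one_mul]
    push_cast
    have h5 : aeval jl H = Dl ^ M * (Di ^ M * aeval jl H) := by
      linear_combination (-(aeval jl H)) * hD
    have h6 : aeval jl H₂ = (Dl ^ M) ^ 2 * ((Di ^ M) ^ 2 * aeval jl H₂) := by
      linear_combination (-(aeval jl H₂) * (Dl ^ M * Di ^ M + 1)) * hD
    rw [h5, h6, ← h2, ← h4]
    ring

section point

variable (p) (α : ℍ)

/-- the ratios for `Δ^(-1)` -/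
def xx (i : ℕ) : ℂ := Sp p i 12 (phi 0 0 1) α / phi 0 0 1 α

/-- the `j`-invariants -/
def jj (i : ℕ) : ℂ := Sp p i 0 jf α

/-- the ratios for `E_r / Δ` -/
def zz (a b w i : ℕ) : ℂ := Sp p i w (phi a b 1) α / phi a b 1 α

variable {p} {α}

theorem phi_ne (M : ℕ) (τ : ℍ) : phi 0 0 M τ ≠ 0 := by
  unfold phi
  rw [pow_zero, pow_zero, one_mul]
  exact div_ne_zero one_ne_zero (pow_ne_zero _ (discriminant_ne_zero τ))

theorem phi_pow (M : ℕ) (τ : ℍ) : phi 0 0 M τ = phi 0 0 1 τ ^ M := by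
  unfold phi
  rw [pow_zero, pow_zero, one_mul, pow_one, div_pow, one_pow]

theorem phi_split (a b M : ℕ) (τ : ℍ) : phi a b (M + 1) τ = phi a b 1 τ * phi 0 0 M τ := by
  unfold phi
  have := discriminant_ne_zero τ
  rw [pow_zero, pow_zero, pow_succ]
  field_simp

theorem sum_xx (M : ℕ) (H : Polynomial ℤ) (c : ℤ) (hc : jf α = c)
    (h : ∀ τ, Tp p (12 * M) (phi 0 0 M) τ = phi 0 0 M τ * aeval (jf τ) H) :
    ∑ i ∈ Finset.range (p + 1), xx p α i ^ M = ((H.eval c : ℤ) : ℂ) := by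
  have h1 := h α
  rw [Tp_eq, aeval_int _ c hc] at h1
  have h2 : ∀ i, Sp p i (12 * M) (phi 0 0 M) α = xx p α i ^ M * phi 0 0 M α := by
    intro i
    have h3 : phi 0 0 M = fun τ => phi 0 0 1 τ ^ M := funext fun τ => phi_pow M τ
    rw [h3, mul_comm 12 M, Sp_pow]
    unfold xx
    simp only
    rw [div_pow, div_mul_cancel₀]
    exact pow_ne_zero _ (phi_ne 1 α)
  simp only [h2] at h1
  rw [← Finset.sum_mul, mul_comm] at h1
  exact mul_left_cancel₀ (phi_ne M α) h1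

theorem sum_xz (a b w m M : ℕ) (G : Polynomial ℤ) (c : ℤ) (hc : jf α = c)
    (hne : phi a b 1 α ≠ 0)
    (h : ∀ τ, Tp p (w + 12 * M) (fun τ => phi a b (M + 1) τ * aeval (jf τ) (Pm a b m)) τ =
        phi a b (M + 1) τ * aeval (jf τ) G) :
    ∑ i ∈ Finset.range (p + 1), xx p α i ^ M * (zz p α a b w i * aeval (jj p α i) (Pm a b m)) =
      ((G.eval c : ℤ) : ℂ) := by
  have h1 := h α
  rw [Tp_eq, aeval_int _ c hc, phi_split] at h1
  have h2 : ∀ i, Sp p i (w + 12 * M) (fun τ => phi a b (M + 1) τ * aeval (jf τ) (Pm a b m)) α =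
      xx p α i ^ M * (zz p α a b w i * aeval (jj p α i) (Pm a b m)) *
        (phi a b 1 α * phi 0 0 M α) := by
    intro i
    have h3 : (fun τ => phi a b (M + 1) τ * aeval (jf τ) (Pm a b m)) = fun τ =>
        (phi a b 1 τ * phi 0 0 1 τ ^ M) * aeval (jf τ) (Pm a b m) := by
      funext τ
      rw [phi_split, phi_pow]
    have h4 : w + 12 * M = (w + M * 12) + 0 := by ring
    rw [h3, h4, Sp_mul i (w + M * 12) 0 (fun τ => phi a b 1 τ * phi 0 0 1 τ ^ M)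
      (fun τ => aeval (jf τ) (Pm a b m)), Sp_mul i w (M * 12) (phi a b 1)
      (fun τ => phi 0 0 1 τ ^ M), Sp_pow, Sp_aeval, phi_pow M]
    unfold xx zz jj
    have h5 := phi_ne 1 α
    rw [div_pow]
    field_simp
  simp only [h2] at h1
  rw [← Finset.sum_mul, mul_comm] at h1
  exact mul_left_cancel₀ (mul_ne_zero hne (phi_ne M α)) h1

theorem sum_jj (s : ℕ) (c : ℤ) (hc : jf α = c) :
    ∃ h : ℤ, ∑ i ∈ Finset.range (p + 1), jj p α i ^ s = (h : ℂ) := by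
  have h1 : Mv 0 (fun τ => jf τ ^ s) := by
    have h := Mv_j.pow s
    rwa [mul_zero] at h
  have h2 : HL (fun τ => jf τ ^ s) (jl ^ s) := HL_j.pow s
  obtain ⟨G, hG, -⟩ := struct_neg (a := 0) (b := 0) (m := 0) (w := 0) (by omega) (by omega)
    (HL_Tp (p := p) (w := 0) h2) (Mv_Tp (p := p) h2 h1)
  have h3 := hG α
  rw [Tp_eq, aeval_int _ c hc] at h3
  refine ⟨G.eval c, ?_⟩
  have h4 : ∀ i, Sp p i 0 (fun τ => jf τ ^ s) α = jj p α i ^ s := by
    intro i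
    have h5 := Sp_pow (p := p) i 0 jf α s
    rwa [mul_zero] at h5
  simp only [h4] at h3
  rw [h3]
  unfold phi
  simp

theorem disc (τ : ℍ) : 1728 * ModularForm.discriminant τ = E₄ τ ^ 3 - E₆ τ ^ 2 := by
  rw [ModularForm.discriminant_eq_E₄_cube_sub_E₆_sq]
  ring

theorem phi12 {a b w : ℕ} (hw : 4 * a + 6 * b + w = 12) (τ : ℍ) :
    phi a b 1 τ ^ 12 = jf τ ^ (4 * a) * (jf τ - 1728) ^ (6 * b) * phi 0 0 1 τ ^ w := by
  have hD := discriminant_ne_zero τ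
  have h4 : E₄ τ ^ 3 = jf τ * ModularForm.discriminant τ := (jf_D τ).symm
  have h6 : E₆ τ ^ 2 = (jf τ - 1728) * ModularForm.discriminant τ := by
    linear_combination h4 + disc τ
  unfold phi
  rw [pow_zero, pow_zero, one_mul, pow_one, div_pow, mul_pow, div_pow, one_pow, ← pow_mul,
    ← pow_mul]
  have e1 : E₄ τ ^ (a * 12) = jf τ ^ (4 * a) * ModularForm.discriminant τ ^ (4 * a) := by
    rw [← mul_pow, ← h4, ← pow_mul]
    congr 1
    ring
  have e2 : E₆ τ ^ (b * 12) = (jf τ - 1728) ^ (6 * b) * ModularForm.discriminant τ ^ (6 * b) := by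
    rw [← mul_pow, ← h6, ← pow_mul]
    congr 1
    ring
  rw [e1, e2]
  have e3 : ModularForm.discriminant τ ^ 12 = ModularForm.discriminant τ ^ (4 * a) *
      ModularForm.discriminant τ ^ (6 * b) * ModularForm.discriminant τ ^ w := by
    rw [← pow_add, ← pow_add, hw]
  rw [e3]
  field_simp

theorem phi_ne' {a b w : ℕ} (hw : 4 * a + 6 * b + w = 12) {τ : ℍ} (h0 : jf τ ≠ 0)
    (h1 : jf τ - 1728 ≠ 0) : phi a b 1 τ ≠ 0 := by
  intro h
  have h2 := phi12 hw τ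
  rw [h, zero_pow (by norm_num)] at h2
  exact mul_ne_zero (mul_ne_zero (pow_ne_zero _ h0) (pow_ne_zero _ h1))
    (pow_ne_zero _ (phi_ne 1 τ)) h2.symm

theorem zz12 {a b w : ℕ} (hw : 4 * a + 6 * b + w = 12) (h0 : jf α ≠ 0) (h1 : jf α - 1728 ≠ 0)
    (i : ℕ) : zz p α a b w i ^ 12 * (jf α ^ (4 * a) * (jf α - 1728) ^ (6 * b)) =
      xx p α i ^ w * (jj p α i ^ (4 * a) * (jj p α i - 1728) ^ (6 * b)) := by
  have h2 := phi12 hw α
  have hne := phi_ne' hw h0 h1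
  have hne1 := phi_ne 1 α
  have h3 : Sp p i w (phi a b 1) α ^ 12 =
      jj p α i ^ (4 * a) * (jj p α i - 1728) ^ (6 * b) * Sp p i 12 (phi 0 0 1) α ^ w := by
    unfold jj Sp
    split_ifs
    · exact phi12 hw _
    · rw [pow_zero, one_mul, mul_pow, phi12 hw, mul_pow, ← pow_mul, ← pow_mul, mul_comm w 12]
      ring
  unfold zz xx
  rw [div_pow, div_pow, h3, h2]
  have h4 : jf α ^ (4 * a) ≠ 0 := pow_ne_zero _ h0
  have h5 : (jf α - 1728) ^ (6 * b) ≠ 0 := pow_ne_zero _ h1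
  field_simp

end point

end Pool.Agent.H501.CM
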