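import Pool.Agent.H501.CM.Final

/-!
# Existence and uniqueness of the expansion of `E_k / (j - c)`
-/

set_option autoImplicit false

noncomputable section

open UpperHalfPlane hiding I
open ModularForm MatrixGroups Function Complex EisensteinSeries Filter Topology
open PowerSeries (coeff)

namespace Pool.Agent.H501.CM

open Pool.Agent.Q279.SC (fr z2 z4 z6 zD zd q4 q6 qD qd th)
open Pool.Agent.Q237.SX
open Polynomial (aeval)

theorem HQ_shift {F : ℍ → ℂ} {a : PowerSeries ℂ} (h : HQ F a) (t : ℝ) (ht : 0 ≤ t) :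
    HQ (fun τ => F (shift t ht τ)) (PowerSeries.rescale (Complex.exp (-2 * Real.pi * t)) a) := by
  intro τ
  have h1 := h (shift t ht τ)
  have h2 : (fun m => (PowerSeries.rescale (Complex.exp (-2 * Real.pi * t)) a).coeff m •
      Function.Periodic.qParam 1 (τ : ℂ) ^ m) =
      fun m => a.coeff m • Function.Periodic.qParam 1 (shift t ht τ) ^ m := by
    funext m
    rw [PowerSeries.coeff_rescale, qParam_shift, mul_pow, smul_eq_mul, smul_eq_mul]
    ring
  rw [h2]
  exact h1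

theorem HY_of_shift {F : ℍ → ℂ} {a : PowerSeries ℂ} (t : ℝ) (ht : 0 ≤ t)
    (h : HQ (fun τ => F (shift t ht τ))
      (PowerSeries.rescale (Complex.exp (-2 * Real.pi * t)) a)) : HY t F a := by
  intro τ hτ
  set τ' : ℍ := ⟨(τ : ℂ) - t * I, by
    simp
    change t < τ.im
    exact hτ⟩ with hτ'
  have h0 : shift t ht τ' = τ := by
    apply UpperHalfPlane.ext
    change ((τ : ℂ) - t * I + t * I) = τ
    ring
  have h1 := h τ'
  have h2 : (fun m => (PowerSeries.rescale (Complex.exp (-2 * Real.pi * t)) a).coeff m •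
      Function.Periodic.qParam 1 (τ' : ℂ) ^ m) =
      fun m => a.coeff m • Function.Periodic.qParam 1 (τ : ℂ) ^ m := by
    funext m
    have h3 := qParam_shift t ht τ'
    rw [h0] at h3
    rw [PowerSeries.coeff_rescale, h3, mul_pow, smul_eq_mul, smul_eq_mul]
    ring
  rw [h2] at h1
  simp only [h0] at h1
  exact h1

theorem HQ_jD (c : ℤ) : HQ (fun τ => (jf τ - c) * ModularForm.discriminant τ)
    (mC (z4 ^ 3 - (c : PowerSeries ℤ) * zD)) := by
  have h3 := (hq4.pow 3).sub (hqD.smul (c : ℂ))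
  have e : q4 ℂ ^ 3 - PowerSeries.C (c : ℂ) * qD ℂ = mC (z4 ^ 3 - (c : PowerSeries ℤ) * zD) := by
    have h4 : (PowerSeries.C (c : ℂ) : PowerSeries ℂ) = (c : PowerSeries ℂ) :=
      map_intCast PowerSeries.C c
    have h5 : mC (c : PowerSeries ℤ) = (c : PowerSeries ℂ) := map_intCast mC c
    rw [map_sub, map_mul, map_pow, h4, h5]
    rfl
  rw [e] at h3
  refine h3.congr fun τ => ?_
  rw [sub_mul, jf_D]

theorem cc_jD (c : ℤ) : PowerSeries.constantCoeff (z4 ^ 3 - (c : PowerSeries ℤ) * zD) = 1 := by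
  rw [map_sub, map_mul, map_pow, cc_z4, zD_X, map_mul, PowerSeries.constantCoeff_X, zero_mul,
    mul_zero, sub_zero, one_pow]

/-- `j - c` has no zeros with large imaginary part -/
theorem exists_far (c : ℤ) : ∃ Y : ℝ, 0 ≤ Y ∧ ∀ τ : ℍ, Y < τ.im → jf τ - c ≠ 0 := by
  have h1 := (HQ_jD c).tendsto
  have h2 : coeff 0 (mC (z4 ^ 3 - (c : PowerSeries ℤ) * zD)) = 1 := by
    rw [PowerSeries.coeff_map, PowerSeries.coeff_zero_eq_constantCoeff_apply, cc_jD, map_one]
  rw [h2] at h1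
  have h3 := h1.eventually_ne one_ne_zero
  obtain ⟨A, hA⟩ := (atImInfty_mem _).1 h3
  refine ⟨max A 0, le_max_right _ _, fun τ hτ h => ?_⟩
  have h4 := hA τ ((le_max_left A 0).trans hτ.le)
  apply h4
  change (jf τ - c) * ModularForm.discriminant τ = 0
  rw [h, zero_mul]

theorem exists_expansion {k a' b' : ℕ} (hk : 3 ≤ k) (hE : HQ (E hk) (mC (z4 ^ a' * z6 ^ b')))
    (c : ℤ) : ∃ (A : ℕ → ℤ) (Y : ℝ), A 0 = 0 ∧ ∀ τ : ℍ, Y < τ.im →
      HasSum (fun n : ℕ => (A n : ℂ) * Complex.exp (2 * Real.pi * I * τ) ^ n)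
        (E hk τ / (jf τ - c)) := by
  obtain ⟨t, ht, hne⟩ := exists_far c
  obtain ⟨W, hW⟩ : ∃ W, (z4 ^ 3 - (c : PowerSeries ℤ) * zD) * W = 1 := by
    have h1 : IsUnit (z4 ^ 3 - (c : PowerSeries ℤ) * zD) := by
      rw [PowerSeries.isUnit_iff_constantCoeff, cc_jD]
      exact isUnit_one
    exact h1.exists_right_inv
  set e := Complex.exp (-2 * Real.pi * (t + 1 : ℝ)) with he
  have ht1 : 0 ≤ t + 1 := by linarith
  have h1 := HQ_shift (HQ_jD c) (t + 1) ht1
  have h2 : ∀ τ : ℍ, (jf (shift (t + 1) ht1 τ) - c) *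
      ModularForm.discriminant (shift (t + 1) ht1 τ) ≠ 0 := by
    intro τ
    refine mul_ne_zero (hne _ ?_) (discriminant_ne_zero _)
    rw [im_shift]
    have := τ.im_pos
    linarith
  have h3 := h1.inv h2 (b := PowerSeries.rescale e (mC W)) (by
    rw [← map_mul, ← map_mul, hW, map_one, map_one])
  have h4 := HQ_shift (hE.mul hqD) (t + 1) ht1
  have h5 := h4.mul h3
  have e1 : PowerSeries.rescale e (mC (z4 ^ a' * z6 ^ b') * qD ℂ) *
      PowerSeries.rescale e (mC W) =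
      PowerSeries.rescale e (mC (z4 ^ a' * z6 ^ b' * zD * W)) := by
    rw [← map_mul, map_mul mC _ W, map_mul mC _ zD]
    rfl
  rw [e1] at h5
  have h6 : HQ (fun τ => (fun τ => E hk τ / (jf τ - c)) (shift (t + 1) ht1 τ))
      (PowerSeries.rescale e (mC (z4 ^ a' * z6 ^ b' * zD * W))) := by
    refine h5.congr fun τ => ?_
    have h7 := h2 τ
    have h8 := discriminant_ne_zero (shift (t + 1) ht1 τ)
    have h9 : jf (shift (t + 1) ht1 τ) - c ≠ 0 := left_ne_zero_of_mul h7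
    simp only
    field_simp
  have h7 := HY_of_shift (F := fun τ => E hk τ / (jf τ - c)) (t + 1) ht1 h6
  refine ⟨fun n => coeff n (z4 ^ a' * z6 ^ b' * zD * W), t + 1, ?_, fun τ hτ => ?_⟩
  · have hz : PowerSeries.constantCoeff zD = 0 := by
      rw [zD_X, map_mul, PowerSeries.constantCoeff_X, zero_mul]
    simp only
    rw [PowerSeries.coeff_zero_eq_constantCoeff_apply, map_mul, map_mul, hz, mul_zero, zero_mul]
  · have h8 := h7 τ hτ
    have h9 : (fun m => (mC (z4 ^ a' * z6 ^ b' * zD * W)).coeff m •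
        Function.Periodic.qParam 1 (τ : ℂ) ^ m) =
        fun n : ℕ => ((coeff n (z4 ^ a' * z6 ^ b' * zD * W) : ℤ) : ℂ) *
          Complex.exp (2 * Real.pi * I * τ) ^ n := by
      funext m
      rw [PowerSeries.coeff_map, smul_eq_mul]
      unfold Function.Periodic.qParam
      rw [Complex.ofReal_one, div_one]
      rfl
    rw [h9] at h8
    exact h8

theorem expansion_unique {F : ℍ → ℂ} {A B : ℕ → ℤ} {Y Y' : ℝ}
    (hA : ∀ τ : ℍ, Y < τ.im →
      HasSum (fun n : ℕ => (A n : ℂ) * Complex.exp (2 * Real.pi * I * τ) ^ n) (F τ))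
    (hB : ∀ τ : ℍ, Y' < τ.im →
      HasSum (fun n : ℕ => (B n : ℂ) * Complex.exp (2 * Real.pi * I * τ) ^ n) (F τ)) :
    A = B := by
  have key : ∀ (C : ℕ → ℤ) (τ : ℍ),
      (fun m => (mC (PowerSeries.mk C)).coeff m • Function.Periodic.qParam 1 (τ : ℂ) ^ m) =
        fun n : ℕ => (C n : ℂ) * Complex.exp (2 * Real.pi * I * τ) ^ n := by
    intro C τ
    funext m
    rw [PowerSeries.coeff_map, PowerSeries.coeff_mk, smul_eq_mul]
    unfold Function.Periodic.qParam
    rw [Complex.ofReal_one, div_one]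
    rfl
  have h1 : HY (max Y Y') F (mC (PowerSeries.mk A)) := by
    intro τ hτ
    rw [key]
    exact hA τ (lt_of_le_of_lt (le_max_left _ _) hτ)
  have h2 : HY (max Y Y') F (mC (PowerSeries.mk B)) := by
    intro τ hτ
    rw [key]
    exact hB τ (lt_of_le_of_lt (le_max_right _ _) hτ)
  have h3 := Pool.Agent.Q237.SX.map_inj (h1.unique h2)
  funext n
  have h4 := congrArg (coeff n) h3
  rwa [PowerSeries.coeff_mk, PowerSeries.coeff_mk] at h4

/-- the value `P_m(c)` as a coefficient -/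
theorem coeff_eq {k a b a' b' : ℕ} (ha : a + a' = 2) (hb : b + b' = 1) (hk : 3 ≤ k)
    (hE : HQ (E hk) (mC (z4 ^ a' * z6 ^ b'))) (c : ℤ) (A : ℕ → ℤ) (Y : ℝ)
    (hA : ∀ τ : ℍ, Y < τ.im →
      HasSum (fun n : ℕ => (A n : ℂ) * Complex.exp (2 * Real.pi * I * τ) ^ n)
      (E hk τ / (jf τ - c))) (m : ℕ) (hm : 0 < m) : A m = (Pm a b m).eval c := by
  obtain ⟨Y₀, -, hne⟩ := exists_far c
  have h1 := formal_of_analytic hk hE c A (max Y Y₀)
    (fun τ hτ => hne τ (lt_of_le_of_lt (le_max_right _ _) hτ))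
    (fun τ hτ => hA τ (lt_of_le_of_lt (le_max_left _ _) hτ))
  have h2 := duality ha hb c _ h1 m hm
  rwa [io_coeff, PowerSeries.coeff_mk] at h2

end Pool.Agent.H501.CM
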