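import Pool.Agent.H501.CM.Trans

/-!
# The memberships in the order
-/

set_option autoImplicit false

noncomputable section

open UpperHalfPlane hiding I
open ModularForm MatrixGroups Function Complex EisensteinSeries

namespace Pool.Agent.H501.CM

open Polynomial (aeval)

/-- a pair of conjugate elements of the order -/
def IsP (ω ω' z z' : Qb) : Prop := ∃ X Y : ℤ, z = X + Y * ω ∧ z' = X + Y * ω'

theorem IsP.int {ω ω' : Qb} (n : ℤ) : IsP ω ω' n n := ⟨n, 0, by simp, by simp⟩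

theorem IsP.sub {ω ω' z z' u u' : Qb} (h : IsP ω ω' z z') (h' : IsP ω ω' u u') :
    IsP ω ω' (z - u) (z' - u') := by
  obtain ⟨X, Y, rfl, rfl⟩ := h
  obtain ⟨X', Y', rfl, rfl⟩ := h'
  refine ⟨X - X', Y - Y', ?_, ?_⟩ <;> push_cast <;> ring

theorem IsP.mul {ω ω' z z' u u' : Qb} {D κ : ℤ} (hω : ω ^ 2 = D * ω - κ)
    (hω' : ω' ^ 2 = D * ω' - κ) (h : IsP ω ω' z z') (h' : IsP ω ω' u u') :
    IsP ω ω' (z * u) (z' * u') := by
  obtain ⟨X, Y, rfl, rfl⟩ := h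
  obtain ⟨X', Y', rfl, rfl⟩ := h'
  refine ⟨X * X' - Y * Y' * κ, X * Y' + Y * X' + Y * Y' * D, ?_, ?_⟩
  · push_cast
    linear_combination ((Y : Qb) * Y') * hω
  · push_cast
    linear_combination ((Y : Qb) * Y') * hω'

theorem IsP.pow {ω ω' z z' : Qb} {D κ : ℤ} (hω : ω ^ 2 = D * ω - κ)
    (hω' : ω' ^ 2 = D * ω' - κ) (h : IsP ω ω' z z') (n : ℕ) : IsP ω ω' (z ^ n) (z' ^ n) := by
  induction n with
  | zero =>
    rw [pow_zero, pow_zero]
    have := IsP.int (ω := ω) (ω' := ω') 1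
    simpa using this
  | succ n ih =>
    rw [pow_succ, pow_succ]
    exact ih.mul hω hω' h

variable {p : ℕ} [hp : Fact p.Prime]

theorem quad_le {K : Type} [NormedField K] [IsUltrametricDist K] {x s r : K}
    (h : x ^ 2 = s * x - r) (hs : ‖s‖ ≤ 1) (hr : ‖r‖ ≤ 1) : ‖x‖ ≤ 1 := by
  by_contra hlt
  rw [not_le] at hlt
  have h1 : ‖x‖ ^ 2 ≤ max (‖s * x‖) ‖r‖ := by
    rw [← norm_pow, h, sub_eq_add_neg]
    refine (IsUltrametricDist.norm_add_le_max _ _).trans ?_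
    rw [norm_neg]
  have h2 : max (‖s * x‖) ‖r‖ ≤ ‖x‖ := by
    refine max_le ?_ (hr.trans hlt.le)
    rw [norm_mul]
    exact mul_le_of_le_one_left (norm_nonneg _) hs
  nlinarith

theorem dvd_of_norm {n : ℤ} {N : ℕ} (h : ‖(n : PadicAlgCl p)‖ ≤ ((p : ℝ)⁻¹) ^ N) :
    (p : ℤ) ^ N ∣ n := by
  have h1 : ‖(n : PadicAlgCl p)‖ = ‖(n : ℚ_[p])‖ := by
    have h2 := PadicAlgCl.norm_extends p (n : ℚ_[p])
    rw [← h2]
    congr 1
  rw [h1] at h
  have h3 := (Padic.norm_int_le_pow_iff_dvd (p := p) n N).1 (by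
    rw [zpow_neg, zpow_natCast, ← inv_pow]
    exact h)
  exact_mod_cast h3

/-- from the `p`-adic estimate to the memberships -/
theorem final_pair (σ : Qb →+* PadicAlgCl p) {D κ : ℤ} {T ω ω' : Qb} (hT : T ^ 2 = D)
    (hDp : ¬ (p : ℤ) ∣ D) (hω : ω ^ 2 = D * ω - κ) (hω' : ω' ^ 2 = D * ω' - κ)
    (hd : ω - ω' = T) (u v : ℤ) (hpr : (u + v * ω) * (u + v * ω') = (p : Qb))
    (hu : ‖σ (u + v * ω)‖ = 1) (P P' : ℤ) (w N : ℕ)
    (h : ‖σ (P' - (u + v * ω) ^ w * P)‖ ≤ ((p : ℝ)⁻¹) ^ N) :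
    ∃ X Y : ℤ, P' - (u + v * ω) ^ w * P = (u + v * ω') ^ N * ((X : Qb) + Y * ω) ∧
      P' - (u + v * ω') ^ w * P = (u + v * ω) ^ N * ((X : Qb) + Y * ω') := by
  set ϖ : Qb := u + v * ω with hϖ
  set ϖ' : Qb := u + v * ω' with hϖ'
  have hpn := norm_p (p := p)
  have hp0 : (p : Qb) ≠ 0 := Nat.cast_ne_zero.2 hp.out.ne_zero
  have hpos : 0 < (p : ℝ)⁻¹ := inv_pos.2 (by exact_mod_cast hp.out.pos)
  have hne : ϖ ≠ 0 := fun h0 => hp0 (by rw [← hpr, h0, zero_mul])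
  have hne' : ϖ' ≠ 0 := fun h0 => hp0 (by rw [← hpr, h0, mul_zero])
  have hϖP : IsP ω ω' ϖ ϖ' := ⟨u, v, rfl, rfl⟩
  have hu' : ‖σ ϖ'‖ = (p : ℝ)⁻¹ := by
    have h1 := congrArg norm (congrArg σ hpr)
    rw [map_mul, norm_mul, hu, one_mul, map_natCast, hpn] at h1
    exact h1
  have hE : IsP ω ω' (P' - ϖ ^ w * P) (P' - ϖ' ^ w * P) :=
    (IsP.int P').sub ((hϖP.pow hω hω' w).mul hω hω' (IsP.int P))
  have hγ : IsP ω ω' ((P' - ϖ ^ w * P) * ϖ ^ N) ((P' - ϖ' ^ w * P) * ϖ' ^ N) :=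
    hE.mul hω hω' (hϖP.pow hω hω' N)
  have hωn : ‖σ ω‖ ≤ 1 := by
    have h1 := congrArg σ hω
    rw [map_pow, map_sub, map_mul, map_intCast, map_intCast] at h1
    exact quad_le h1 (norm_int_le D) (norm_int_le κ)
  have hωn' : ‖σ ω'‖ ≤ 1 := by
    have h1 := congrArg σ hω'
    rw [map_pow, map_sub, map_mul, map_intCast, map_intCast] at h1
    exact quad_le h1 (norm_int_le D) (norm_int_le κ)
  have hTn : ‖σ T‖ = 1 := by
    have h1 := congrArg norm (congrArg σ hT)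
    rw [map_pow, norm_pow, map_intCast, norm_eq_one (K := PadicAlgCl p) hpn hDp] at h1
    exact (pow_eq_one_iff_of_nonneg (norm_nonneg _) (by norm_num)).1 h1
  obtain ⟨X, Y, hX, hY⟩ := hγ
  have n1 : ‖σ ((X : Qb) + Y * ω)‖ ≤ ((p : ℝ)⁻¹) ^ N := by
    rw [← hX, map_mul, norm_mul, map_pow, norm_pow, hu, one_pow, mul_one]
    exact h
  have n2 : ‖σ ((X : Qb) + Y * ω')‖ ≤ ((p : ℝ)⁻¹) ^ N := by
    rw [← hY, map_mul, norm_mul, map_pow, norm_pow, hu']
    refine mul_le_of_le_one_left (by positivity) ?_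
    obtain ⟨X', Y', -, h2⟩ := hE
    rw [h2, map_add, map_mul, map_intCast, map_intCast]
    refine (IsUltrametricDist.norm_add_le_max _ _).trans (max_le (norm_int_le X') ?_)
    rw [norm_mul]
    exact mul_le_one₀ (norm_int_le Y') (norm_nonneg _) hωn'
  have n3 : ‖((Y : ℤ) : PadicAlgCl p)‖ ≤ ((p : ℝ)⁻¹) ^ N := by
    have h2 : σ ((X : Qb) + Y * ω) - σ ((X : Qb) + Y * ω') = Y * σ T := by
      rw [← map_sub, ← hd]
      have : (X : Qb) + Y * ω - (X + Y * ω') = Y * (ω - ω') := by ring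
      rw [this, map_mul, map_intCast]
    have h3 := nsub_le (σ ((X : Qb) + Y * ω)) (σ ((X : Qb) + Y * ω'))
    rw [h2, norm_mul, hTn, mul_one] at h3
    exact h3.trans (max_le n1 n2)
  have n4 : ‖((X : ℤ) : PadicAlgCl p)‖ ≤ ((p : ℝ)⁻¹) ^ N := by
    have h2 : ((X : ℤ) : PadicAlgCl p) = σ ((X : Qb) + Y * ω) - Y * σ ω := by
      rw [map_add, map_mul, map_intCast, map_intCast]
      ring
    rw [h2]
    refine (nsub_le _ _).trans (max_le n1 ?_)
    rw [norm_mul]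
    exact (mul_le_of_le_one_right (norm_nonneg _) hωn).trans n3
  obtain ⟨X₁, rfl⟩ := dvd_of_norm n4
  obtain ⟨Y₁, rfl⟩ := dvd_of_norm n3
  refine ⟨X₁, Y₁, ?_, ?_⟩
  · apply mul_right_cancel₀ (pow_ne_zero N hne)
    rw [hX]
    push_cast
    rw [← hpr, mul_pow]
    ring
  · apply mul_right_cancel₀ (pow_ne_zero N hne')
    rw [hY]
    push_cast
    rw [← hpr, mul_pow]
    ring

theorem T_sq {A B C D s : ℤ} {α : ℍ} (hα : (A : ℂ) * (α : ℂ) ^ 2 + B * α + C = 0)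
    (hABC : B ^ 2 - 4 * A * C = D) (hs : s ^ 2 = 1) {T : Qb}
    (hT : (T : ℂ) = s * (2 * A * α + B)) : T ^ 2 = D := by
  apply Qb_ext
  rw [coe_intQb]
  push_cast
  rw [hT]
  have h1 : (B : ℂ) ^ 2 - 4 * A * C = D := by exact_mod_cast hABC
  have h2 : (s : ℂ) ^ 2 = 1 := by exact_mod_cast hs
  linear_combination (2 * (A : ℂ) * α + B) ^ 2 * h2 + 4 * (A : ℂ) * hα + h1

theorem om_sq {D κ : ℤ} (hκ : 4 * κ = D ^ 2 - D) {T ω : Qb} (hT : T ^ 2 = D)
    (h1 : 2 * ω = D + T) : ω ^ 2 = D * ω - κ := by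
  have h2 : (4 : Qb) * κ = D ^ 2 - D := by exact_mod_cast congrArg (Int.cast : ℤ → Qb) hκ
  have h3 : (4 : Qb) * (ω ^ 2) = 4 * (D * ω - κ) := by
    linear_combination (2 * ω + T - D) * h1 + hT + h2
  exact mul_left_cancel₀ (by norm_num) h3

theorem half (σ : Qb →+* PadicAlgCl p) {A B C D κ J : ℤ} {α : ℍ}
    (hα : (A : ℂ) * (α : ℂ) ^ 2 + B * α + C = 0) (hABC : B ^ 2 - 4 * A * C = D)
    (hκ : 4 * κ = D ^ 2 - D) (hJ : jf α = J) (hJ0 : ¬ (p : ℤ) ∣ J) (hJ1 : ¬ (p : ℤ) ∣ J - 1728)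
    (hDp : ¬ (p : ℤ) ∣ D) {a b w : ℕ} (hab : 4 * a + 6 * b < 12) (hw : 4 * a + 6 * b + w = 12)
    {s : ℤ} (hs : s ^ 2 = 1) {T ω ω' : Qb} (hT : (T : ℂ) = s * (2 * A * α + B))
    (h1 : 2 * ω = D + T) (h2 : 2 * ω' = D - T) (u v : ℤ)
    (hpn : u ^ 2 + u * v * D + v ^ 2 * κ = p) (hu : ‖σ (u + v * ω)‖ = 1)
    (t m : ℕ) (hm : 0 < m) (ht : p ^ t ∣ m) :
    ∃ X Y : ℤ, ((Pm a b (p * m)).eval J : ℤ) - (u + v * ω) ^ w * ((Pm a b m).eval J : ℤ) =
        (u + v * ω') ^ ((w + 1) * (t + 1)) * ((X : Qb) + Y * ω) ∧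
      ((Pm a b (p * m)).eval J : ℤ) - (u + v * ω') ^ w * ((Pm a b m).eval J : ℤ) =
        (u + v * ω) ^ ((w + 1) * (t + 1)) * ((X : Qb) + Y * ω') := by
  have hT2 := T_sq hα hABC hs hT
  have hω := om_sq hκ hT2 h1
  have hω' : ω' ^ 2 = D * ω' - κ := om_sq (T := -T) hκ (by rw [neg_sq, hT2]) (by rw [h2]; ring)
  have hd : ω - ω' = T := by
    have h3 : (2 : Qb) * (ω - ω') = 2 * T := by linear_combination h1 - h2
    exact mul_left_cancel₀ (by norm_num) h3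
  -- the integer `e = (D + s B) / 2`
  obtain ⟨e, he⟩ : ∃ e : ℤ, 2 * e = D + s * B := by
    have h3 : (2 : ℤ) ∣ D + s * B := by
      have hs1 : s % 2 = 1 := by
        rcases Int.emod_two_eq_zero_or_one s with h | h
        · exfalso
          obtain ⟨r, hr⟩ := Int.dvd_of_emod_eq_zero h
          rw [hr] at hs
          have h5 : (2 * r) ^ 2 = 2 * (2 * r ^ 2) := by ring
          omega
        · exact h
      obtain ⟨r, hr⟩ : ∃ r, s = 2 * r + 1 := ⟨s / 2, by omega⟩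
      rcases Int.emod_two_eq_zero_or_one B with h | h
      · obtain ⟨b', rfl⟩ := Int.dvd_of_emod_eq_zero h
        refine ⟨2 * b' ^ 2 - 2 * A * C + s * b', ?_⟩
        rw [← hABC]
        ring
      · obtain ⟨b', rfl⟩ : ∃ r, B = 2 * r + 1 := ⟨B / 2, by omega⟩
        refine ⟨2 * b' ^ 2 + 2 * b' - 2 * A * C + 2 * r * b' + r + b' + 1, ?_⟩
        rw [← hABC, hr]
        ring
    obtain ⟨e, he⟩ := h3
    exact ⟨e, he.symm⟩
  have hpr : (u + v * ω) * (u + v * ω') = (p : Qb) := by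
    have h3 : (u : Qb) ^ 2 + u * v * D + v ^ 2 * κ = p := by
      exact_mod_cast congrArg (Int.cast : ℤ → Qb) hpn
    have h4 : ω' = D - ω := by
      have h5 : (2 : Qb) * ω' = 2 * (D - ω) := by linear_combination h1 + h2
      exact mul_left_cancel₀ (by norm_num) h5
    rw [h4]
    linear_combination h3 - (v : Qb) ^ 2 * hω
  have heB : 4 * (e * (e - s * B)) = D ^ 2 - B ^ 2 := by
    have h3 : 4 * (e * (e - s * B)) = (2 * e) * (2 * e - 2 * (s * B)) := by ring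
    rw [h3, he]
    linear_combination (-(B ^ 2)) * hs
  have hN : (u + v * e) ^ 2 - B * (u + v * e) * (v * s) + A * C * (v * s) ^ 2 = p := by
    have h4 : 4 * ((u + v * e) ^ 2 - B * (u + v * e) * (v * s) + A * C * (v * s) ^ 2) =
        4 * (p : ℤ) := by
      rw [← hpn]
      linear_combination (4 * u * v) * he + v ^ 2 * heB + (4 * A * C * v ^ 2) * hs -
        v ^ 2 * hκ - v ^ 2 * hABC
    exact mul_left_cancel₀ (by norm_num) h4
  have hϖ : (((u : Qb) + v * ω : Qb) : ℂ) = ((u + v * e : ℤ) : ℂ) +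
      ((v * s : ℤ) : ℂ) * (A * α) := by
    have h3 := congrArg (algebraMap Qb ℂ) h1
    rw [map_mul, map_add, map_ofNat, map_intCast] at h3
    change (2 : ℂ) * (ω : ℂ) = D + (T : ℂ) at h3
    rw [hT] at h3
    have h4 : (2 : ℂ) * e = D + s * B := by exact_mod_cast he
    push_cast
    apply mul_left_cancel₀ (two_ne_zero (α := ℂ))
    linear_combination (v : ℂ) * h3 - (v : ℂ) * h4
  have h3 := padic_main σ hα (u + v * e) (v * s) hN hJ hJ0 hJ1 hab hw _ hϖ hu t m hm ht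
  exact final_pair σ hT2 hDp hω hω' hd u v hpr hu _ _ w _ h3

/-- one of two conjugate elements of norm `p` is a unit -/
theorem unit_or (σ : Qb →+* PadicAlgCl p) {D κ : ℤ} {T ω ω' : Qb} (hT : T ^ 2 = D)
    (hDp : ¬ (p : ℤ) ∣ D) (hd : ω - ω' = T) (hω : ω ^ 2 = D * ω - κ)
    (hω' : ω' ^ 2 = D * ω' - κ) (u v : ℤ)
    (hpr : (u + v * ω) * (u + v * ω') = (p : Qb)) :
    ‖σ (u + v * ω)‖ = 1 ∨ ‖σ (u + v * ω')‖ = 1 := by
  have hpn := norm_p (p := p)
  have hp1 : (p : ℝ)⁻¹ < 1 := inv_lt_one_of_one_lt₀ (by exact_mod_cast hp.out.one_lt)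
  have hωn : ‖σ ω‖ ≤ 1 := by
    have h1 := congrArg σ hω
    rw [map_pow, map_sub, map_mul, map_intCast, map_intCast] at h1
    exact quad_le h1 (norm_int_le D) (norm_int_le κ)
  have hωn' : ‖σ ω'‖ ≤ 1 := by
    have h1 := congrArg σ hω'
    rw [map_pow, map_sub, map_mul, map_intCast, map_intCast] at h1
    exact quad_le h1 (norm_int_le D) (norm_int_le κ)
  have n1 : ‖σ (u + v * ω)‖ ≤ 1 := by
    rw [map_add, map_mul, map_intCast, map_intCast]
    refine (IsUltrametricDist.norm_add_le_max _ _).trans (max_le (norm_int_le u) ?_)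
    rw [norm_mul]
    exact mul_le_one₀ (norm_int_le v) (norm_nonneg _) hωn
  have n2 : ‖σ (u + v * ω')‖ ≤ 1 := by
    rw [map_add, map_mul, map_intCast, map_intCast]
    refine (IsUltrametricDist.norm_add_le_max _ _).trans (max_le (norm_int_le u) ?_)
    rw [norm_mul]
    exact mul_le_one₀ (norm_int_le v) (norm_nonneg _) hωn'
  by_contra hcon
  rw [not_or] at hcon
  have m1 := lt_of_le_of_ne n1 hcon.1
  have m2 := lt_of_le_of_ne n2 hcon.2
  have hTn : ‖σ T‖ = 1 := by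
    have h1 := congrArg norm (congrArg σ hT)
    rw [map_pow, norm_pow, map_intCast, norm_eq_one (K := PadicAlgCl p) hpn hDp] at h1
    exact (pow_eq_one_iff_of_nonneg (norm_nonneg _) (by norm_num)).1 h1
  -- the difference `v T` is small, so `p ∣ v`
  have h1 : σ (u + v * ω) - σ (u + v * ω') = v * σ T := by
    rw [← map_sub, ← hd]
    have : (u : Qb) + v * ω - (u + v * ω') = v * (ω - ω') := by ring
    rw [this, map_mul, map_intCast]
  have h2 := nsub_le (σ (u + v * ω)) (σ (u + v * ω'))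
  rw [h1, norm_mul, hTn, mul_one] at h2
  have h3 : ‖(v : PadicAlgCl p)‖ < 1 := lt_of_le_of_lt h2 (max_lt m1 m2)
  have h4 : (p : ℤ) ∣ v := by
    by_contra h
    exact absurd (norm_eq_one (K := PadicAlgCl p) hpn h) h3.ne
  have h5 : ‖(u : PadicAlgCl p)‖ < 1 := by
    have h6 : (u : PadicAlgCl p) = σ (u + v * ω) - v * σ ω := by
      rw [map_add, map_mul, map_intCast, map_intCast]
      ring
    rw [h6]
    refine lt_of_le_of_lt (nsub_le _ _) (max_lt m1 ?_)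
    rw [norm_mul]
    exact lt_of_le_of_lt (mul_le_of_le_one_right (norm_nonneg _) hωn) h3
  have h6 : (p : ℤ) ∣ u := by
    by_contra h
    exact absurd (norm_eq_one (K := PadicAlgCl p) hpn h) h5.ne
  obtain ⟨u', rfl⟩ := h6
  obtain ⟨v', rfl⟩ := h4
  -- then `p²` divides `p`
  have h7 := congrArg norm (congrArg σ hpr)
  have e1 : ∀ x : Qb, (((p : ℤ) * u' : ℤ) : Qb) + (((p : ℤ) * v' : ℤ) : Qb) * x =
      p * (u' + v' * x) := by
    intro x
    push_cast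
    ring
  rw [e1, e1, map_mul, map_mul, map_mul, map_natCast, norm_mul, norm_mul, norm_mul, hpn] at h7
  have b1 : ‖σ (u' + v' * ω)‖ ≤ 1 := by
    rw [map_add, map_mul, map_intCast, map_intCast]
    refine (IsUltrametricDist.norm_add_le_max _ _).trans (max_le (norm_int_le u') ?_)
    rw [norm_mul]
    exact mul_le_one₀ (norm_int_le v') (norm_nonneg _) hωn
  have b2 : ‖σ (u' + v' * ω')‖ ≤ 1 := by
    rw [map_add, map_mul, map_intCast, map_intCast]
    refine (IsUltrametricDist.norm_add_le_max _ _).trans (max_le (norm_int_le u') ?_)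
    rw [norm_mul]
    exact mul_le_one₀ (norm_int_le v') (norm_nonneg _) hωn'
  have hpos : 0 < (p : ℝ)⁻¹ := inv_pos.2 (by exact_mod_cast hp.out.pos)
  have h8 : (p : ℝ)⁻¹ * ‖σ (u' + v' * ω)‖ * ((p : ℝ)⁻¹ * ‖σ (u' + v' * ω')‖) ≤
      (p : ℝ)⁻¹ * (p : ℝ)⁻¹ := by
    refine mul_le_mul ?_ ?_ (by positivity) hpos.le
    · exact mul_le_of_le_one_right hpos.le b1
    · exact mul_le_of_le_one_right hpos.le b2
  rw [h7] at h8
  have h9 : (p : ℝ)⁻¹ * (p : ℝ)⁻¹ < (p : ℝ)⁻¹ * 1 := mul_lt_mul_of_pos_left hp1 hpos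
  rw [mul_one] at h9
  exact absurd h8 (not_le.2 h9)

end Pool.Agent.H501.CM
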