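import Pool.Agent.H501.CM.Lau
import Pool.Agent.H501.G.R_pool_sql_team_seeded_3997aac3.Q237.SX.Hecke

/-!
# Functions on the upper half plane with an integral Laurent expansion in `q`
-/

set_option autoImplicit false

noncomputable section

open UpperHalfPlane hiding I
open ModularForm MatrixGroups Filter Topology Function Real Complex EisensteinSeries
open scoped Manifold
open PowerSeries (coeff)

namespace Pool.Agent.H501.CM

open Pool.Agent.Q279.SC (fr z4 z6 zD zd q4 q6 qD qd)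
open Pool.Agent.Q237.SX

/-- the base change of power series from `ℤ` to `ℂ` -/
abbrev mC : PowerSeries ℤ →+* PowerSeries ℂ := PowerSeries.map (Int.castRingHom ℂ)

theorem HQ_qq : HQ (fun τ => qq τ) PowerSeries.X := by
  have h1 := (HQ.one.mul HQ.one)
  intro τ
  have h : (fun m => (PowerSeries.X : PowerSeries ℂ).coeff m • Periodic.qParam 1 (τ : ℂ) ^ m) =
      fun m : ℕ => if m = 1 then qq τ else 0 := by
    funext m
    rw [PowerSeries.coeff_X]
    split_ifs with hm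
    · rw [hm, pow_one, one_smul]
    · rw [zero_smul]
  rw [h]
  exact hasSum_ite_eq 1 (qq τ)

theorem HQ_divXn {F : ℍ → ℂ} {a : PowerSeries ℂ} (n : ℕ)
    (h : HQ (fun τ => F τ * qq τ ^ n) (PowerSeries.X ^ n * a)) : HQ F a := by
  induction n generalizing F a with
  | zero =>
    simp only [pow_zero, mul_one, one_mul] at h
    exact h
  | succ n ih =>
    apply ih
    have h1 : PowerSeries.X ^ (n + 1) * a = PowerSeries.X * (PowerSeries.X ^ n * a) := by
      rw [pow_succ]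
      ring
    rw [h1] at h
    refine h.divX.congr fun τ => ?_
    have := qq_ne τ
    rw [pow_succ]
    field_simp

/-- `F` has the Laurent expansion `x` -/
def HL (F : ℍ → ℂ) (x : LaurentSeries ℤ) : Prop :=
  ∃ (K : ℕ) (a : PowerSeries ℤ), x = qp (-(K : ℤ)) * io a ∧ HQ (fun τ => F τ * qq τ ^ K) (mC a)

theorem HL.up {F : ℍ → ℂ} {x : LaurentSeries ℤ} (h : HL F x) : ∃ K₀ : ℕ, ∀ K : ℕ, K₀ ≤ K →
    ∃ a : PowerSeries ℤ, x = qp (-(K : ℤ)) * io a ∧ HQ (fun τ => F τ * qq τ ^ K) (mC a) := by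
  obtain ⟨K₀, a, h1, h2⟩ := h
  refine ⟨K₀, fun K hK => ⟨PowerSeries.X ^ (K - K₀) * a, ?_, ?_⟩⟩
  · rw [map_mul, ← qp_nat, ← mul_assoc, ← qp_add, h1]
    congr 2
    omega
  · rw [map_mul, map_pow, PowerSeries.map_X]
    refine ((HQ_qq.pow (K - K₀)).mul h2).congr fun τ => ?_
    have h3 : qq τ ^ K = qq τ ^ (K - K₀) * qq τ ^ K₀ := by rw [← pow_add]; congr 1; omega
    rw [h3]
    ring

theorem HL.rep {F : ℍ → ℂ} {x : LaurentSeries ℤ} (h : HL F x) (K : ℕ) (a : PowerSeries ℤ)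
    (hx : x = qp (-(K : ℤ)) * io a) : HQ (fun τ => F τ * qq τ ^ K) (mC a) := by
  obtain ⟨K₀, h1⟩ := h.up
  obtain ⟨b, h2, h3⟩ := h1 (K₀ + K) (by omega)
  have h4 : b = PowerSeries.X ^ K₀ * a := by
    apply io_inj
    rw [map_mul, ← qp_nat]
    have h5 : (qp ((K₀ + K : ℕ) : ℤ) : LaurentSeries ℤ) * x = io b := by
      rw [h2, ← mul_assoc, qp_mul_neg, one_mul]
    rw [← h5, hx, ← mul_assoc, ← qp_add]
    congr 2
    push_cast
    ring
  rw [h4, map_mul, map_pow, PowerSeries.map_X] at h3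
  apply HQ_divXn K₀
  refine h3.congr fun τ => ?_
  rw [pow_add]
  ring

theorem HL.congr {F G : ℍ → ℂ} {x : LaurentSeries ℤ} (h : HL F x) (hFG : ∀ τ, F τ = G τ) :
    HL G x := by
  have : F = G := funext hFG
  rwa [← this]

theorem HL.of_HQ {F : ℍ → ℂ} {a : PowerSeries ℤ} (h : HQ F (mC a)) : HL F (io a) := by
  refine ⟨0, a, by simp [qp_zero], ?_⟩
  simp only [pow_zero, mul_one]
  exact h

theorem HL.mul {F G : ℍ → ℂ} {x y : LaurentSeries ℤ} (hF : HL F x) (hG : HL G y) :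
    HL (fun τ => F τ * G τ) (x * y) := by
  obtain ⟨K, a, h1, h2⟩ := hF
  obtain ⟨L, b, h3, h4⟩ := hG
  refine ⟨K + L, a * b, ?_, ?_⟩
  · have : (-((K + L : ℕ) : ℤ)) = -(K : ℤ) + -(L : ℤ) := by push_cast; ring
    rw [h1, h3, this, qp_add, map_mul]
    ring
  · rw [map_mul]
    refine (h2.mul h4).congr fun τ => ?_
    rw [pow_add]
    ring

theorem HL.add {F G : ℍ → ℂ} {x y : LaurentSeries ℤ} (hF : HL F x) (hG : HL G y) :
    HL (fun τ => F τ + G τ) (x + y) := by
  obtain ⟨K₁, h1⟩ := hF.up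
  obtain ⟨K₂, h2⟩ := hG.up
  obtain ⟨a, ha, ha'⟩ := h1 (max K₁ K₂) (le_max_left _ _)
  obtain ⟨b, hb, hb'⟩ := h2 (max K₁ K₂) (le_max_right _ _)
  refine ⟨max K₁ K₂, a + b, ?_, ?_⟩
  · rw [map_add, mul_add, ← ha, ← hb]
  · rw [map_add]
    refine (ha'.add hb').congr fun τ => ?_
    ring

theorem HL.const (c : ℤ) : HL (fun _ => (c : ℂ)) (c : LaurentSeries ℤ) := by
  have h : HQ (fun _ => (c : ℂ)) (mC (PowerSeries.C c)) := by
    rw [PowerSeries.map_C]
    exact HQ.const _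
  have h2 := HL.of_HQ h
  have h3 : (io (PowerSeries.C c) : LaurentSeries ℤ) = (c : LaurentSeries ℤ) := by
    have h4 : (PowerSeries.C c : PowerSeries ℤ) = (c : PowerSeries ℤ) :=
      eq_intCast (PowerSeries.C : ℤ →+* PowerSeries ℤ) c
    rw [h4, map_intCast]
  rwa [h3] at h2

theorem HL.one : HL (fun _ => 1) 1 := by
  have h := HL.const 1
  rw [Int.cast_one, Int.cast_one] at h
  exact h

theorem HL.pow {F : ℍ → ℂ} {x : LaurentSeries ℤ} (hF : HL F x) (n : ℕ) :
    HL (fun τ => F τ ^ n) (x ^ n) := by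
  induction n with
  | zero =>
    simp only [pow_zero]
    exact HL.one
  | succ n ih =>
    simp only [pow_succ]
    exact ih.mul hF

theorem HL.smul {F : ℍ → ℂ} {x : LaurentSeries ℤ} (c : ℤ) (hF : HL F x) :
    HL (fun τ => (c : ℂ) * F τ) ((c : LaurentSeries ℤ) * x) := (HL.const c).mul hF

theorem HL.zero : HL (fun _ => 0) 0 := by
  have h := HL.const 0
  rw [Int.cast_zero, Int.cast_zero] at h
  exact h

theorem HL.sum {ι : Type} (s : Finset ι) {F : ι → ℍ → ℂ} {x : ι → LaurentSeries ℤ}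
    (h : ∀ i ∈ s, HL (F i) (x i)) : HL (fun τ => ∑ i ∈ s, F i τ) (∑ i ∈ s, x i) := by
  classical
  induction s using Finset.induction_on with
  | empty =>
    simp only [Finset.sum_empty]
    exact HL.zero
  | insert i s hi ih =>
    simp only [Finset.sum_insert hi]
    exact (h i (Finset.mem_insert_self i s)).add
      (ih fun j hj => h j (Finset.mem_insert_of_mem hj))

theorem HL.unique {F : ℍ → ℂ} {x y : LaurentSeries ℤ} (hx : HL F x) (hy : HL F y) : x = y := by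
  obtain ⟨K₁, h1⟩ := hx.up
  obtain ⟨K₂, h2⟩ := hy.up
  obtain ⟨a, ha, ha'⟩ := h1 (max K₁ K₂) (le_max_left _ _)
  obtain ⟨b, hb, hb'⟩ := h2 (max K₁ K₂) (le_max_right _ _)
  have h3 : mC a = mC b := ha'.unique hb'
  have h4 : a = b := map_inj h3
  rw [ha, hb, h4]

section hecke

variable (p : ℕ) [hp : Fact p.Prime]

theorem HL.comp_mulP {F : ℍ → ℂ} {x : LaurentSeries ℤ} (h : HL F x) :
    HL (fun τ => F (mulP p τ)) (V p x) := by
  obtain ⟨K, a, h1, h2⟩ := h
  refine ⟨p * K, fr p a, ?_, ?_⟩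
  · rw [h1, V_rep]
    congr 2
    push_cast
    ring
  · have h3 := h2.comp_mulP (p := p)
    have h4 : fr p (mC a) = mC (fr p a) :=
      (Pool.Agent.Q279.SC.JFR.main p hp.out ℤ).2.2.2.2.2 ℂ (Int.castRingHom ℂ) a
    rw [h4] at h3
    refine h3.congr fun τ => ?_
    rw [qq_mulP, pow_mul]

theorem HL.sum_divP {F : ℍ → ℂ} {x : LaurentSeries ℤ} (h : HL F x) :
    HL (fun τ => ∑ b ∈ Finset.range p, F (divP p b τ)) ((p : LaurentSeries ℤ) * U p x) := by
  obtain ⟨K₀, h0⟩ := h.up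
  obtain ⟨a, h1, h2⟩ := h0 (p * K₀) (Nat.le_mul_of_pos_left _ hp.out.pos)
  refine ⟨K₀, (p : PowerSeries ℤ) * PowerSeries.mk fun m => coeff (p * m) a, ?_, ?_⟩
  · have e1 : (-((p * K₀ : ℕ) : ℤ)) = p * (-(K₀ : ℤ)) := by push_cast; ring
    rw [h1, e1, U_qp_mul, U_io, map_mul, map_natCast]
    ring
  · have h3 := h2.up (p := p)
    have e2 : PowerSeries.C (p : ℂ) * (PowerSeries.mk fun m => coeff (p * m) (mC a)) =
        mC ((p : PowerSeries ℤ) * PowerSeries.mk fun m => coeff (p * m) a) := by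
      rw [map_mul, map_natCast, map_natCast]
      congr 1
    rw [e2] at h3
    refine h3.congr fun τ => ?_
    rw [Finset.sum_mul]
    refine Finset.sum_congr rfl fun b _ => ?_
    congr 1
    rw [qq_divP, pow_mul, mul_pow, wq_pow, ← pow_mul, mul_comm b p, pow_mul,
      zt_prim.pow_eq_one, one_pow, mul_one]

end hecke

end Pool.Agent.H501.CM
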