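import Pool.Agent.H501.CM.Fun

/-!
# The Hecke operator `T_p` on functions of weight `-w`
-/

set_option autoImplicit false

noncomputable section

open UpperHalfPlane hiding I
open ModularForm MatrixGroups Filter Topology Function Real Complex EisensteinSeries
open scoped Manifold
open PowerSeries (coeff)

namespace Pool.Agent.H501.CM

open Pool.Agent.Q279.SC (fr z4 z6 zD zd q4 q6 qD qd)
open Pool.Agent.Q237.SX

/-- `F` is modular of weight `-w` for `SL₂(ℤ)` -/
def Mv (w : ℕ) (F : ℍ → ℂ) : Prop :=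
  ∀ a b c d : ℤ, a * d - b * c = 1 → ∀ z z' : ℍ, (z' : ℂ) * (c * z + d) = a * z + b →
    F z' * ((c : ℂ) * z + d) ^ w = F z

theorem Mv.congr {w : ℕ} {F G : ℍ → ℂ} (h : Mv w F) (hFG : ∀ τ, F τ = G τ) : Mv w G := by
  have : F = G := funext hFG
  rwa [← this]

theorem Mv.mul {v w : ℕ} {F G : ℍ → ℂ} (hF : Mv v F) (hG : Mv w G) :
    Mv (v + w) (fun τ => F τ * G τ) := by
  intro a b c d hd z z' hz
  have h1 := hF a b c d hd z z' hz
  have h2 := hG a b c d hd z z' hz
  simp only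
  rw [← h1, ← h2, pow_add]
  ring

theorem Mv.add {w : ℕ} {F G : ℍ → ℂ} (hF : Mv w F) (hG : Mv w G) :
    Mv w (fun τ => F τ + G τ) := by
  intro a b c d hd z z' hz
  have h1 := hF a b c d hd z z' hz
  have h2 := hG a b c d hd z z' hz
  simp only
  rw [← h1, ← h2]
  ring

theorem Mv.const (c : ℂ) : Mv 0 (fun _ => c) := by
  intro _ _ _ _ _ z z' _
  rw [pow_zero, mul_one]

theorem Mv.smul {w : ℕ} {F : ℍ → ℂ} (c : ℂ) (hF : Mv w F) : Mv w (fun τ => c * F τ) := by
  have h := (Mv.const c).mul hF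
  rwa [zero_add] at h

theorem Mv.zero (w : ℕ) : Mv w (fun _ => 0) := by
  intro _ _ _ _ _ z z' _
  rw [zero_mul]

theorem Mv.sum {w : ℕ} {ι : Type} (s : Finset ι) {F : ι → ℍ → ℂ}
    (h : ∀ i ∈ s, Mv w (F i)) : Mv w (fun τ => ∑ i ∈ s, F i τ) := by
  classical
  induction s using Finset.induction_on with
  | empty =>
    simp only [Finset.sum_empty]
    exact Mv.zero w
  | insert i s hi ih =>
    simp only [Finset.sum_insert hi]
    exact (h i (Finset.mem_insert_self i s)).add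
      (ih fun j hj => h j (Finset.mem_insert_of_mem hj))

theorem Mv.pow {w : ℕ} {F : ℍ → ℂ} (hF : Mv w F) (n : ℕ) : Mv (n * w) (fun τ => F τ ^ n) := by
  induction n with
  | zero =>
    simp only [pow_zero, zero_mul]
    exact Mv.const 1
  | succ n ih =>
    simp only [pow_succ, add_mul, one_mul]
    exact ih.mul hF

/-- quotient of a modular form of weight `k` by `Δ ^ K` -/
theorem Mv.of_mf {k w K : ℕ} (hk : k + w = 12 * K) {G : ℍ → ℂ} (A : ModularForm 𝒮ℒ (k : ℤ))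
    (hG : ∀ τ, G τ * ModularForm.discriminant τ ^ K = A τ) : Mv w G := by
  intro a b c d hd z z' hz
  obtain ⟨h1, hne⟩ := mf_move (k := (k : ℤ)) A a b c d hd z z' hz
  obtain ⟨h2, -⟩ := mf_move (k := 12) CuspForm.discriminant a b c d hd z z' hz
  rw [CuspForm.coe_discriminant, zp12] at h2
  rw [zpow_natCast, ← hG, ← hG, h2] at h1
  have hz0 := discriminant_ne_zero z
  set t := (c : ℂ) * z + d
  have h3 : t ^ k * (G z' * t ^ w) = t ^ k * G z := by
    have h4 : (t ^ 12 * ModularForm.discriminant z) ^ K =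
        t ^ k * t ^ w * ModularForm.discriminant z ^ K := by
      rw [mul_pow, ← pow_mul, ← hk, pow_add]
    rw [h4] at h1
    have h5 : ModularForm.discriminant z ^ K ≠ 0 := pow_ne_zero _ hz0
    apply mul_right_cancel₀ h5
    linear_combination h1
  exact mul_left_cancel₀ (pow_ne_zero _ hne) h3

section hecke

variable {p : ℕ} [hp : Fact p.Prime]

/-- the Hecke operator: `F(p τ) + p^w ∑ F((τ + b) / p)` -/
def Tp (p : ℕ) [Fact p.Prime] (w : ℕ) (F : ℍ → ℂ) (τ : ℍ) : ℂ :=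
  F (mulP p τ) + (p : ℂ) ^ w * ∑ b ∈ Finset.range p, F (divP p b τ)

lemma mv_mul {w : ℕ} {F : ℍ → ℂ} (hF : Mv w F) (τ : ℍ) :
    F (mulP p (ModularGroup.S • τ)) * (τ : ℂ) ^ w = (p : ℂ) ^ w * F (divP p 0 τ) := by
  have hτ := ne_zero τ
  have hp0 := p_ne (p := p)
  have h := hF 0 (-1) 1 0 (by norm_num) (divP p 0 τ) (mulP p (ModularGroup.S • τ)) (by
    rw [coe_mulP, coe_S, coe_divP]
    push_cast
    field_simp
    ring)
  rw [← h, coe_divP]
  push_cast
  rw [one_mul, add_zero, add_zero, div_pow]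
  field_simp

lemma mv_div0 {w : ℕ} {F : ℍ → ℂ} (hF : Mv w F) (τ : ℍ) :
    (p : ℂ) ^ w * F (divP p 0 (ModularGroup.S • τ)) * (τ : ℂ) ^ w = F (mulP p τ) := by
  have hτ := ne_zero τ
  have hp0 := p_ne (p := p)
  have h := hF 0 (-1) 1 0 (by norm_num) (mulP p τ) (divP p 0 (ModularGroup.S • τ)) (by
    rw [coe_mulP, coe_divP, coe_S]
    push_cast
    field_simp
    ring)
  rw [← h, coe_mulP]
  push_cast
  rw [one_mul, add_zero, mul_pow]
  ring

lemma mv_div {w : ℕ} {F : ℍ → ℂ} (hF : Mv w F) {b : ℕ} (h0 : b ≠ 0) (hb : b < p) (τ : ℍ) :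
    F (divP p b (ModularGroup.S • τ)) * (τ : ℂ) ^ w = F (divP p (ivb p b) τ) := by
  have hτ := ne_zero τ
  have hp0 := p_ne (p := p)
  obtain ⟨e, he⟩ : (p : ℤ) ∣ 1 + b * ivb p b := by
    rw [← ZMod.intCast_zmod_eq_zero_iff_dvd]
    push_cast
    rw [ivb_cast, mul_neg, mul_inv_cancel₀ (cast_ne h0 hb)]
    ring
  have heC : (1 + b * ivb p b : ℂ) = p * e := by exact_mod_cast he
  have h := hF b (-e) p (-(ivb p b : ℕ)) (by linear_combination (-1) * he) (divP p (ivb p b) τ)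
    (divP p b (ModularGroup.S • τ)) (by
    rw [coe_divP, coe_divP, coe_S]
    push_cast
    field_simp
    linear_combination (-(τ : ℂ)) * heC)
  rw [← h, coe_divP]
  push_cast
  congr 1
  congr 1
  field_simp
  ring

lemma Tp_S {w : ℕ} {F : ℍ → ℂ} (hF : Mv w F) (τ : ℍ) :
    Tp p w F (ModularGroup.S • τ) * (τ : ℂ) ^ w = Tp p w F τ := by
  unfold Tp
  rw [sum_split, sum_split]
  have h1 := mv_mul (p := p) hF τ
  have h2 := mv_div0 (p := p) hF τ
  have h3 : ∑ b ∈ (Finset.range p).erase 0, F (divP p b (ModularGroup.S • τ)) * (τ : ℂ) ^ w =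
      ∑ b ∈ (Finset.range p).erase 0, F (divP p b τ) := by
    refine Finset.sum_nbij' (ivb p) (ivb p) ?_ ?_ ?_ ?_ ?_
    · intro b hb
      rw [Finset.mem_erase, Finset.mem_range] at hb ⊢
      exact ⟨ivb_ne hb.1 hb.2, ivb_lt b⟩
    · intro b hb
      rw [Finset.mem_erase, Finset.mem_range] at hb ⊢
      exact ⟨ivb_ne hb.1 hb.2, ivb_lt b⟩
    · intro b hb
      rw [Finset.mem_erase, Finset.mem_range] at hb
      exact ivb_ivb hb.1 hb.2
    · intro b hb
      rw [Finset.mem_erase, Finset.mem_range] at hb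
      exact ivb_ivb hb.1 hb.2
    · intro b hb
      rw [Finset.mem_erase, Finset.mem_range] at hb
      exact mv_div hF hb.1 hb.2 τ
  rw [← Finset.sum_mul] at h3
  linear_combination h1 + h2 + (p : ℂ) ^ w * h3

theorem HL_Tp {w : ℕ} {F : ℍ → ℂ} {x : LaurentSeries ℤ} (h : HL F x) :
    HL (Tp p w F) (V p x + (p : LaurentSeries ℤ) ^ (w + 1) * U p x) := by
  have h1 := (h.comp_mulP p).add ((h.sum_divP p).smul ((p : ℤ) ^ w))
  have e : V p x + ((((p : ℤ) ^ w : ℤ)) : LaurentSeries ℤ) * ((p : LaurentSeries ℤ) * U p x) =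
      V p x + (p : LaurentSeries ℤ) ^ (w + 1) * U p x := by
    push_cast
    ring
  rw [e] at h1
  refine h1.congr fun τ => ?_
  unfold Tp
  push_cast
  rfl

end hecke

/-- a function of weight `-w` with an integral Laurent expansion, invariant under `S`, is a
modular form divided by a power of `Δ` -/
theorem exists_mf {w : ℕ} {F : ℍ → ℂ} {x : LaurentSeries ℤ} (h : HL F x)
    (hS : ∀ τ : ℍ, F (ModularGroup.S • τ) * (τ : ℂ) ^ w = F τ) : ∃ K₀ : ℕ, ∀ K k : ℕ, K₀ ≤ K →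
    k + w = 12 * K → ∃ (A : ModularForm 𝒮ℒ (k : ℤ)) (a : PowerSeries ℤ), HQ A (mC a) ∧
      (∀ τ, F τ * ModularForm.discriminant τ ^ K = A τ) ∧ x * io (zD ^ K) = io a := by
  obtain ⟨K₀, h0⟩ := h.up
  refine ⟨K₀, fun K k hK hk => ?_⟩
  obtain ⟨a, h1, h2⟩ := h0 K hK
  have h3 : HQ (fun τ => ModularForm.discriminant τ / qq τ) (qd ℂ) := by
    have h := hqD
    rw [qD_X] at h
    exact h.divX
  have h4 : HQ (fun τ => F τ * ModularForm.discriminant τ ^ K) (mC (a * zd ^ K)) := by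
    rw [map_mul, map_pow]
    refine (h2.mul (h3.pow K)).congr fun τ => ?_
    have := qq_ne τ
    rw [div_pow]
    field_simp
  have hSl : (fun τ => F τ * ModularForm.discriminant τ ^ K) ∣[(k : ℤ)] ModularGroup.S =
      (fun τ => F τ * ModularForm.discriminant τ ^ K) := by
    funext τ
    rw [ModularForm.SL_slash_apply]
    have hτ := ne_zero τ
    have hd : denom ModularGroup.S τ = (τ : ℂ) := by
      rw [ModularGroup.denom_S]
    rw [hd, zpow_neg, zpow_natCast]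
    have h1 := hS τ
    obtain ⟨h3, -⟩ := mf_move (k := 12) CuspForm.discriminant 0 (-1) 1 0 (by norm_num) τ
      (ModularGroup.S • τ) (by
        rw [coe_S]
        push_cast
        field_simp
        ring)
    rw [CuspForm.coe_discriminant, zp12] at h3
    rw [h3]
    push_cast
    rw [one_mul, add_zero, ← h1, mul_pow, ← pow_mul, ← hk, pow_add]
    field_simp
  refine ⟨h4.toMF (k : ℤ) hSl, a * zd ^ K, ?_, ?_, ?_⟩
  · exact h4.congr fun τ => (h4.coe_toMF _ hSl τ).symm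
  · intro τ
    exact (h4.coe_toMF _ hSl τ).symm
  · have e1 : (io (zD ^ K) : LaurentSeries ℤ) = qp (K : ℤ) * io (zd ^ K) := by
      rw [zD_X, mul_pow, map_mul, ← qp_nat]
    rw [h1, e1, map_mul]
    linear_combination (io a * io (zd ^ K)) * qp_neg_mul (R := ℤ) (K : ℤ)

theorem Mv.of_S {w : ℕ} {F : ℍ → ℂ} {x : LaurentSeries ℤ} (h : HL F x)
    (hS : ∀ τ : ℍ, F (ModularGroup.S • τ) * (τ : ℂ) ^ w = F τ) : Mv w F := by
  obtain ⟨K₀, h0⟩ := exists_mf h hS
  obtain ⟨A, a, -, h2, -⟩ := h0 (K₀ + w) (12 * (K₀ + w) - w) (by omega) (by omega)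
  exact Mv.of_mf (by omega) A h2

theorem Mv.S {w : ℕ} {F : ℍ → ℂ} (h : Mv w F) (τ : ℍ) :
    F (ModularGroup.S • τ) * (τ : ℂ) ^ w = F τ := by
  have hτ := ne_zero τ
  have h1 := h 0 (-1) 1 0 (by norm_num) τ (ModularGroup.S • τ) (by
    rw [coe_S]
    push_cast
    field_simp
    ring)
  rw [← h1]
  push_cast
  ring

theorem Mv_Tp {p : ℕ} [hp : Fact p.Prime] {w : ℕ} {F : ℍ → ℂ} {x : LaurentSeries ℤ} (h : HL F x)
    (hF : Mv w F) : Mv w (Tp p w F) :=
  Mv.of_S (HL_Tp (p := p) (w := w) h) (Tp_S hF)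

end Pool.Agent.H501.CM
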