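import Mathlib
import Pool.Agent.H501.G.R_pool_sql_team_seeded_3997aac3.Q279.SC.J.FR

/-!
# Formal Laurent series in `q`: the operators `V` and `U`
-/

set_option autoImplicit false

noncomputable section

namespace Pool.Agent.H501.CM

open Pool.Agent.Q279.SC (fr)

section ring

variable {R : Type} [CommRing R]

/-- power series as Laurent series -/
def io : PowerSeries R →+* LaurentSeries R := HahnSeries.ofPowerSeries ℤ R

theorem io_coeff (f : PowerSeries R) (n : ℕ) : (io f).coeff (n : ℤ) = PowerSeries.coeff n f :=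
  HahnSeries.ofPowerSeries_apply_coeff f n

theorem io_coeff_neg (f : PowerSeries R) (n : ℤ) (hn : n < 0) : (io f).coeff n = 0 := by
  unfold io
  rw [HahnSeries.ofPowerSeries_apply]
  apply HahnSeries.embDomain_of_notMem_range
  simp only [Set.mem_range, not_exists]
  intro m hm
  have : ((m : ℕ) : ℤ) = n := hm
  omega

theorem io_inj : Function.Injective (io : PowerSeries R →+* LaurentSeries R) :=
  HahnSeries.ofPowerSeries_injective

/-- `q ^ n` -/
def qp (n : ℤ) : LaurentSeries R := HahnSeries.single n 1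

theorem qp_add (m n : ℤ) : (qp (m + n) : LaurentSeries R) = qp m * qp n := by
  unfold qp
  rw [HahnSeries.single_mul_single, one_mul]

theorem qp_zero : (qp 0 : LaurentSeries R) = 1 := rfl

theorem qp_pow (m : ℤ) (k : ℕ) : (qp m : LaurentSeries R) ^ k = qp (k * m) := by
  unfold qp
  rw [HahnSeries.single_pow, one_pow, nsmul_eq_mul]

theorem qp_one : (qp 1 : LaurentSeries R) = io PowerSeries.X := (HahnSeries.ofPowerSeries_X).symm

theorem qp_nat (n : ℕ) : (qp n : LaurentSeries R) = io (PowerSeries.X ^ n) := by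
  rw [map_pow, ← qp_one, qp_pow, mul_one]

theorem qp_neg_mul (n : ℤ) : (qp (-n) : LaurentSeries R) * qp n = 1 := by
  rw [← qp_add, neg_add_cancel, qp_zero]

theorem qp_mul_neg (n : ℤ) : (qp n : LaurentSeries R) * qp (-n) = 1 := by
  rw [← qp_add, add_neg_cancel, qp_zero]

theorem qp_coeff (m n : ℤ) (f : LaurentSeries R) : (qp m * f).coeff n = f.coeff (n - m) := by
  unfold qp
  have h := HahnSeries.coeff_single_mul_add (r := (1 : R)) (x := f) (a := n - m) (b := m)
  rw [sub_add_cancel, one_mul] at h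
  exact h

/-- every Laurent series is `q^(-K)` times a power series, for all large `K` -/
theorem exists_rep (x : LaurentSeries R) : ∃ K₀ : ℕ, ∀ K : ℕ, K₀ ≤ K →
    ∃ a : PowerSeries R, x = qp (-(K : ℤ)) * io a := by
  refine ⟨(-x.order).toNat, fun K hK => ⟨PowerSeries.mk fun n => x.coeff ((n : ℤ) - K), ?_⟩⟩
  ext n
  rw [qp_coeff, sub_neg_eq_add]
  by_cases hn : 0 ≤ n + K
  · obtain ⟨m, hm⟩ := Int.eq_ofNat_of_zero_le hn
    rw [hm, io_coeff, PowerSeries.coeff_mk, ← hm, add_sub_cancel_right]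
  · rw [io_coeff_neg _ _ (not_le.1 hn)]
    by_contra h
    have := HahnSeries.order_le_of_coeff_ne_zero h
    omega

/-- a common representation of two Laurent series -/
theorem exists_rep2 (x y : LaurentSeries R) : ∃ (K : ℕ) (a b : PowerSeries R),
    x = qp (-(K : ℤ)) * io a ∧ y = qp (-(K : ℤ)) * io b := by
  obtain ⟨K₁, h1⟩ := exists_rep x
  obtain ⟨K₂, h2⟩ := exists_rep y
  obtain ⟨a, ha⟩ := h1 (max K₁ K₂) (le_max_left _ _)
  obtain ⟨b, hb⟩ := h2 (max K₁ K₂) (le_max_right _ _)
  exact ⟨_, a, b, ha, hb⟩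

theorem coeff_bdd (x : LaurentSeries R) : ∃ N : ℕ, ∀ n : ℤ, n < -(N : ℤ) → x.coeff n = 0 := by
  obtain ⟨K, h⟩ := exists_rep x
  obtain ⟨a, ha⟩ := h K le_rfl
  refine ⟨K, fun n hn => ?_⟩
  rw [ha, qp_coeff, io_coeff_neg]
  omega

/-- substitution `q ↦ q ^ p`, underlying function -/
def Vfun (p : ℕ) (x : LaurentSeries R) : LaurentSeries R :=
  HahnSeries.ofSuppBddBelow (fun n : ℤ => if (p : ℤ) ∣ n then x.coeff (n / p) else 0) (by
    obtain ⟨N, hN⟩ := coeff_bdd x
    refine ⟨-(N : ℤ) * p - 1, fun n hn => ?_⟩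
    rw [Function.mem_support] at hn
    by_contra h
    rw [not_le] at h
    apply hn
    split_ifs with hd
    · obtain ⟨k, rfl⟩ := hd
      rcases Nat.eq_zero_or_pos p with hp | hp
      · subst hp
        simp at h
      · have hp' : (0 : ℤ) < p := by exact_mod_cast hp
        rw [Int.mul_ediv_cancel_left _ hp'.ne']
        apply hN
        nlinarith
    · rfl)

/-- the operator `U_p`, underlying function (`p > 0`) -/
def Ufun (p : ℕ) (x : LaurentSeries R) : LaurentSeries R :=
  HahnSeries.ofSuppBddBelow (fun n : ℤ => if 0 < p then x.coeff (p * n) else 0) (by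
    obtain ⟨N, hN⟩ := coeff_bdd x
    refine ⟨-(N : ℤ) - 1, fun n hn => ?_⟩
    rw [Function.mem_support] at hn
    by_contra h
    rw [not_le] at h
    apply hn
    split_ifs with hp
    · have hp' : (0 : ℤ) < p := by exact_mod_cast hp
      apply hN
      nlinarith
    · rfl)

theorem Vfun_coeff (p : ℕ) (x : LaurentSeries R) (n : ℤ) :
    (Vfun p x).coeff n = if (p : ℤ) ∣ n then x.coeff (n / p) else 0 := rfl

end ring

section prime

variable {R : Type} [CommRing R] (p : ℕ) [hp : Fact p.Prime]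

theorem Ufun_coeff (x : LaurentSeries R) (n : ℤ) :
    (Ufun p x).coeff n = x.coeff (p * n) := if_pos hp.out.pos

theorem pz : (0 : ℤ) < p := by exact_mod_cast hp.out.pos

theorem Vfun_coeff_mul (x : LaurentSeries R) (n : ℤ) :
    (Vfun p x).coeff (p * n) = x.coeff n := by
  rw [Vfun_coeff, if_pos (dvd_mul_right _ _), Int.mul_ediv_cancel_left _ (pz p).ne']

omit hp in
theorem Vfun_add (x y : LaurentSeries R) : Vfun p (x + y) = Vfun p x + Vfun p y := by
  ext n
  rw [HahnSeries.coeff_add, Vfun_coeff, Vfun_coeff, Vfun_coeff, HahnSeries.coeff_add]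
  split_ifs
  · rfl
  · rw [add_zero]

theorem Vfun_rep (K : ℤ) (a : PowerSeries R) :
    Vfun p (qp K * io a) = qp (p * K) * io (fr p a) := by
  ext n
  rw [Vfun_coeff, qp_coeff]
  by_cases h : (p : ℤ) ∣ n
  · obtain ⟨k, rfl⟩ := h
    rw [if_pos (dvd_mul_right _ _), Int.mul_ediv_cancel_left _ (pz p).ne', qp_coeff, ← mul_sub]
    rcases lt_or_ge (k - K) 0 with h | h
    · rw [io_coeff_neg _ _ h, io_coeff_neg]
      exact mul_neg_of_pos_of_neg (pz p) h
    · obtain ⟨m, hm⟩ := Int.eq_ofNat_of_zero_le h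
      rw [hm, io_coeff]
      have h1 : (p : ℤ) * (m : ℤ) = ((p * m : ℕ) : ℤ) := by push_cast; rfl
      rw [h1, io_coeff]
      unfold fr
      rw [PowerSeries.coeff_mk, if_pos (dvd_mul_right _ _), Nat.mul_div_cancel_left _ hp.out.pos]
  · rw [if_neg h, qp_coeff]
    rcases lt_or_ge (n - p * K) 0 with h' | h'
    · rw [io_coeff_neg _ _ h']
    · obtain ⟨m, hm⟩ := Int.eq_ofNat_of_zero_le h'
      rw [hm, io_coeff]
      unfold fr
      rw [PowerSeries.coeff_mk, if_neg]
      intro h2
      apply h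
      have h3 : (p : ℤ) ∣ m := by exact_mod_cast h2
      have h4 : n = m + p * K := by omega
      rw [h4]
      exact dvd_add h3 (dvd_mul_right _ _)

theorem Vfun_io (a : PowerSeries R) : Vfun p (io a) = io (fr p a) := by
  have h := Vfun_rep p 0 a
  rwa [mul_zero, qp_zero, one_mul, one_mul] at h

theorem Vfun_mul (x y : LaurentSeries R) : Vfun p (x * y) = Vfun p x * Vfun p y := by
  obtain ⟨K, a, b, rfl, rfl⟩ := exists_rep2 x y
  have h1 := (Pool.Agent.Q279.SC.JFR.main p hp.out R).1 a b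
  have h2 : qp (-(K : ℤ)) * io a * (qp (-(K : ℤ)) * io b) = qp (-(K : ℤ) + -(K : ℤ)) * io (a * b) := by
    rw [qp_add, map_mul]
    ring
  rw [h2, Vfun_rep, Vfun_rep, Vfun_rep, h1, map_mul, mul_add, qp_add]
  ring

/-- the ring homomorphism `q ↦ q ^ p` -/
def V : LaurentSeries R →+* LaurentSeries R where
  toFun := Vfun p
  map_zero' := by
    ext n
    rw [Vfun_coeff]
    simp
  map_one' := by
    have h := Vfun_io p (1 : PowerSeries R)
    rw [(Pool.Agent.Q279.SC.JFR.main p hp.out R).2.2.1, map_one] at h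
    exact h
  map_add' := Vfun_add p
  map_mul' := Vfun_mul p

/-- the operator `U_p` -/
def U : LaurentSeries R →+ LaurentSeries R where
  toFun := Ufun p
  map_zero' := by
    ext n
    rw [Ufun_coeff]
    simp
  map_add' x y := by
    ext n
    rw [HahnSeries.coeff_add, Ufun_coeff, Ufun_coeff, Ufun_coeff, HahnSeries.coeff_add]

theorem V_coeff (x : LaurentSeries R) (n : ℤ) :
    (V p x).coeff n = if (p : ℤ) ∣ n then x.coeff (n / p) else 0 := rfl

theorem V_coeff_mul (x : LaurentSeries R) (n : ℤ) : (V p x).coeff (p * n) = x.coeff n :=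
  Vfun_coeff_mul p x n

theorem U_coeff (x : LaurentSeries R) (n : ℤ) : (U p x).coeff n = x.coeff (p * n) :=
  Ufun_coeff p x n

theorem V_rep (K : ℤ) (a : PowerSeries R) : V p (qp K * io a) = qp (p * K) * io (fr p a) :=
  Vfun_rep p K a

theorem V_qp (K : ℤ) : V p (qp K : LaurentSeries R) = qp (p * K) := by
  have h := V_rep (R := R) p K 1
  rw [(Pool.Agent.Q279.SC.JFR.main p hp.out R).2.2.1, map_one, mul_one, mul_one] at h
  exact h

theorem V_io (a : PowerSeries R) : V p (io a) = io (fr p a) := Vfun_io p a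

theorem U_V (x : LaurentSeries R) : U p (V p x) = x := by
  ext n
  rw [U_coeff, V_coeff_mul]

theorem U_qp_mul (K : ℤ) (x : LaurentSeries R) : U p (qp (p * K) * x) = qp K * U p x := by
  ext n
  rw [U_coeff, qp_coeff, qp_coeff, U_coeff, mul_sub]

theorem U_io (a : PowerSeries R) :
    U p (io a) = io (PowerSeries.mk fun m => PowerSeries.coeff (p * m) a) := by
  ext n
  rw [U_coeff]
  rcases lt_or_ge n 0 with h | h
  · rw [io_coeff_neg _ _ h, io_coeff_neg]
    exact mul_neg_of_pos_of_neg (pz p) h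
  · obtain ⟨m, rfl⟩ := Int.eq_ofNat_of_zero_le h
    have h1 : (p : ℤ) * (m : ℤ) = ((p * m : ℕ) : ℤ) := by push_cast; rfl
    rw [h1, io_coeff, io_coeff, PowerSeries.coeff_mk]

theorem U_int_mul (c : ℤ) (x : LaurentSeries R) : U p ((c : LaurentSeries R) * x) = c * U p x := by
  rw [← zsmul_eq_mul, map_zsmul, zsmul_eq_mul]

end prime

end Pool.Agent.H501.CM
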