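import Mathlib

/-!
# Bounded power sums and the `p`-adic argument
-/

set_option autoImplicit false

noncomputable section

namespace Pool.Agent.H501.CM

open Polynomial (aeval)

/-- extraction of one value from power sums -/
theorem pick {K : Type} [Field K] [CharZero K] (s : Finset ℕ) (v : ℕ → K) {i₀ : ℕ}
    (hi₀ : i₀ ∈ s) :
    ∃ (L : Polynomial K) (e : K), e ≠ 0 ∧ ∀ (g : K → K) (n : ℕ),
      ∑ k ∈ Finset.range (L.natDegree + 1), L.coeff k * ∑ i ∈ s, g (v i) * v i ^ (n + k) =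
        e * (g (v i₀) * v i₀ ^ n) := by
  classical
  set u := v i₀ with hu
  set S := (s.image v).erase u with hS
  set L : Polynomial K := ∏ y ∈ S, (Polynomial.X - Polynomial.C y) with hL
  have h0 : ∀ y ∈ S, L.eval y = 0 := by
    intro y hy
    rw [hL, Polynomial.eval_prod]
    exact Finset.prod_eq_zero hy (by simp)
  refine ⟨L, ((s.filter (fun i => v i = u)).card : K) * L.eval u, mul_ne_zero ?_ ?_,
    fun g n => ?_⟩
  · rw [Nat.cast_ne_zero]
    have h1 : i₀ ∈ s.filter (fun i => v i = u) := Finset.mem_filter.2 ⟨hi₀, hu.symm⟩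
    exact Finset.card_ne_zero_of_mem h1
  · rw [hL, Polynomial.eval_prod, Finset.prod_ne_zero_iff]
    intro y hy
    rw [Polynomial.eval_sub, Polynomial.eval_X, Polynomial.eval_C, sub_ne_zero]
    exact (Finset.ne_of_mem_erase hy).symm
  · have h1 : ∑ k ∈ Finset.range (L.natDegree + 1), L.coeff k * ∑ i ∈ s, g (v i) * v i ^ (n + k) =
        ∑ i ∈ s, g (v i) * v i ^ n * L.eval (v i) := by
      simp only [Finset.mul_sum]
      rw [Finset.sum_comm]
      refine Finset.sum_congr rfl fun i _ => ?_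
      rw [Polynomial.eval_eq_sum_range, Finset.mul_sum]
      refine Finset.sum_congr rfl fun k _ => ?_
      rw [pow_add]
      ring
    rw [h1, ← Finset.sum_filter_add_sum_filter_not s (fun i => v i = u)]
    have h2 : ∑ i ∈ s.filter (fun i => ¬ v i = u), g (v i) * v i ^ n * L.eval (v i) = 0 := by
      refine Finset.sum_eq_zero fun i hi => ?_
      rw [Finset.mem_filter] at hi
      rw [h0 (v i) (Finset.mem_erase.2 ⟨hi.2, Finset.mem_image_of_mem v hi.1⟩), mul_zero]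
    have h3 : ∑ i ∈ s.filter (fun i => v i = u), g (v i) * v i ^ n * L.eval (v i) =
        ∑ i ∈ s.filter (fun i => v i = u), g u * u ^ n * L.eval u := by
      refine Finset.sum_congr rfl fun i hi => ?_
      rw [(Finset.mem_filter.1 hi).2]
    rw [h2, h3, add_zero, Finset.sum_const, nsmul_eq_mul]
    ring

/-- numbers whose power sums are rational are algebraic -/
theorem algebraic_of_psum (s : Finset ℕ) (v : ℕ → ℂ)
    (h : ∀ n : ℕ, ∃ b : ℚ, ∑ i ∈ s, v i ^ n = (b : ℂ)) : ∀ i ∈ s, IsAlgebraic ℚ (v i) := by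
  classical
  intro i hi
  by_cases hvi : v i = 0
  · rw [hvi]
    exact isAlgebraic_zero
  choose b hb using h
  obtain ⟨φ, hφ⟩ : ∃ φ : ℂ →ₗ[ℚ] ℚ, φ 1 = 1 := by
    have h1 : Function.Injective (Algebra.linearMap ℚ ℂ) :=
      (algebraMap ℚ ℂ).injective
    obtain ⟨φ, hφ⟩ := LinearMap.exists_leftInverse_of_injective (Algebra.linearMap ℚ ℂ)
      (LinearMap.ker_eq_bot.2 h1)
    refine ⟨φ, ?_⟩
    have h2 := LinearMap.congr_fun hφ 1
    simpa using h2
  set P : Polynomial ℂ := ∏ j ∈ s, (Polynomial.X - Polynomial.C (v j)) with hP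
  have hPm : P.Monic := Polynomial.monic_prod_of_monic _ _ fun j _ => Polynomial.monic_X_sub_C _
  have hP0 : ∀ j ∈ s, P.eval (v j) = 0 := by
    intro j hj
    rw [hP, Polynomial.eval_prod]
    exact Finset.prod_eq_zero hj (by simp)
  set d := P.natDegree with hd
  set Q : Polynomial ℚ := ∑ k ∈ Finset.range (d + 1), Polynomial.C (φ (P.coeff k)) *
    Polynomial.X ^ k with hQ
  have hQd : Q.coeff d = 1 := by
    rw [hQ, Polynomial.finsetSum_coeff, Finset.sum_eq_single d]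
    · rw [Polynomial.coeff_C_mul, Polynomial.coeff_X_pow, if_pos rfl, mul_one]
      have h1 : P.coeff d = 1 := hPm.coeff_natDegree
      rw [h1, hφ]
    · intro k _ hk
      rw [Polynomial.coeff_C_mul, Polynomial.coeff_X_pow, if_neg hk.symm, mul_zero]
    · intro h1
      exact absurd (Finset.mem_range.2 (Nat.lt_succ_self d)) h1
  have hQ0 : Q ≠ 0 := by
    intro h1
    rw [h1, Polynomial.coeff_zero] at hQd
    exact zero_ne_one hQd
  refine ⟨Q, hQ0, ?_⟩
  have hQe : ∀ x : ℂ, aeval x Q = ∑ k ∈ Finset.range (d + 1), (φ (P.coeff k) : ℂ) * x ^ k := by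
    intro x
    rw [hQ, map_sum]
    refine Finset.sum_congr rfl fun k _ => ?_
    rw [map_mul, map_pow, Polynomial.aeval_C, Polynomial.aeval_X]
    rfl
  have key : ∀ n : ℕ, ∑ j ∈ s, aeval (v j) Q * v j ^ n = 0 := by
    intro n
    have h1 : ∑ j ∈ s, aeval (v j) Q * v j ^ n =
        ∑ k ∈ Finset.range (d + 1), (φ (P.coeff k) : ℂ) * (b (n + k) : ℂ) := by
      simp only [hQe, Finset.sum_mul]
      rw [Finset.sum_comm]
      refine Finset.sum_congr rfl fun k _ => ?_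
      rw [← hb, Finset.mul_sum]
      refine Finset.sum_congr rfl fun j _ => ?_
      rw [pow_add]
      ring
    have h2 : ∑ k ∈ Finset.range (d + 1), (φ (P.coeff k)) * (b (n + k)) =
        φ (∑ j ∈ s, P.eval (v j) * v j ^ n) := by
      have h3 : ∑ j ∈ s, P.eval (v j) * v j ^ n =
          ∑ k ∈ Finset.range (d + 1), (b (n + k)) • P.coeff k := by
        simp only [Polynomial.eval_eq_sum_range, Finset.sum_mul]
        rw [Finset.sum_comm]
        refine Finset.sum_congr rfl fun k _ => ?_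
        rw [Algebra.smul_def]
        have h4 : (algebraMap ℚ ℂ) (b (n + k)) = ∑ j ∈ s, v j ^ (n + k) := (hb (n + k)).symm
        rw [h4, Finset.sum_mul]
        refine Finset.sum_congr rfl fun j _ => ?_
        rw [pow_add]
        ring
      rw [h3, map_sum]
      refine Finset.sum_congr rfl fun k _ => ?_
      rw [map_smul, smul_eq_mul, mul_comm]
    rw [h1]
    have h4 : ∑ j ∈ s, P.eval (v j) * v j ^ n = 0 :=
      Finset.sum_eq_zero fun j hj => by rw [hP0 j hj, zero_mul]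
    rw [h4, map_zero] at h2
    exact_mod_cast h2
  obtain ⟨L, e, he, h1⟩ := pick s v hi
  have h2 := h1 (fun x => aeval x Q) 1
  simp only [key, mul_zero, Finset.sum_const_zero] at h2
  have h4 := (mul_eq_zero.1 h2.symm).resolve_left he
  rw [pow_one] at h4
  exact (mul_eq_zero.1 h4).resolve_right hvi

/-- numbers with bounded power sums are bounded by one -/
theorem norm_le_one_of_psum {K : Type} [NormedField K] [CharZero K] (s : Finset ℕ) (v : ℕ → K)
    (C : ℝ) (h : ∀ n : ℕ, ‖∑ i ∈ s, v i ^ n‖ ≤ C) : ∀ i ∈ s, ‖v i‖ ≤ 1 := by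
  intro i hi
  by_contra hlt
  rw [not_le] at hlt
  obtain ⟨L, e, he, h1⟩ := pick s v hi
  set D := ∑ k ∈ Finset.range (L.natDegree + 1), ‖L.coeff k‖ * C with hD
  have he0 : 0 < ‖e‖ := norm_pos_iff.2 he
  obtain ⟨n, hn⟩ := pow_unbounded_of_one_lt (D / ‖e‖) hlt
  have h2 := h1 (fun _ => 1) n
  simp only [one_mul] at h2
  have h3 : ‖∑ k ∈ Finset.range (L.natDegree + 1), L.coeff k * ∑ i ∈ s, v i ^ (n + k)‖ ≤ D := by
    refine (norm_sum_le _ _).trans (Finset.sum_le_sum fun k _ => ?_)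
    rw [norm_mul]
    exact mul_le_mul_of_nonneg_left (h _) (norm_nonneg _)
  rw [h2, norm_mul, norm_pow] at h3
  rw [div_lt_iff₀ he0, mul_comm] at hn
  exact absurd hn (not_lt.2 h3)

/-- the power sums of the products `v i * v j`, `i ≠ j` -/
theorem psum_prod {K : Type} [Field K] (N : ℕ) (v : ℕ → K) (n : ℕ) :
    ∑ m ∈ (Finset.range (N * N)).filter (fun m => ¬ m / N = m % N),
      (v (m / N) * v (m % N)) ^ n =
      (∑ i ∈ Finset.range N, v i ^ n) ^ 2 - ∑ i ∈ Finset.range N, v i ^ (2 * n) := by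
  have h1 : ∑ m ∈ Finset.range (N * N), (v (m / N) * v (m % N)) ^ n =
      (∑ i ∈ Finset.range N, v i ^ n) ^ 2 := by
    rcases Nat.eq_zero_or_pos N with rfl | hN
    · simp
    rw [pow_two, Finset.sum_mul_sum, ← Finset.sum_product']
    refine Finset.sum_nbij' (fun m => (m / N, m % N)) (fun x => x.1 * N + x.2) ?_ ?_ ?_ ?_ ?_
    · intro m hm
      rw [Finset.mem_range] at hm
      rw [Finset.mem_product, Finset.mem_range, Finset.mem_range]
      exact ⟨Nat.div_lt_of_lt_mul hm, Nat.mod_lt _ hN⟩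
    · intro x hx
      rw [Finset.mem_product, Finset.mem_range, Finset.mem_range] at hx
      rw [Finset.mem_range]
      calc x.1 * N + x.2 < x.1 * N + N := by omega
        _ = (x.1 + 1) * N := by ring
        _ ≤ N * N := Nat.mul_le_mul_right N hx.1
    · intro m _
      simp only
      rw [mul_comm]
      exact Nat.div_add_mod m N
    · intro x hx
      rw [Finset.mem_product, Finset.mem_range, Finset.mem_range] at hx
      ext
      · simp only
        rw [mul_comm, Nat.mul_add_div hN, Nat.div_eq_of_lt hx.2, add_zero]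
      · simp only
        rw [mul_comm, Nat.mul_add_mod, Nat.mod_eq_of_lt hx.2]
    · intro m _
      simp only
      rw [mul_pow]
  have h2 : ∑ m ∈ (Finset.range (N * N)).filter (fun m => m / N = m % N),
      (v (m / N) * v (m % N)) ^ n = ∑ i ∈ Finset.range N, v i ^ (2 * n) := by
    rcases Nat.eq_zero_or_pos N with rfl | hN
    · simp
    refine Finset.sum_nbij' (fun m => m / N) (fun i => i * N + i) ?_ ?_ ?_ ?_ ?_
    · intro m hm
      rw [Finset.mem_filter, Finset.mem_range] at hm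
      rw [Finset.mem_range]
      exact Nat.div_lt_of_lt_mul hm.1
    · intro i hi
      rw [Finset.mem_range] at hi
      rw [Finset.mem_filter, Finset.mem_range]
      refine ⟨?_, ?_⟩
      · calc i * N + i < i * N + N := by omega
          _ = (i + 1) * N := by ring
          _ ≤ N * N := Nat.mul_le_mul_right N hi
      · rw [mul_comm, Nat.mul_add_div hN, Nat.div_eq_of_lt hi, add_zero, Nat.mul_add_mod,
          Nat.mod_eq_of_lt hi]
    · intro m hm
      rw [Finset.mem_filter, Finset.mem_range] at hm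
      have h3 := Nat.div_add_mod m N
      rw [← hm.2] at h3
      rw [mul_comm]
      exact h3
    · intro i hi
      rw [Finset.mem_range] at hi
      rw [mul_comm, Nat.mul_add_div hN, Nat.div_eq_of_lt hi, add_zero]
    · intro m hm
      rw [Finset.mem_filter] at hm
      rw [← hm.2, mul_pow, ← pow_add, two_mul]
  rw [← h1, ← h2, ← Finset.sum_filter_add_sum_filter_not (Finset.range (N * N))
    (fun m => m / N = m % N)]
  ring

section core

variable {K : Type} [NormedField K] [IsUltrametricDist K] [CharZero K] {p : ℕ} [hp : Fact p.Prime]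

theorem norm_int_le (n : ℤ) : ‖(n : K)‖ ≤ 1 := IsUltrametricDist.norm_intCast_le_one K n

theorem norm_dvd (hpn : ‖(p : K)‖ = (p : ℝ)⁻¹) {n : ℤ} {k : ℕ} (h : (p : ℤ) ^ k ∣ n) :
    ‖(n : K)‖ ≤ ((p : ℝ)⁻¹) ^ k := by
  obtain ⟨m, rfl⟩ := h
  push_cast
  rw [norm_mul, norm_pow, hpn]
  exact mul_le_of_le_one_right (by positivity) (norm_int_le m)

theorem nsub_le (x y : K) : ‖x - y‖ ≤ max ‖x‖ ‖y‖ := by
  have h := IsUltrametricDist.norm_add_le_max x (-y)
  rwa [norm_neg, ← sub_eq_add_neg] at h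

theorem norm_aeval_le {x : K} (hx : ‖x‖ ≤ 1) (P : Polynomial ℤ) : ‖aeval x P‖ ≤ 1 := by
  rw [Polynomial.aeval_eq_sum_range]
  refine IsUltrametricDist.norm_sum_le_of_forall_le_of_nonneg zero_le_one fun i _ => ?_
  rw [zsmul_eq_mul, norm_mul, norm_pow]
  exact mul_le_one₀ (norm_int_le _) (by positivity) (pow_le_one₀ (norm_nonneg _) hx)

/-- integers prime to `p` are units -/
theorem norm_eq_one (hpn : ‖(p : K)‖ = (p : ℝ)⁻¹) {n : ℤ} (h : ¬ (p : ℤ) ∣ n) :
    ‖(n : K)‖ = 1 := by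
  have hprime : Prime (p : ℤ) := Nat.prime_iff_prime_int.1 hp.out
  obtain ⟨u, v, huv⟩ : IsCoprime n (p : ℤ) := ((Prime.coprime_iff_not_dvd hprime).2 h).symm
  have hp1 : (p : ℝ)⁻¹ < 1 := inv_lt_one_of_one_lt₀ (by exact_mod_cast hp.out.one_lt)
  refine le_antisymm (norm_int_le n) (not_lt.1 fun hlt => ?_)
  have h1 : (u : K) * n + v * (p : K) = 1 := by exact_mod_cast congrArg (Int.cast : ℤ → K) huv
  have h2 := IsUltrametricDist.norm_add_le_max ((u : K) * n) (v * (p : K))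
  rw [h1, norm_one, norm_mul, norm_mul, hpn] at h2
  have hu := norm_int_le (K := K) u
  have hv := norm_int_le (K := K) v
  have h3 : ‖(u : K)‖ * ‖(n : K)‖ < 1 :=
    lt_of_le_of_lt (mul_le_of_le_one_left (norm_nonneg _) hu) hlt
  have h4 : ‖(v : K)‖ * (p : ℝ)⁻¹ < 1 :=
    lt_of_le_of_lt (mul_le_of_le_one_left (by positivity) hv) hp1
  exact absurd h2 (not_le.2 (max_lt h3 h4))

/-- the `p`-adic heart of the argument -/
theorem core (hpn : ‖(p : K)‖ = (p : ℝ)⁻¹) (x z j : ℕ → K) (c : ℤ) (a b w t : ℕ) (ϖ : K)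
    (P : Polynomial ℤ) (P' : ℤ) (hc0 : ‖(c : K)‖ = 1) (hc1 : ‖(c : K) - 1728‖ = 1)
    (h1 : ∀ s : ℕ, ∃ h : ℤ, ∑ i ∈ Finset.range (p + 1), j i ^ s = (h : K))
    (h2 : ∀ M : ℕ, ∃ h h' : ℤ, ∑ i ∈ Finset.range (p + 1), x i ^ M = (h : K) ∧
      ∑ i ∈ Finset.range (p + 1), x i ^ (2 * M) = (h' : K) ∧
      (p : ℤ) ^ (12 * M + 1) ∣ h ^ 2 - h')
    (h3 : ∀ i ∈ Finset.range (p + 1), z i ^ 12 * ((c : K) ^ (4 * a) * ((c : K) - 1728) ^ (6 * b)) =
      x i ^ w * (j i ^ (4 * a) * (j i - 1728) ^ (6 * b)))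
    (h4 : ∀ M : ℕ, (w + 1) * (t + 1) ≤ 12 * M + 1 → ∃ G H : ℤ,
      ∑ i ∈ Finset.range (p + 1), x i ^ M = (H : K) ∧
      ∑ i ∈ Finset.range (p + 1), x i ^ M * (z i * aeval (j i) P) = (G : K) ∧
      (p : ℤ) ^ ((w + 1) * (t + 1)) ∣ P' * H - G)
    {i₀ : ℕ} (hi₀ : i₀ ∈ Finset.range (p + 1)) (hx₀ : x i₀ = ϖ ^ 12) (hz₀ : z i₀ = ϖ ^ w)
    (hj₀ : j i₀ = c) (hϖ : ‖ϖ‖ = 1) :
    ‖(P' : K) - ϖ ^ w * (P.eval c : ℤ)‖ ≤ ((p : ℝ)⁻¹) ^ ((w + 1) * (t + 1)) := by
  have hp1 : (p : ℝ)⁻¹ ≤ 1 := inv_le_one_of_one_le₀ (by exact_mod_cast hp.out.one_le)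
  have hp0 : 0 < (p : ℝ)⁻¹ := inv_pos.2 (by exact_mod_cast hp.out.pos)
  have hpK : (p : K) ≠ 0 := Nat.cast_ne_zero.2 hp.out.ne_zero
  -- the `j`-invariants are integral
  have hj : ∀ i ∈ Finset.range (p + 1), ‖j i‖ ≤ 1 := by
    refine norm_le_one_of_psum _ _ 1 fun s => ?_
    obtain ⟨h, hh⟩ := h1 s
    rw [hh]
    exact norm_int_le h
  -- the products
  have hxx : ∀ i ∈ Finset.range (p + 1), ∀ k ∈ Finset.range (p + 1), i ≠ k →
      ‖x i * x k‖ ≤ ((p : ℝ)⁻¹) ^ 12 := by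
    have key : ∀ m ∈ (Finset.range ((p + 1) * (p + 1))).filter
        (fun m => ¬ m / (p + 1) = m % (p + 1)),
        ‖x (m / (p + 1)) * x (m % (p + 1)) * (p : K)⁻¹ ^ 12‖ ≤ 1 := by
      refine norm_le_one_of_psum _ (fun m => x (m / (p + 1)) * x (m % (p + 1)) *
        (p : K)⁻¹ ^ 12) 1 fun M => ?_
      obtain ⟨h, h', hh, hh', hd⟩ := h2 M
      have h5 := psum_prod (p + 1) x M
      rw [hh, hh'] at h5
      have h6 : ∑ m ∈ (Finset.range ((p + 1) * (p + 1))).filter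
          (fun m => ¬ m / (p + 1) = m % (p + 1)),
          (x (m / (p + 1)) * x (m % (p + 1)) * (p : K)⁻¹ ^ 12) ^ M =
          ((h ^ 2 - h' : ℤ) : K) * ((p : K)⁻¹ ^ 12) ^ M := by
        push_cast
        rw [← h5, Finset.sum_mul]
        refine Finset.sum_congr rfl fun m _ => ?_
        rw [mul_pow]
      rw [h6, norm_mul, norm_pow, norm_pow, norm_inv, hpn, inv_inv, ← pow_mul]
      have h7 := norm_dvd (K := K) hpn hd
      have h8 : ‖((h ^ 2 - h' : ℤ) : K)‖ ≤ ((p : ℝ)⁻¹) ^ (12 * M) :=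
        h7.trans (pow_le_pow_of_le_one hp0.le hp1 (Nat.le_succ _))
      calc ‖((h ^ 2 - h' : ℤ) : K)‖ * (p : ℝ) ^ (12 * M)
          ≤ ((p : ℝ)⁻¹) ^ (12 * M) * (p : ℝ) ^ (12 * M) :=
            mul_le_mul_of_nonneg_right h8 (by positivity)
        _ = 1 := by
            rw [← mul_pow, inv_mul_cancel₀, one_pow]
            exact (inv_pos.1 hp0).ne'
    intro i hi k hk hik
    rw [Finset.mem_range] at hi hk
    have hN : 0 < p + 1 := Nat.succ_pos p
    have e1 : (i * (p + 1) + k) / (p + 1) = i := by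
      rw [mul_comm, Nat.mul_add_div hN, Nat.div_eq_of_lt hk, add_zero]
    have e2 : (i * (p + 1) + k) % (p + 1) = k := by
      rw [mul_comm, Nat.mul_add_mod, Nat.mod_eq_of_lt hk]
    have h5 := key (i * (p + 1) + k) (by
      rw [Finset.mem_filter, Finset.mem_range, e1, e2]
      refine ⟨?_, hik⟩
      calc i * (p + 1) + k < i * (p + 1) + (p + 1) := by omega
        _ = (i + 1) * (p + 1) := by ring
        _ ≤ (p + 1) * (p + 1) := Nat.mul_le_mul_right _ hi)
    rw [e1, e2, norm_mul, norm_pow, norm_inv, hpn, inv_inv] at h5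
    have h6 : ‖x i * x k‖ = ‖x i * x k‖ * (p : ℝ) ^ 12 * ((p : ℝ)⁻¹) ^ 12 := by
      rw [mul_assoc, ← mul_pow, mul_inv_cancel₀, one_pow, mul_one]
      exact (inv_pos.1 hp0).ne'
    rw [h6]
    exact mul_le_of_le_one_left (by positivity) h5
  have hx0 : ‖x i₀‖ = 1 := by rw [hx₀, norm_pow, hϖ, one_pow]
  have hx : ∀ i ∈ Finset.range (p + 1), i ≠ i₀ → ‖x i‖ ≤ ((p : ℝ)⁻¹) ^ 12 := by
    intro i hi hne
    have h5 := hxx i hi i₀ hi₀ hne
    rwa [norm_mul, hx0, mul_one] at h5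
  have hx' : ∀ i ∈ Finset.range (p + 1), ‖x i‖ ≤ 1 := by
    intro i hi
    by_cases h : i = i₀
    · rw [h, hx0]
    · exact (hx i hi h).trans (pow_le_one₀ hp0.le hp1)
  have hz : ∀ i ∈ Finset.range (p + 1), ‖z i‖ ≤ 1 := by
    intro i hi
    have h5 := congrArg norm (h3 i hi)
    rw [norm_mul, norm_mul, norm_mul, norm_mul, norm_pow, norm_pow, norm_pow, norm_pow,
      norm_pow, norm_pow, hc0, hc1, one_pow, one_pow, mul_one, mul_one] at h5
    have h6 : ‖j i - 1728‖ ≤ 1 := by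
      refine (nsub_le _ _).trans (max_le (hj i hi) ?_)
      have := norm_int_le (K := K) 1728
      simpa using this
    have h7 : ‖z i‖ ^ 12 ≤ 1 := by
      rw [h5]
      exact mul_le_one₀ (pow_le_one₀ (norm_nonneg _) (hx' i hi)) (by positivity)
        (mul_le_one₀ (pow_le_one₀ (norm_nonneg _) (hj i hi)) (by positivity)
          (pow_le_one₀ (norm_nonneg _) h6))
    exact (pow_le_one_iff_of_nonneg (norm_nonneg _) (by norm_num)).1 h7
  set N := (w + 1) * (t + 1) with hN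
  obtain ⟨G, H, hH, hG, hd⟩ := h4 N (by omega)
  have hsmall : ∀ i ∈ Finset.range (p + 1), i ≠ i₀ → ‖x i ^ N‖ ≤ ((p : ℝ)⁻¹) ^ N := by
    intro i hi hne
    rw [norm_pow]
    calc ‖x i‖ ^ N ≤ (((p : ℝ)⁻¹) ^ 12) ^ N := pow_le_pow_left₀ (norm_nonneg _) (hx i hi hne) N
      _ = ((p : ℝ)⁻¹) ^ (12 * N) := by rw [← pow_mul]
      _ ≤ ((p : ℝ)⁻¹) ^ N := pow_le_pow_of_le_one hp0.le hp1 (by omega)
  have hH2 : ‖(H : K) - ϖ ^ (12 * N)‖ ≤ ((p : ℝ)⁻¹) ^ N := by
    rw [← hH, ← Finset.add_sum_erase _ _ hi₀, hx₀, ← pow_mul, add_sub_cancel_left]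
    refine IsUltrametricDist.norm_sum_le_of_forall_le_of_nonneg (by positivity) fun i hi => ?_
    exact hsmall i (Finset.mem_of_mem_erase hi) (Finset.ne_of_mem_erase hi)
  have hPc : aeval (j i₀) P = ((P.eval c : ℤ) : K) := by
    rw [hj₀]
    have h := Polynomial.aeval_algebraMap_apply K c P
    rw [Polynomial.coe_aeval_eq_eval] at h
    exact h
  have hG2 : ‖(G : K) - ϖ ^ (12 * N) * (ϖ ^ w * (P.eval c : ℤ))‖ ≤ ((p : ℝ)⁻¹) ^ N := by
    rw [← hG, ← Finset.add_sum_erase _ _ hi₀, hx₀, ← pow_mul, hz₀, hPc, add_sub_cancel_left]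
    refine IsUltrametricDist.norm_sum_le_of_forall_le_of_nonneg (by positivity) fun i hi => ?_
    have hi' := Finset.mem_of_mem_erase hi
    rw [norm_mul, norm_mul]
    calc ‖x i ^ N‖ * (‖z i‖ * ‖aeval (j i) P‖) ≤ ((p : ℝ)⁻¹) ^ N * 1 := by
          refine mul_le_mul (hsmall i hi' (Finset.ne_of_mem_erase hi)) ?_ (by positivity)
            (by positivity)
          exact mul_le_one₀ (hz i hi') (norm_nonneg _) (norm_aeval_le (hj i hi') P)
      _ = _ := mul_one _
  have hd2 : ‖(P' : K) * H - G‖ ≤ ((p : ℝ)⁻¹) ^ N := by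
    have h5 := norm_dvd (K := K) hpn hd
    push_cast at h5
    exact h5
  have hPn : ‖(P' : K)‖ ≤ 1 := norm_int_le P'
  have hfin : ϖ ^ (12 * N) * ((P' : K) - ϖ ^ w * (P.eval c : ℤ)) =
      ((P' : K) * H - G) - (P' : K) * ((H : K) - ϖ ^ (12 * N)) +
        ((G : K) - ϖ ^ (12 * N) * (ϖ ^ w * (P.eval c : ℤ))) := by ring
  have h5 : ‖ϖ ^ (12 * N) * ((P' : K) - ϖ ^ w * (P.eval c : ℤ))‖ ≤ ((p : ℝ)⁻¹) ^ N := by
    rw [hfin]
    refine (IsUltrametricDist.norm_add_le_max _ _).trans (max_le ?_ hG2)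
    refine (nsub_le _ _).trans (max_le hd2 ?_)
    rw [norm_mul]
    calc ‖(P' : K)‖ * ‖(H : K) - ϖ ^ (12 * N)‖ ≤ 1 * ((p : ℝ)⁻¹) ^ N :=
          mul_le_mul hPn hH2 (norm_nonneg _) zero_le_one
      _ = _ := one_mul _
  rwa [norm_mul, norm_pow, hϖ, one_pow, one_mul] at h5

end core

end Pool.Agent.H501.CM
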