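import Pool.Agent.H501.CM.DualA

/-!
# The `p + 1` points of the Hecke correspondence and complex multiplication
-/

set_option autoImplicit false

noncomputable section

open UpperHalfPlane hiding I
open ModularForm MatrixGroups Function Complex EisensteinSeries

namespace Pool.Agent.H501.CM

open Pool.Agent.Q237.SX
open Polynomial (aeval)

variable {p : ℕ} [hp : Fact p.Prime]

/-- the `i`-th term of the Hecke operator on functions of weight `-w`, `0 ≤ i ≤ p` -/
def Sp (p : ℕ) [Fact p.Prime] (i w : ℕ) (F : ℍ → ℂ) (τ : ℍ) : ℂ :=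
  if i = p then F (mulP p τ) else (p : ℂ) ^ w * F (divP p i τ)

theorem Tp_eq (w : ℕ) (F : ℍ → ℂ) (τ : ℍ) :
    Tp p w F τ = ∑ i ∈ Finset.range (p + 1), Sp p i w F τ := by
  rw [Finset.sum_range_succ, add_comm]
  unfold Tp Sp
  rw [if_pos rfl, Finset.mul_sum]
  congr 1
  refine Finset.sum_congr rfl fun i hi => ?_
  rw [if_neg (Finset.mem_range.1 hi).ne]

theorem Sp_mul (i v w : ℕ) (F G : ℍ → ℂ) (τ : ℍ) :
    Sp p i (v + w) (fun τ => F τ * G τ) τ = Sp p i v F τ * Sp p i w G τ := by
  unfold Sp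
  split_ifs
  · rfl
  · rw [pow_add]
    ring

theorem Sp_pow (i w : ℕ) (F : ℍ → ℂ) (τ : ℍ) (n : ℕ) :
    Sp p i (n * w) (fun τ => F τ ^ n) τ = Sp p i w F τ ^ n := by
  unfold Sp
  split_ifs
  · rfl
  · rw [mul_comm n w, pow_mul, mul_pow]

theorem Sp_const (i : ℕ) (c : ℂ) (τ : ℍ) : Sp p i 0 (fun _ => c) τ = c := by
  unfold Sp
  split_ifs
  · rfl
  · rw [pow_zero, one_mul]

theorem Sp_aeval (i : ℕ) (F : ℍ → ℂ) (τ : ℍ) (G : Polynomial ℤ) :
    Sp p i 0 (fun τ => aeval (F τ) G) τ = aeval (Sp p i 0 F τ) G := by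
  unfold Sp
  split_ifs
  · rfl
  · rw [pow_zero, one_mul, one_mul]

/-- complex multiplication: one of the `p + 1` terms is the multiplication by `π^w` -/
theorem cm_index {a b c : ℤ} {α : ℍ} (hα : (a : ℂ) * (α : ℂ) ^ 2 + b * α + c = 0) (x y : ℤ)
    (hN : x ^ 2 - b * x * y + a * c * y ^ 2 = p) :
    ∃ i ∈ Finset.range (p + 1), ∀ (w : ℕ) (F : ℍ → ℂ), Mv w F →
      Sp p i w F α = ((x : ℂ) + y * (a * α)) ^ w * F α := by
  have hp0 : (p : ℂ) ≠ 0 := Nat.cast_ne_zero.2 hp.out.ne_zero
  have hpz : (p : ℤ) ≠ 0 := by exact_mod_cast hp.out.ne_zero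
  have hprime : Prime (p : ℤ) := Nat.prime_iff_prime_int.1 hp.out
  have hdet : (x - y * b) * x - (-(y * c)) * (y * a) = p := by rw [← hN]; ring
  by_cases h1 : (p : ℤ) ∣ x - y * b ∧ (p : ℤ) ∣ y * a
  · obtain ⟨⟨A, hA⟩, ⟨C, hC⟩⟩ := h1
    refine ⟨p, Finset.mem_range.2 (Nat.lt_succ_self p), fun w F hF => ?_⟩
    unfold Sp
    rw [if_pos rfl]
    have hAC : (x : ℂ) - y * b = p * A := by exact_mod_cast hA
    have hCC : (y : ℂ) * a = p * C := by exact_mod_cast hC
    have h2 := hF A (-(y * c)) C x (by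
      apply mul_left_cancel₀ hpz
      rw [hA, hC] at hdet
      linear_combination hdet) (mulP p α) α (by
      rw [coe_mulP]
      push_cast
      linear_combination (y : ℂ) * hα - (α : ℂ) ^ 2 * hCC + (α : ℂ) * hAC)
    rw [← h2, coe_mulP]
    have h3 : (C : ℂ) * (p * α) + x = x + y * (a * α) := by
      linear_combination (-(α : ℂ)) * hCC
    rw [h3]
    ring
  · -- a residue class `e` with `B ≡ A e`, `E ≡ C e`
    have h2 : ∃ e : ℤ, (p : ℤ) ∣ -(y * c) - (x - y * b) * e ∧ (p : ℤ) ∣ x - (y * a) * e := by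
      by_cases hA : (p : ℤ) ∣ x - y * b
      · have hC : ¬ (p : ℤ) ∣ y * a := fun h => h1 ⟨hA, h⟩
        obtain ⟨u, v, huv⟩ : ∃ u v : ℤ, u * (y * a) + v * p = 1 := by
          have h3 : IsCoprime (y * a) (p : ℤ) :=
            ((Prime.coprime_iff_not_dvd hprime).2 hC).symm
          exact h3
        refine ⟨u * x, ?_, ?_⟩
        · have h4 : (p : ℤ) ∣ y * c := by
            have h5 : (p : ℤ) ∣ (y * c) * (y * a) := by
              have h6 : (y * c) * (y * a) = p - (x - y * b) * x := by rw [← hdet]; ring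
              rw [h6]
              exact dvd_sub (dvd_refl _) (hA.mul_right x)
            exact (hprime.dvd_or_dvd h5).resolve_right hC
          exact dvd_sub h4.neg_right (hA.mul_right _)
        · refine ⟨v * x, ?_⟩
          linear_combination (-x) * huv
      · obtain ⟨u, v, huv⟩ : ∃ u v : ℤ, u * (x - y * b) + v * p = 1 := by
          have h3 : IsCoprime (x - y * b) (p : ℤ) :=
            ((Prime.coprime_iff_not_dvd hprime).2 hA).symm
          exact h3
        refine ⟨-(u * (y * c)), ?_, ?_⟩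
        · refine ⟨-(v * (y * c)), ?_⟩
          linear_combination (y * c) * huv
        · refine ⟨u + v * x, ?_⟩
          linear_combination (-x) * huv + u * hdet
    obtain ⟨e, ⟨B', hB'⟩, ⟨E', hE'⟩⟩ := h2
    set i : ℕ := (e % p).toNat with hi
    have hi1 : (i : ℤ) = e % p := Int.toNat_of_nonneg (Int.emod_nonneg _ hpz)
    have hi2 : i < p := by
      have h3 : (i : ℤ) < p := by
        rw [hi1]
        exact Int.emod_lt_of_pos _ (by exact_mod_cast hp.out.pos)
      exact_mod_cast h3
    obtain ⟨f, hf⟩ : ∃ f : ℤ, e = i + p * f := ⟨e / p, by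
      rw [hi1]
      exact (Int.emod_add_mul_ediv e p).symm⟩
    refine ⟨i, Finset.mem_range.2 (hi2.trans (Nat.lt_succ_self p)), fun w F hF => ?_⟩
    unfold Sp
    rw [if_neg hi2.ne]
    -- the matrix `[[A, (B - A i)/p], [C, (E - C i)/p]]`
    have hB2 : -(y * c) - (x - y * b) * i = p * (B' + (x - y * b) * f) := by
      rw [hf] at hB'
      linear_combination hB'
    have hE2 : x - (y * a) * i = p * (E' + (y * a) * f) := by
      rw [hf] at hE'
      linear_combination hE'
    have hBC : -((y : ℂ) * c) - (x - y * b) * i = p * (B' + (x - y * b) * f) := by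
      exact_mod_cast hB2
    have hEC : (x : ℂ) - (y * a) * i = p * (E' + (y * a) * f) := by
      exact_mod_cast hE2
    have h2 := hF (x - y * b) (B' + (x - y * b) * f) (y * a) (E' + (y * a) * f) (by
      apply mul_left_cancel₀ hpz
      linear_combination hdet - (x - y * b) * hE2 + (y * a) * hB2) (divP p i α) α (by
      rw [coe_divP]
      push_cast
      apply mul_left_cancel₀ hp0
      field_simp
      linear_combination (y : ℂ) * hα + hBC - (α : ℂ) * hEC)
    rw [← h2, coe_divP]
    push_cast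
    have h3 : (x : ℂ) + y * (a * α) =
        p * ((y : ℂ) * a * ((α + i) / p) + (E' + y * a * f)) := by
      field_simp
      linear_combination hEC
    rw [h3, mul_pow]
    ring

end Pool.Agent.H501.CM
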