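import Pool.Agent.H501.CM.Hecke

/-!
# The structure of functions of weight `-w` with an integral Laurent expansion
-/

set_option autoImplicit false

noncomputable section

open UpperHalfPlane hiding I
open ModularForm MatrixGroups Filter Topology Function Real Complex EisensteinSeries
open scoped Manifold
open PowerSeries (coeff)

namespace Pool.Agent.H501.CM

open Pool.Agent.Q279.SC (fr z4 z6 zD zd q4 q6 qD qd)
open Pool.Agent.Q237.SX

/-- Klein's invariant as a function -/
def jf (τ : ℍ) : ℂ := E₄ τ ^ 3 / ModularForm.discriminant τ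

/-- `E₄^a E₆^b / Δ^m` -/
def phi (a b m : ℕ) (τ : ℍ) : ℂ := E₄ τ ^ a * E₆ τ ^ b / ModularForm.discriminant τ ^ m

/-- the inverse of `Δ / q` -/
def zu : PowerSeries ℤ := Classical.choose zd_unit

theorem zd_zu : zd * zu = 1 := Classical.choose_spec zd_unit

/-- `Δ` -/
def Dl : LaurentSeries ℤ := io zD

/-- `1 / Δ` -/
def Di : LaurentSeries ℤ := qp (-1) * io zu

theorem Dl_Di : Dl * Di = 1 := by
  unfold Dl Di
  have h1 : (io zD : LaurentSeries ℤ) = qp 1 * io zd := by
    rw [zD_X, map_mul, ← qp_one]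
  have h2 : (io zd : LaurentSeries ℤ) * io zu = 1 := by rw [← map_mul, zd_zu, map_one]
  rw [h1]
  linear_combination (io zd * io zu) * qp_mul_neg (R := ℤ) 1 + h2

/-- `j` -/
def jl : LaurentSeries ℤ := io z4 ^ 3 * Di

/-- `E₄^a E₆^b / Δ^m` -/
def phil (a b m : ℕ) : LaurentSeries ℤ := io z4 ^ a * io z6 ^ b * Di ^ m

theorem HL_E4 : HL E₄ (io z4) := HL.of_HQ hq4

theorem HL_E6 : HL E₆ (io z6) := HL.of_HQ hq6

theorem HL_D : HL ModularForm.discriminant Dl := HL.of_HQ hqD

theorem HL_Di : HL (fun τ => (ModularForm.discriminant τ)⁻¹) Di := by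
  refine ⟨1, zu, rfl, ?_⟩
  have h3 : HQ (fun τ => ModularForm.discriminant τ / qq τ) (qd ℂ) := by
    have h := hqD
    rw [qD_X] at h
    exact h.divX
  have h4 : HQ (fun τ => (ModularForm.discriminant τ / qq τ)⁻¹) (mC zu) := by
    refine h3.inv (fun τ => div_ne_zero (discriminant_ne_zero τ) (qq_ne τ)) ?_
    unfold qd
    rw [← map_mul, zd_zu, map_one]
  refine h4.congr fun τ => ?_
  rw [inv_div, pow_one, div_eq_inv_mul]

theorem HL_j : HL jf jl := by
  refine ((HL_E4.pow 3).mul HL_Di).congr fun τ => ?_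
  unfold jf
  rw [div_eq_mul_inv]

theorem HL_phi (a b m : ℕ) : HL (phi a b m) (phil a b m) := by
  refine (((HL_E4.pow a).mul (HL_E6.pow b)).mul (HL_Di.pow m)).congr fun τ => ?_
  unfold phi
  rw [div_eq_mul_inv, inv_pow]

theorem HL_aeval {F : ℍ → ℂ} {x : LaurentSeries ℤ} (h : HL F x) (G : Polynomial ℤ) :
    HL (fun τ => Polynomial.aeval (F τ) G) (Polynomial.aeval x G) := by
  induction G using Polynomial.induction_on' with
  | add P Q hP hQ =>
    simp only [map_add]
    exact hP.add hQ
  | monomial n c =>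
    simp only [Polynomial.aeval_monomial, eq_intCast]
    exact (h.pow n).smul c

/-- the modular form `E₄^a E₆^b` -/
def mf (a b k : ℕ) (hk : 4 * a + 6 * b = k) : ModularForm 𝒮ℒ (k : ℤ) :=
  ModularForm.mcast (by rw [← hk]; push_cast; ring) ((E₄.pow a).mul (E₆.pow b))

theorem mf_apply (a b k : ℕ) (hk : 4 * a + 6 * b = k) (τ : ℍ) :
    mf a b k hk τ = E₄ τ ^ a * E₆ τ ^ b := by
  change (⇑(E₄.pow a) * ⇑(E₆.pow b)) τ = _
  rw [ModularForm.coe_pow, ModularForm.coe_pow]
  rfl

theorem Mv_phi {a b m w : ℕ} (hw : 4 * a + 6 * b + w = 12 * m) : Mv w (phi a b m) := by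
  refine Mv.of_mf hw (mf a b (4 * a + 6 * b) rfl) fun τ => ?_
  rw [mf_apply]
  unfold phi
  have := pow_ne_zero m (discriminant_ne_zero τ)
  field_simp

theorem Mv_j : Mv 0 jf := by
  have h := Mv_phi (a := 3) (b := 0) (m := 1) (w := 0) (by norm_num)
  refine h.congr fun τ => ?_
  unfold phi jf
  rw [pow_zero, mul_one, pow_one]

theorem Mv_aeval {F : ℍ → ℂ} (h : Mv 0 F) (G : Polynomial ℤ) :
    Mv 0 (fun τ => Polynomial.aeval (F τ) G) := by
  induction G using Polynomial.induction_on' with
  | add P Q hP hQ =>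
    simp only [map_add]
    exact hP.add hQ
  | monomial n c =>
    simp only [Polynomial.aeval_monomial, eq_intCast]
    have h1 := (h.pow n).smul (c : ℂ)
    rwa [mul_zero] at h1

theorem coeff0_z4 : coeff 0 z4 = 1 := by
  unfold z4
  have h := coeff_nat_mul 240 0 Pool.Agent.Q279.SC.zA
  rw [Nat.cast_ofNat] at h
  rw [map_add, h, zA0, mul_zero, add_zero, PowerSeries.coeff_one, if_pos rfl]

theorem coeff0_z6 : coeff 0 z6 = 1 := by
  unfold z6
  have h := coeff_nat_mul 504 0 Pool.Agent.Q279.SC.zB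
  rw [Nat.cast_ofNat] at h
  rw [map_sub, h, zB0, mul_zero, sub_zero, PowerSeries.coeff_one, if_pos rfl]

theorem jl_Dl : jl * Dl = io z4 ^ 3 := by
  unfold jl
  linear_combination (io z4 ^ 3) * Dl_Di

theorem jf_D (τ : ℍ) : jf τ * ModularForm.discriminant τ = E₄ τ ^ 3 := by
  unfold jf
  have := discriminant_ne_zero τ
  field_simp

/-- the structure of modular forms with integral coefficients -/
theorem struct_int (a b : ℕ) (hab : 4 * a + 6 * b < 12) (L : ℕ) :
    ∀ (k : ℕ) (_ : k = 12 * L + 4 * a + 6 * b) (A : ModularForm 𝒮ℒ (k : ℤ)) (α : PowerSeries ℤ),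
      HQ A (mC α) → ∃ G : Polynomial ℤ,
        (∀ τ, A τ = E₄ τ ^ a * E₆ τ ^ b * ModularForm.discriminant τ ^ L *
          Polynomial.aeval (jf τ) G) ∧
        io α = io z4 ^ a * io z6 ^ b * Dl ^ L * Polynomial.aeval jl G := by
  induction L with
  | zero =>
    intro k hk A α hA
    set M := mf a b k (by omega) with hM
    have hMq : HQ M (mC (z4 ^ a * z6 ^ b)) := by
      rw [map_mul, map_pow, map_pow]
      exact ((hq4.pow a).mul (hq6.pow b)).congr fun τ => (mf_apply a b k _ τ).symm
    set c := coeff 0 α with hc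
    have h1 : HQ (⇑(A - (c : ℂ) • M)) (mC (α - PowerSeries.C c * (z4 ^ a * z6 ^ b))) := by
      rw [map_sub, map_mul, PowerSeries.map_C]
      exact (hA.sub (hMq.smul _)).congr fun τ => rfl
    have h0 : coeff 0 (α - PowerSeries.C c * (z4 ^ a * z6 ^ b)) = 0 := by
      have h4 := coeff0_z4
      have h6 := coeff0_z6
      rw [PowerSeries.coeff_zero_eq_constantCoeff_apply] at h4 h6
      rw [map_sub, PowerSeries.coeff_C_mul, ← hc, PowerSeries.coeff_zero_eq_constantCoeff_apply,
        map_mul, map_pow, map_pow, h4, h6]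
      ring
    have h2 : mC (α - PowerSeries.C c * (z4 ^ a * z6 ^ b)) = 0 := by
      refine small_zero (k := k) (by omega) _ h1 ?_
      rw [PowerSeries.coeff_map, h0, map_zero]
    have h3 : α - PowerSeries.C c * (z4 ^ a * z6 ^ b) = 0 := by
      apply Pool.Agent.Q237.SX.map_inj
      rw [map_zero]
      exact h2
    refine ⟨Polynomial.C c, fun τ => ?_, ?_⟩
    · rw [h3, map_zero] at h1
      have h4 := (h1 τ).unique (HQ.zero τ)
      have h5 : A τ - (c : ℂ) * M τ = 0 := h4
      rw [mf_apply] at h5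
      rw [Polynomial.aeval_C, pow_zero, mul_one]
      simp only [eq_intCast]
      linear_combination h5
    · rw [sub_eq_zero.1 h3, map_mul, map_mul, map_pow, map_pow, Polynomial.aeval_C, pow_zero,
        mul_one]
      have h4 : (PowerSeries.C c : PowerSeries ℤ) = (c : PowerSeries ℤ) :=
        eq_intCast (PowerSeries.C : ℤ →+* PowerSeries ℤ) c
      rw [h4, map_intCast, eq_intCast]
      ring
  | succ L ih =>
    intro k hk A α hA
    set M := mf (a + 3 * (L + 1)) b k (by omega) with hM
    have hMq : HQ M (mC (z4 ^ (a + 3 * (L + 1)) * z6 ^ b)) := by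
      rw [map_mul, map_pow, map_pow]
      exact ((hq4.pow _).mul (hq6.pow b)).congr fun τ => (mf_apply _ b k _ τ).symm
    set c := coeff 0 α with hc
    set F' := A - (c : ℂ) • M with hF'def
    set α' := α - PowerSeries.C c * (z4 ^ (a + 3 * (L + 1)) * z6 ^ b) with hα'
    have h1 : HQ F' (mC α') := by
      rw [hα', map_sub, map_mul, PowerSeries.map_C]
      exact (hA.sub (hMq.smul _)).congr fun τ => rfl
    have h0 : coeff 0 α' = 0 := by
      have h4 := coeff0_z4
      have h6 := coeff0_z6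
      rw [PowerSeries.coeff_zero_eq_constantCoeff_apply] at h4 h6
      rw [hα', map_sub, PowerSeries.coeff_C_mul, ← hc,
        PowerSeries.coeff_zero_eq_constantCoeff_apply, map_mul, map_pow, map_pow, h4, h6]
      ring
    have hqF : qExpansion 1 F' = mC α' := (HQ.of_mf F').unique h1
    have hcusp : (qExpansion 1 F').coeff 0 = 0 := by
      rw [hqF, PowerSeries.coeff_map, h0, map_zero]
    set G₀ := CuspForm.discriminantEquiv (toCuspForm F' hcusp) with hG₀
    have hkk : (k : ℤ) - 12 = ((12 * L + 4 * a + 6 * b : ℕ) : ℤ) := by omega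
    set G : ModularForm 𝒮ℒ ((12 * L + 4 * a + 6 * b : ℕ) : ℤ) := ModularForm.mcast hkk G₀ with hG
    have hFG : ∀ τ, ModularForm.discriminant τ * G τ = F' τ := fun τ =>
      discriminant_mul_discriminantEquiv_apply (toCuspForm F' hcusp) τ
    obtain ⟨α₁, hα₁⟩ := PowerSeries.X_dvd_iff.2
      (by rw [← PowerSeries.coeff_zero_eq_constantCoeff_apply]; exact h0 :
        PowerSeries.constantCoeff α' = 0)
    have hGq : HQ G (mC (zu * α₁)) := by
      have h2 := HQ.of_mf G
      have h3 : mC α' = qD ℂ * qExpansion 1 G := h1.unique ((hqD.mul h2).congr hFG)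
      have h4 : qExpansion 1 G = mC (zu * α₁) := by
        have h5 : PowerSeries.X * qExpansion 1 G = PowerSeries.X * mC (zu * α₁) := by
          have h6 : mC α' = PowerSeries.X * mC α₁ := by rw [hα₁, map_mul, PowerSeries.map_X]
          have h7 : mC zd * mC zu = 1 := by rw [← map_mul, zd_zu, map_one]
          rw [qD_X] at h3
          unfold qd at h3
          rw [map_mul]
          rw [h6] at h3
          have h8 : mC zu * (PowerSeries.X * mC α₁) = mC zu * (PowerSeries.X *
            (PowerSeries.map (Int.castRingHom ℂ)) zd * qExpansion 1 G) := by rw [h3]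
          linear_combination (-(PowerSeries.X * qExpansion 1 G)) * h7 - h8
        exact mul_left_cancel₀ PowerSeries.X_ne_zero h5
      rw [← h4]
      exact h2
    obtain ⟨Q, hQ1, hQ2⟩ := ih _ rfl G _ hGq
    refine ⟨Polynomial.C c * Polynomial.X ^ (L + 1) + Q, fun τ => ?_, ?_⟩
    · have h4 := hFG τ
      rw [hQ1 τ] at h4
      have h5 : A τ - (c : ℂ) * M τ = F' τ := rfl
      rw [mf_apply] at h5
      have h6 := jf_D τ
      have h7 : E₄ τ ^ (a + 3 * (L + 1)) = E₄ τ ^ a * (jf τ ^ (L + 1) *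
          ModularForm.discriminant τ ^ (L + 1)) := by
        rw [← mul_pow, h6, pow_add, pow_mul]
      rw [h7] at h5
      rw [map_add, map_mul, map_pow, Polynomial.aeval_C, Polynomial.aeval_X]
      simp only [eq_intCast]
      rw [← h4] at h5
      linear_combination h5
    · have h4 : α = α' + PowerSeries.C c * (z4 ^ (a + 3 * (L + 1)) * z6 ^ b) := by
        rw [hα']
        ring
      have h5 : (io α' : LaurentSeries ℤ) = Dl * io (zu * α₁) := by
        have h6 : (io zD : LaurentSeries ℤ) = qp 1 * io zd := by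
          rw [zD_X, map_mul, ← qp_one]
        have h7 : (io zd : LaurentSeries ℤ) * io zu = 1 := by rw [← map_mul, zd_zu, map_one]
        unfold Dl
        rw [hα₁, map_mul, ← qp_one, h6, map_mul]
        linear_combination (-(qp 1 * io α₁)) * h7
      have h8 : io z4 ^ (a + 3 * (L + 1)) = io z4 ^ a * (jl ^ (L + 1) * Dl ^ (L + 1)) := by
        rw [← mul_pow, jl_Dl, pow_add, pow_mul]
      rw [h4, map_add, h5, hQ2, map_mul, map_mul, map_pow, map_pow, h8, map_add, map_mul, map_pow,
        Polynomial.aeval_C, Polynomial.aeval_X]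
      have h9 : (PowerSeries.C c : PowerSeries ℤ) = (c : PowerSeries ℤ) :=
        eq_intCast (PowerSeries.C : ℤ →+* PowerSeries ℤ) c
      rw [h9, map_intCast, eq_intCast]
      ring

/-- the structure of functions of weight `-w` with an integral Laurent expansion -/
theorem struct_neg {a b m w : ℕ} (hab : 4 * a + 6 * b < 12) (hw : 4 * a + 6 * b + w = 12 * m)
    {F : ℍ → ℂ} {x : LaurentSeries ℤ} (h : HL F x) (hF : Mv w F) :
    ∃ G : Polynomial ℤ, (∀ τ, F τ = phi a b m τ * Polynomial.aeval (jf τ) G) ∧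
      x = phil a b m * Polynomial.aeval jl G := by
  obtain ⟨K₀, h0⟩ := exists_mf h hF.S
  obtain ⟨A, α, h1, h2, h3⟩ := h0 (K₀ + m) (12 * (K₀ + m) - w) (by omega) (by omega)
  obtain ⟨G, hG1, hG2⟩ := struct_int a b hab K₀ _ (by omega) A α h1
  refine ⟨G, fun τ => ?_, ?_⟩
  · have h4 := h2 τ
    rw [hG1 τ] at h4
    have h5 := discriminant_ne_zero τ
    have h6 : ModularForm.discriminant τ ^ (K₀ + m) =
      ModularForm.discriminant τ ^ K₀ * ModularForm.discriminant τ ^ m := pow_add _ _ _
    rw [h6] at h4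
    have h7 : ModularForm.discriminant τ ^ K₀ ≠ 0 := pow_ne_zero _ h5
    have h8 : F τ * ModularForm.discriminant τ ^ m =
        E₄ τ ^ a * E₆ τ ^ b * Polynomial.aeval (jf τ) G := by
      apply mul_left_cancel₀ h7
      linear_combination h4
    unfold phi
    rw [div_mul_eq_mul_div, eq_div_iff (pow_ne_zero m h5)]
    exact h8
  · rw [hG2] at h3
    have h4 : (io (zD ^ (K₀ + m)) : LaurentSeries ℤ) = Dl ^ K₀ * Dl ^ m := by
      rw [map_pow, ← pow_add]
      rfl
    rw [h4] at h3
    have h5 : Dl ^ K₀ * Di ^ K₀ = 1 := by rw [← mul_pow, Dl_Di, one_pow]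
    have h6 : Dl ^ m * Di ^ m = 1 := by rw [← mul_pow, Dl_Di, one_pow]
    unfold phil
    calc x = x * (Dl ^ K₀ * Dl ^ m) * (Di ^ K₀ * Di ^ m) := by
          linear_combination (-x * (Dl ^ m * Di ^ m)) * h5 - x * h6
      _ = _ := by
          rw [h3]
          linear_combination (io z4 ^ a * io z6 ^ b * Polynomial.aeval jl G * Di ^ m) * h5

end Pool.Agent.H501.CM
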