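import Pool.Agent.H501.CM.Ev
import Pool.Agent.H501.CM.Pad

/-!
# Transport to the `p`-adic numbers
-/

set_option autoImplicit false

noncomputable section

open UpperHalfPlane hiding I
open ModularForm MatrixGroups Function Complex EisensteinSeries

namespace Pool.Agent.H501.CM

open Polynomial (aeval)

/-- the field of algebraic numbers -/
abbrev Qb : Type := algebraicClosure ℚ ℂ

/-- an algebraic number, as an element of `Qb` -/
def lf (x : ℂ) : Qb :=
  open Classical in if h : IsAlgebraic ℚ x then ⟨x, mem_algebraicClosure_iff.2 h⟩ else 0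

theorem lf_coe {x : ℂ} (h : IsAlgebraic ℚ x) : ((lf x : Qb) : ℂ) = x := by
  unfold lf
  rw [dif_pos h]

theorem Qb_ext {x y : Qb} (h : (x : ℂ) = y) : x = y := Subtype.ext h

theorem coe_intQb (n : ℤ) : (((n : ℤ) : Qb) : ℂ) = (n : ℂ) := by
  have h := map_intCast (algebraMap Qb ℂ) n
  exact h

theorem coe_aevalQb (x : Qb) (P : Polynomial ℤ) : ((aeval x P : Qb) : ℂ) = aeval (x : ℂ) P := by
  have h := Polynomial.aeval_algebraMap_apply ℂ x P
  exact h.symm

variable {p : ℕ} [hp : Fact p.Prime]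

theorem alg_jj {α : ℍ} {J : ℤ} (hJ : jf α = J) :
    ∀ i ∈ Finset.range (p + 1), IsAlgebraic ℚ (jj p α i) :=
  algebraic_of_psum _ _ fun n => by
    obtain ⟨h, hh⟩ := sum_jj (p := p) n J hJ
    exact ⟨h, by rw [hh]; push_cast; rfl⟩

theorem alg_xx {α : ℍ} {J : ℤ} (hJ : jf α = J) :
    ∀ i ∈ Finset.range (p + 1), IsAlgebraic ℚ (xx p α i) :=
  algebraic_of_psum _ _ fun n => by
    obtain ⟨H, h1, -⟩ := hecke_D p n
    exact ⟨(H.eval J : ℤ), by rw [sum_xx n H J hJ h1]; push_cast; rfl⟩

theorem alg_zz {α : ℍ} {J : ℤ} (hJ : jf α = J) {a b w : ℕ} (hw : 4 * a + 6 * b + w = 12)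
    (h0 : jf α ≠ 0) (h1 : jf α - 1728 ≠ 0) :
    ∀ i ∈ Finset.range (p + 1), IsAlgebraic ℚ (zz p α a b w i) := by
  intro i hi
  have h2 := zz12 (p := p) hw h0 h1 i
  have h3 : jf α ^ (4 * a) * (jf α - 1728) ^ (6 * b) ≠ 0 :=
    mul_ne_zero (pow_ne_zero _ h0) (pow_ne_zero _ h1)
  have hx := alg_xx (p := p) hJ i hi
  have hj := alg_jj (p := p) hJ i hi
  have hint : ∀ n : ℤ, IsAlgebraic ℚ ((n : ℂ)) := fun n => by
    have h := isAlgebraic_algebraMap (R := ℚ) (A := ℂ) (n : ℚ)
    have h2 : (algebraMap ℚ ℂ) (n : ℚ) = (n : ℂ) := by simp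
    rwa [h2] at h
  have h1728 : IsAlgebraic ℚ (1728 : ℂ) := by
    have := hint 1728
    simpa using this
  have h4 : zz p α a b w i ^ 12 = xx p α i ^ w * (jj p α i ^ (4 * a) *
      (jj p α i - 1728) ^ (6 * b)) * (jf α ^ (4 * a) * (jf α - 1728) ^ (6 * b))⁻¹ := by
    rw [← h2, mul_assoc, mul_inv_cancel₀ h3, mul_one]
  have h5 : IsAlgebraic ℚ (zz p α a b w i ^ 12) := by
    rw [h4, hJ]
    exact ((hx.pow w).mul ((hj.pow _).mul ((hj.sub h1728).pow _))).mul
      (((hint J).pow _).mul (((hint J).sub h1728).pow _)).inv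
  exact h5.of_pow (by norm_num)

theorem norm_p : ‖(p : PadicAlgCl p)‖ = (p : ℝ)⁻¹ := by
  have h := PadicAlgCl.norm_extends p (p : ℚ_[p])
  rw [Padic.norm_p] at h
  rw [← h]
  congr 1

/-- the congruence in the algebraic closure of `ℚ_p` -/
theorem padic_main (σ : Qb →+* PadicAlgCl p) {A B C : ℤ} {α : ℍ}
    (hα : (A : ℂ) * (α : ℂ) ^ 2 + B * α + C = 0) (x y : ℤ)
    (hN : x ^ 2 - B * x * y + A * C * y ^ 2 = p) {J : ℤ} (hJ : jf α = J)
    (hJ0 : ¬ (p : ℤ) ∣ J) (hJ1 : ¬ (p : ℤ) ∣ J - 1728) {a b w : ℕ} (hab : 4 * a + 6 * b < 12)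
    (hw : 4 * a + 6 * b + w = 12) (ϖ : Qb) (hϖ : (ϖ : ℂ) = x + y * (A * α)) (hu : ‖σ ϖ‖ = 1)
    (t m : ℕ) (hm : 0 < m) (ht : p ^ t ∣ m) :
    ‖σ (((Pm a b (p * m)).eval J : ℤ) - ϖ ^ w * ((Pm a b m).eval J : ℤ))‖ ≤
      ((p : ℝ)⁻¹) ^ ((w + 1) * (t + 1)) := by
  have hJ0' : J ≠ 0 := fun h => hJ0 (h ▸ dvd_zero _)
  have hJ1' : J - 1728 ≠ 0 := fun h => hJ1 (h ▸ dvd_zero _)
  have hj0 : jf α ≠ 0 := by rw [hJ]; exact_mod_cast hJ0'
  have hj1 : jf α - 1728 ≠ 0 := by rw [hJ]; exact_mod_cast hJ1'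
  have hpn := norm_p (p := p)
  obtain ⟨i₀, hi₀, hcm⟩ := cm_index (p := p) hα x y hN
  have hax := alg_xx (p := p) hJ
  have haj := alg_jj (p := p) hJ
  have haz := alg_zz (p := p) hJ hw hj0 hj1
  have hphi := phi_ne' hw hj0 hj1
  have key := core (K := PadicAlgCl p) (p := p) hpn (fun i => σ (lf (xx p α i)))
    (fun i => σ (lf (zz p α a b w i))) (fun i => σ (lf (jj p α i))) J a b w t (σ ϖ)
    (Pm a b m) ((Pm a b (p * m)).eval J) (norm_eq_one hpn hJ0)
    (by
      have h := norm_eq_one (K := PadicAlgCl p) hpn hJ1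
      push_cast at h
      exact h)
    (fun s => by
      obtain ⟨h, hh⟩ := sum_jj (p := p) s J hJ
      refine ⟨h, ?_⟩
      have h1 : ∑ i ∈ Finset.range (p + 1), lf (jj p α i) ^ s = ((h : ℤ) : Qb) := by
        apply Qb_ext
        rw [coe_intQb, ← hh]
        push_cast
        refine Finset.sum_congr rfl fun i hi => ?_
        rw [lf_coe (haj i hi)]
      have h2 := congrArg σ h1
      rw [map_sum, map_intCast] at h2
      rw [← h2]
      exact Finset.sum_congr rfl fun i _ => (map_pow σ _ _).symm)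
    (fun M => by
      obtain ⟨H, H₂, h1, h2, h3⟩ := hecke_DD (p := p) M
      refine ⟨H.eval J, H₂.eval J, ?_, ?_, h3 J⟩
      · have h4 : ∑ i ∈ Finset.range (p + 1), lf (xx p α i) ^ M = ((H.eval J : ℤ) : Qb) := by
          apply Qb_ext
          rw [coe_intQb, ← sum_xx M H J hJ h1]
          push_cast
          refine Finset.sum_congr rfl fun i hi => ?_
          rw [lf_coe (hax i hi)]
        have h5 := congrArg σ h4
        rw [map_sum, map_intCast] at h5
        rw [← h5]
        exact Finset.sum_congr rfl fun i _ => (map_pow σ _ _).symm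
      · have h4 : ∑ i ∈ Finset.range (p + 1), lf (xx p α i) ^ (2 * M) =
            ((H₂.eval J : ℤ) : Qb) := by
          apply Qb_ext
          rw [coe_intQb, ← sum_xx (2 * M) H₂ J hJ h2]
          push_cast
          refine Finset.sum_congr rfl fun i hi => ?_
          rw [lf_coe (hax i hi)]
        have h5 := congrArg σ h4
        rw [map_sum, map_intCast] at h5
        rw [← h5]
        exact Finset.sum_congr rfl fun i _ => (map_pow σ _ _).symm)
    (fun i hi => by
      have h1 := zz12 (p := p) hw hj0 hj1 i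
      rw [hJ] at h1
      have h2 : lf (zz p α a b w i) ^ 12 * ((J : Qb) ^ (4 * a) * ((J : Qb) - 1728) ^ (6 * b)) =
          lf (xx p α i) ^ w * (lf (jj p α i) ^ (4 * a) * (lf (jj p α i) - 1728) ^ (6 * b)) := by
        apply Qb_ext
        push_cast
        rw [lf_coe (hax i hi), lf_coe (haj i hi), lf_coe (haz i hi)]
        exact h1
      have h3 := congrArg σ h2
      simp only [map_mul, map_pow, map_sub, map_intCast, map_ofNat] at h3
      exact h3)
    (fun M hM => by
      obtain ⟨G, H, h1, h2, h3⟩ := poly_congr (p := p) hab hw t m M hm ht hM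
      refine ⟨G.eval J, H.eval J, ?_, ?_, h3 J⟩
      · have h4 : ∑ i ∈ Finset.range (p + 1), lf (xx p α i) ^ M = ((H.eval J : ℤ) : Qb) := by
          apply Qb_ext
          rw [coe_intQb, ← sum_xx M H J hJ h2]
          push_cast
          refine Finset.sum_congr rfl fun i hi => ?_
          rw [lf_coe (hax i hi)]
        have h5 := congrArg σ h4
        rw [map_sum, map_intCast] at h5
        rw [← h5]
        exact Finset.sum_congr rfl fun i _ => (map_pow σ _ _).symm
      · have h4 : ∑ i ∈ Finset.range (p + 1), lf (xx p α i) ^ M * (lf (zz p α a b w i) *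
            aeval (lf (jj p α i)) (Pm a b m)) = ((G.eval J : ℤ) : Qb) := by
          apply Qb_ext
          rw [coe_intQb, ← sum_xz a b w m M G J hJ hphi h1]
          push_cast
          refine Finset.sum_congr rfl fun i hi => ?_
          rw [lf_coe (hax i hi), lf_coe (haz i hi), coe_aevalQb, lf_coe (haj i hi)]
        have h5 := congrArg σ h4
        rw [map_sum, map_intCast] at h5
        rw [← h5]
        refine Finset.sum_congr rfl fun i _ => ?_
        rw [map_mul, map_mul, map_pow, Polynomial.aeval_def, Polynomial.aeval_def,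
          Polynomial.hom_eval₂]
        congr 3
        exact RingHom.ext_int _ _)
    hi₀
    (by
      have h1 := hcm 12 _ (Mv_phi (a := 0) (b := 0) (m := 1) (by norm_num))
      have h2 : lf (xx p α i₀) = ϖ ^ 12 := by
        apply Qb_ext
        rw [lf_coe (hax i₀ hi₀)]
        push_cast
        rw [hϖ]
        unfold xx
        rw [h1, mul_div_assoc, div_self (phi_ne 1 α), mul_one]
      rw [h2, map_pow])
    (by
      have h1 := hcm w _ (Mv_phi (a := a) (b := b) (m := 1) (by omega))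
      have h2 : lf (zz p α a b w i₀) = ϖ ^ w := by
        apply Qb_ext
        rw [lf_coe (haz i₀ hi₀)]
        push_cast
        rw [hϖ]
        unfold zz
        rw [h1, mul_div_assoc, div_self hphi, mul_one]
      rw [h2, map_pow])
    (by
      have h1 := hcm 0 _ Mv_j
      have h2 : lf (jj p α i₀) = ((J : ℤ) : Qb) := by
        apply Qb_ext
        rw [lf_coe (haj i₀ hi₀), coe_intQb]
        unfold jj
        rw [h1, pow_zero, one_mul, hJ]
      rw [h2, map_intCast])
    hu
  have h1 : σ (((Pm a b (p * m)).eval J : ℤ) - ϖ ^ w * ((Pm a b m).eval J : ℤ)) =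
      (((Pm a b (p * m)).eval J : ℤ) : PadicAlgCl p) -
        σ ϖ ^ w * (((Pm a b m).eval J : ℤ) : PadicAlgCl p) := by
    rw [map_sub, map_mul, map_pow, map_intCast, map_intCast]
  rw [h1]
  exact key

end Pool.Agent.H501.CM
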